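import Pool.Agent.Q246.NC.Inst

set_option autoImplicit false

/-!
# Euler products
-/

namespace Pool.Agent.Q246.NC

open UpperHalfPlane hiding I
open MatrixGroups CongruenceSubgroup Filter Topology Complex
open Pool.Agent.Y671.GL
open W388 (IsNewfC lamC lamC_zero)
open scoped ComplexConjugate

/-- the local factor -/
theorem local_sum {a b x : ℂ} {u : ℕ → ℂ} (h0 : u 0 = 1) (h1 : u 1 = a)
    (h2 : ∀ j, u (j + 2) = a * u (j + 1) - b * u j) (hs : Summable (fun j => u j * x ^ j)) :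
    ∑' j, u j * x ^ j = (1 - a * x + b * x ^ 2)⁻¹ := by
  have hs1 : Summable (fun j => u (j + 1) * x ^ (j + 1)) := (summable_nat_add_iff 1).2 hs
  have hs2 : Summable (fun j => u (j + 2) * x ^ (j + 2)) := (summable_nat_add_iff 2).2 hs
  obtain ⟨S, hS⟩ : ∃ S : ℂ, S = ∑' j, u j * x ^ j := ⟨_, rfl⟩
  obtain ⟨A, hA⟩ : ∃ A : ℂ, A = ∑' j, u (j + 1) * x ^ (j + 1) := ⟨_, rfl⟩
  obtain ⟨B, hB⟩ : ∃ B : ℂ, B = ∑' j, u (j + 2) * x ^ (j + 2) := ⟨_, rfl⟩
  have e1 : S = 1 + A := by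
    rw [hS, hs.tsum_eq_zero_add, h0, pow_zero, one_mul, hA]
  have e2 : A = a * x + B := by
    rw [hA, hs1.tsum_eq_zero_add, zero_add, h1, pow_one, hB]
  have e3 : B = a * x * A - b * x ^ 2 * S := by
    rw [hB, hA, hS, ← tsum_mul_left, ← tsum_mul_left, ← (hs1.mul_left _).tsum_sub (hs.mul_left _)]
    refine tsum_congr fun j => ?_
    rw [h2]
    ring
  rw [← hS]
  refine eq_inv_of_mul_eq_one_left ?_
  have e4 : A = S - 1 := by rw [e1]; ring
  have e5 : S - 1 = a * x + (a * x * (S - 1) - b * x ^ 2 * S) := by rw [← e4, ← e3]; exact e2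
  linear_combination e5

theorem frm_summable {k N : ℕ} {ps lam : ℕ → ℂ} (h : Frm k N ps lam) {s : ℂ} (hs : 1 < s.re) :
    Summable (fun n : ℕ => ‖lam n * (n : ℂ) ^ (-s)‖) := by
  obtain ⟨-, -, -, hS⟩ := Pool.Agent.Y771.GL.mf k N _ _ h
  refine ((hS s.re hs).1).of_nonneg_of_le (fun n => norm_nonneg _) fun n => ?_
  rcases Nat.eq_zero_or_pos n with rfl | hn
  · rw [h.zero]
    simp
  · rw [norm_mul, Complex.norm_natCast_cpow_of_pos hn, Complex.neg_re]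

theorem natPow_cpow (p e : ℕ) (s : ℂ) : ((p ^ e : ℕ) : ℂ) ^ (-s) = ((p : ℂ) ^ (-s)) ^ e := by
  induction e with
  | zero => simp
  | succ e ih => rw [pow_succ, Nat.cast_mul, Complex.natCast_mul_natCast_cpow, ih, pow_succ]

theorem frm_euler {k N : ℕ} {ps lam : ℕ → ℂ} (h : Frm k N ps lam) {s : ℂ} (hs : 1 < s.re) :
    HasProd (fun p : Nat.Primes => (1 - lam p * ((p : ℕ) : ℂ) ^ (-s) + ps p * (((p : ℕ) : ℂ) ^ (-s)) ^ 2)⁻¹)
      (∑' n : ℕ, lam n * (n : ℂ) ^ (-s)) := by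
  have hsum := frm_summable h hs
  have h1 := EulerProduct.eulerProduct_hasProd (f := fun n : ℕ => lam n * (n : ℂ) ^ (-s))
    (by simp [h.one]) (fun {m n} hmn => by
      show lam (m * n) * ((m * n : ℕ) : ℂ) ^ (-s) = (lam m * (m : ℂ) ^ (-s)) * (lam n * (n : ℂ) ^ (-s))
      rw [h.mul m n hmn, Nat.cast_mul, Complex.natCast_mul_natCast_cpow]
      ring) hsum (by simp [h.zero])
  refine h1.congr_fun fun p => ?_
  have hp := p.2
  have h2 : ∀ e : ℕ, lam ((p : ℕ) ^ e) * (((p : ℕ) ^ e : ℕ) : ℂ) ^ (-s) =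
      lam ((p : ℕ) ^ e) * (((p : ℕ) : ℂ) ^ (-s)) ^ e := fun e => by rw [natPow_cpow]
  rw [tsum_congr h2]
  refine (local_sum (u := fun e => lam ((p : ℕ) ^ e)) (by simp [h.one]) (by simp) (fun j => h.pow p j hp) ?_).symm
  have h3 : Summable (fun e : ℕ => lam ((p : ℕ) ^ e) * (((p : ℕ) ^ e : ℕ) : ℂ) ^ (-s)) :=
    hsum.of_norm.comp_injective (Nat.pow_right_injective hp.two_le)
  exact h3.congr h2

theorem prod_inv_list {ι : Type} (P : ι → ℂ) (l : List ι) :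
    (l.map fun i => (P i)⁻¹).prod = ((l.map P).prod)⁻¹ := by
  induction l with
  | nil => simp
  | cons a l ih =>
    simp only [List.map_cons, List.prod_cons]
    rw [ih, mul_inv]

section one
variable {N : ℕ} [NeZero N] {k : ℕ} {ψ : DirichletCharacter ℂ N}
  {f : CuspForm (Gamma1 N : Subgroup (GL (Fin 2) ℝ)) (k : ℤ)} {η : ℂ}

/-- the Gamma factor -/
noncomputable def gfac (N k : ℕ) (s : ℂ) : ℂ :=
  (N : ℂ) ^ (s / 2) * (Gammaℝ (s + ((k : ℂ) - 1) / 2) * Gammaℝ (s + ((k : ℂ) + 1) / 2))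

/-- **Newforms with nebentypus belong to the class**, with the Euler product. -/
theorem full_newfE (hk : 1 ≤ k) (hf : IsNewfC N k ψ f η) : ∃ Λ L : ℂ → ℂ, Full 1 Λ ∧
    (∃ w : ℂ, ‖w‖ = 1 ∧ ∀ s : ℂ, Λ (1 - s) = w * conj (Λ (conj s))) ∧ Differentiable ℂ L ∧
    (∀ s : ℂ, 0 < s.re → Λ s = gfac N k s * L s) ∧ ∀ s : ℂ, 1 < s.re →
      HasProd (fun p : Nat.Primes => (1 - nco f p * ((p : ℕ) : ℂ) ^ (-s) +
        ψ ((p : ℕ) : ZMod N) * (((p : ℕ) : ℂ) ^ (-s)) ^ 2)⁻¹) (L s) := by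
  obtain ⟨Λ, hF, hfe, σ, hσ⟩ := full_newf hk hf
  obtain ⟨Z, hZ, hL⟩ := exists_ZC hk hf
  have hfr := frm_newfC hk hf
  have hN : 1 ≤ N := Nat.one_le_iff_ne_zero.2 (NeZero.ne N)
  have hNc : (N : ℂ) ≠ 0 := by exact_mod_cast (show N ≠ 0 by omega)
  have hk1 : (1 : ℝ) ≤ k := by exact_mod_cast hk
  refine ⟨Λ, Z, hF, hfe, hL.diff, fun s hs => ?_, fun s hs => ?_⟩
  · have hre1 : ∀ s : ℂ, 0 < s.re → 0 < (s + ((k : ℂ) - 1) / 2).re := by
      intro s hs
      have e : (s + ((k : ℂ) - 1) / 2).re = s.re + ((k : ℝ) - 1) / 2 := by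
        rw [show ((k : ℂ) - 1) / 2 = ((((k : ℝ) - 1) / 2 : ℝ) : ℂ) by push_cast; rfl, add_re, ofReal_re]
      rw [e]
      linarith
    have hre2 : ∀ s : ℂ, 0 < s.re → 0 < (s + ((k : ℂ) + 1) / 2).re := by
      intro s hs
      have e : (s + ((k : ℂ) + 1) / 2).re = s.re + ((k : ℝ) + 1) / 2 := by
        rw [show ((k : ℂ) + 1) / 2 = ((((k : ℝ) + 1) / 2 : ℝ) : ℂ) by push_cast; rfl, add_re, ofReal_re]
      rw [e]
      linarith
    have h1 : ∀ z ∈ {z : ℂ | 0 < z.re}, Λ z * ((Gammaℝ (z + ((k : ℂ) - 1) / 2))⁻¹ *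
        (Gammaℝ (z + ((k : ℂ) + 1) / 2))⁻¹) = (N : ℂ) ^ (z / 2) * Z z := by
      refine id_ext (isOpen_lt continuous_const Complex.continuous_re) (convex_halfSpace_re_gt 0)
        ?_ ?_ (σ := max σ 1) ⟨((max σ 1 + 1 : ℝ) : ℂ), ?_, ?_⟩ ?_
      · have hg1 : Differentiable ℂ (fun z : ℂ => (Gammaℝ (z + ((k : ℂ) - 1) / 2))⁻¹) :=
          differentiable_Gammaℝ_inv.comp (by fun_prop)
        have hg2 : Differentiable ℂ (fun z : ℂ => (Gammaℝ (z + ((k : ℂ) + 1) / 2))⁻¹) :=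
          differentiable_Gammaℝ_inv.comp (by fun_prop)
        exact (hF.cls.diff.mul (hg1.mul hg2)).differentiableOn
      · have hg : Differentiable ℂ (fun z : ℂ => (N : ℂ) ^ (z / 2)) := by
          intro z
          refine DifferentiableAt.const_cpow (by fun_prop) (Or.inl hNc)
        exact (hg.mul hL.diff).differentiableOn
      · show 0 < (((max σ 1 + 1 : ℝ) : ℂ)).re
        rw [Complex.ofReal_re]
        have := le_max_right σ 1
        linarith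
      · rw [Complex.ofReal_re]
        linarith
      · intro z _ hz
        have hz1 : σ < z.re := (le_max_left _ _).trans_lt hz
        have hz2 : 1 < z.re := (le_max_right _ _).trans_lt hz
        have g1 := Gammaℝ_ne_zero_of_re_pos (hre1 z (by linarith))
        have g2 := Gammaℝ_ne_zero_of_re_pos (hre2 z (by linarith))
        rw [(hσ z hz1.le).2, cpl_eq]
        unfold comp
        rw [← ser_eq hfr hL hz2]
        generalize Gammaℝ (z + ((k : ℂ) - 1) / 2) = A at g1 ⊢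
        generalize Gammaℝ (z + ((k : ℂ) + 1) / 2) = B at g2 ⊢
        field_simp
    have h2 := h1 s hs
    have g1 := Gammaℝ_ne_zero_of_re_pos (hre1 s hs)
    have g2 := Gammaℝ_ne_zero_of_re_pos (hre2 s hs)
    unfold gfac
    generalize Gammaℝ (s + ((k : ℂ) - 1) / 2) = A at g1 h2 ⊢
    generalize Gammaℝ (s + ((k : ℂ) + 1) / 2) = B at g2 h2 ⊢
    have e : Λ s = (Λ s * (A⁻¹ * B⁻¹)) * (A * B) := by field_simp
    rw [e, h2]
    ring
  · rw [hL.ser s hs]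
    refine (frm_euler hfr hs).congr_fun fun p => ?_
    rw [nco_eq]

/-- the list version with Euler products -/
theorem full_listE {ι : Type} (N k : ι → ℕ) (E : ι → ℂ → Nat.Primes → ℂ)
    (h : ∀ i, ∃ Λ L : ℂ → ℂ, Full 1 Λ ∧ (∃ w : ℂ, ‖w‖ = 1 ∧ ∀ s : ℂ, Λ (1 - s) = w * conj (Λ (conj s))) ∧
      Differentiable ℂ L ∧ (∀ s : ℂ, 0 < s.re → Λ s = gfac (N i) (k i) s * L s) ∧
      ∀ s : ℂ, 1 < s.re → HasProd (E i s) (L s))
    (l : List ι) (hl : l ≠ []) :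
    ∃ Λ L : ℂ → ℂ, Full (l.length : ℝ) Λ ∧ (∃ w : ℂ, ‖w‖ = 1 ∧ ∀ s : ℂ, Λ (1 - s) = w * conj (Λ (conj s))) ∧
      Differentiable ℂ L ∧ (∀ s : ℂ, 0 < s.re → Λ s = (l.map fun i => gfac (N i) (k i) s).prod * L s) ∧
        ∀ s : ℂ, 1 < s.re → HasProd (fun p => (l.map fun i => E i s p).prod) (L s) := by
  induction l with
  | nil => exact absurd rfl hl
  | cons a l ih =>
    obtain ⟨Λ1, L1, h1, ⟨w1, hw1, f1⟩, d1, e1, g1⟩ := h a
    rcases eq_or_ne l [] with rfl | hne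
    · refine ⟨Λ1, L1, by simpa using h1, ⟨w1, hw1, f1⟩, d1, fun s hs => ?_, fun s hs => ?_⟩
      · simpa using e1 s hs
      · simpa using g1 s hs
    · obtain ⟨Λ2, L2, h2, ⟨w2, hw2, f2⟩, d2, e2, g2⟩ := ih hne
      refine ⟨fun s => Λ2 s * Λ1 s, fun s => L1 s * L2 s, ?_, ⟨w2 * w1, by rw [norm_mul, hw1, hw2, one_mul],
        fun s => ?_⟩, d1.mul d2, fun s hs => ?_, fun s hs => ?_⟩
      · have := h2.mul h1
        rw [List.length_cons]
        push_cast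
        exact this
      · simp only
        rw [f1, f2, map_mul]
        ring
      · simp only [List.map_cons, List.prod_cons]
        rw [e1 s hs, e2 s hs]
        ring
      · simp only [List.map_cons, List.prod_cons]
        exact (g1 s hs).mul (g2 s hs)

/-- the Gamma factors of forms of the same weight -/
theorem prod_gfac {ι : Type} (N : ι → ℕ) (k : ℕ) (s : ℂ) (l : List ι) :
    (l.map fun i => gfac (N i) k s).prod = (((l.map N).prod : ℕ) : ℂ) ^ (s / 2) *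
      (Gammaℝ (s + ((k : ℂ) - 1) / 2) * Gammaℝ (s + ((k : ℂ) + 1) / 2)) ^ l.length := by
  induction l with
  | nil => simp
  | cons a l ih =>
    simp only [List.map_cons, List.prod_cons, List.length_cons]
    rw [ih, Nat.cast_mul, Complex.natCast_mul_natCast_cpow, pow_succ]
    unfold gfac
    ring

/-- the order is not changed by the Gamma factor -/
theorem order_gfac {A : ℂ} {m : ℕ} {L Λ : ℂ → ℂ} (hL : Differentiable ℂ L) (hA : A ≠ 0)
    (h : ∀ s : ℂ, 0 < s.re → Λ s = A ^ (s / 2) * (Gammaℝ s * Gammaℝ (s + 1)) ^ m * L s) {s : ℂ} (hs : 0 < s.re) :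
    analyticOrderNatAt L s = analyticOrderNatAt Λ s := by
  have hopen : IsOpen {z : ℂ | 0 < z.re} := isOpen_lt continuous_const Complex.continuous_re
  obtain ⟨g, hg⟩ : ∃ g : ℂ → ℂ, g = fun z => A ^ (z / 2) * (((Gammaℝ z)⁻¹ * (Gammaℝ (z + 1))⁻¹) ^ m)⁻¹ := ⟨_, rfl⟩
  have hev : Λ =ᶠ[𝓝 s] g * L := by
    filter_upwards [hopen.mem_nhds hs] with z hz
    rw [h z hz, hg]
    show _ = A ^ (z / 2) * (((Gammaℝ z)⁻¹ * (Gammaℝ (z + 1))⁻¹) ^ m)⁻¹ * L z
    rw [← mul_inv, inv_pow, inv_inv]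
  have hne1 : ∀ z : ℂ, 0 < z.re → ((Gammaℝ z)⁻¹ * (Gammaℝ (z + 1))⁻¹) ^ m ≠ 0 := by
    intro z hz
    have hz1 : 0 < (z + 1).re := by rw [add_re, one_re]; linarith
    exact pow_ne_zero _ (mul_ne_zero (inv_ne_zero (Gammaℝ_ne_zero_of_re_pos hz))
      (inv_ne_zero (Gammaℝ_ne_zero_of_re_pos hz1)))
  have hga : AnalyticAt ℂ g s := by
    have h1 : Differentiable ℂ (fun z : ℂ => (Gammaℝ (z + 1))⁻¹) :=
      differentiable_Gammaℝ_inv.comp (by fun_prop)
    have h2 : Differentiable ℂ (fun z : ℂ => ((Gammaℝ z)⁻¹ * (Gammaℝ (z + 1))⁻¹) ^ m) :=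
      (differentiable_Gammaℝ_inv.mul h1).pow m
    have h3 : Differentiable ℂ (fun z : ℂ => A ^ (z / 2)) := fun z =>
      DifferentiableAt.const_cpow (by fun_prop) (Or.inl hA)
    rw [hg]
    exact (h3.analyticAt s).mul ((h2.analyticAt s).inv (hne1 s hs))
  have hgne : g s ≠ 0 := by
    rw [hg]
    refine mul_ne_zero ?_ (inv_ne_zero (hne1 s hs))
    rw [Ne, Complex.cpow_eq_zero_iff]
    exact fun h3 => hA h3.1
  unfold analyticOrderNatAt
  rw [analyticOrderAt_congr hev, analyticOrderAt_mul hga (hL.analyticAt s),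
    hga.analyticOrderAt_eq_zero.mpr hgne, zero_add]

end one

end Pool.Agent.Q246.NC
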