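import Pool.Agent.Q246.NC.Had

set_option autoImplicit false

/-!
# Strict growth of the modulus away from the critical line at most heights
-/

namespace Pool.Agent.Q246.NC

open Complex Filter Topology Polynomial MeasureTheory Set
open Pool.Agent.Y22.LM (poly_ineq)
open Pool.Agent.Y22.RX (Bad S sum_le)
open scoped ComplexConjugate

/-- monotone growth -/
theorem mono_of {f : ℂ → ℂ} {p : ℕ → ℂ[X]}
    (hroots : ∀ (N : ℕ) (z : ℂ), (p N).IsRoot z → f z = 0 ∨ z.re = 0)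
    (hlim : TendstoLocallyUniformly (fun (N : ℕ) (z : ℂ) => (p N).eval z) f atTop) {t : ℝ}
    (hsym : ∀ (N : ℕ) (h : ℝ), ‖(p N).eval (-h + t * I : ℂ)‖ = ‖(p N).eval (h + t * I : ℂ)‖)
    {h0 h1 h2 : ℝ} (h0n : 0 ≤ h0) (h01 : h0 ≤ h1) (h12 : h1 ≤ h2)
    (hZ : ∀ b : ℂ, f b = 0 → h0 < |b.re| → |b.re| ≤ |t - b.im|) :
    ‖f (h1 + t * I : ℂ)‖ ≤ ‖f (h2 + t * I : ℂ)‖ := by
  have hpt : ∀ z : ℂ, Tendsto (fun N => ‖(p N).eval z‖) atTop (𝓝 ‖f z‖) := fun z =>
    ((tendstoLocallyUniformlyOn_univ.mpr hlim).tendsto_at (Set.mem_univ z)).norm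
  refine le_of_tendsto_of_tendsto' (hpt _) (hpt _) fun N => ?_
  have h := poly_ineq (p := p N) (hsym N) h0n h01 h12 ∅ (fun _ => 0) (fun b hb hb1 hb2 => ?_)
    (fun b hb => by simp at hb) (fun b hb => by simp at hb)
  · simpa using h
  · exfalso
    rcases hroots N b (Polynomial.isRoot_of_mem_roots hb) with h3 | h3
    · have := hZ b h3 hb2
      linarith
    · rw [h3, abs_zero] at hb2
      linarith

/-- strict growth on a ray -/
theorem strict_of {f : ℂ → ℂ} (hfd : Differentiable ℂ f) (hfs : ∀ z : ℂ, f (-(conj z)) = conj (f z))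
    (hz0 : ∃ z, f z = 0) {p : ℕ → ℂ[X]}
    (hroots : ∀ (N : ℕ) (z : ℂ), (p N).IsRoot z → f z = 0 ∨ z.re = 0)
    (hlim : TendstoLocallyUniformly (fun (N : ℕ) (z : ℂ) => (p N).eval z) f atTop)
    (hsym : ∀ (N : ℕ) (h t : ℝ), ‖(p N).eval (-h + t * I : ℂ)‖ = ‖(p N).eval (h + t * I : ℂ)‖)
    {t h0 : ℝ} (h0n : 0 ≤ h0)
    (hZ : ∀ b : ℂ, f b = 0 → h0 < |b.re| → |b.re| ≤ |t - b.im|) :
    StrictMonoOn (fun x : ℝ => ‖f (x + t * I : ℂ)‖) (Set.Ici h0) := by
  have hg : ∀ h1 h2 : ℝ, h0 ≤ h1 → h1 ≤ h2 → ‖f (h1 + t * I : ℂ)‖ ≤ ‖f (h2 + t * I : ℂ)‖ :=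
    fun h1 h2 h01 h12 => mono_of hroots hlim (fun N x => hsym N x t) h0n h01 h12 hZ
  have hne : ∀ x : ℝ, h0 < x → f (x + t * I : ℂ) ≠ 0 := by
    intro x hx h1
    have h2 := hZ _ h1 (by
      simp only [add_re, ofReal_re, mul_re, I_re, mul_zero, ofReal_im, I_im, mul_one, sub_self, add_zero]
      exact lt_of_lt_of_le hx (le_abs_self _))
    simp only [add_re, ofReal_re, mul_re, I_re, mul_zero, ofReal_im, I_im, mul_one, sub_self, add_zero,
      add_im, mul_im, zero_add, abs_zero] at h2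
    have h3 := abs_pos.mpr (ne_of_gt (lt_of_le_of_lt h0n hx))
    linarith
  intro h1 hh1 h2 hh2 h12
  rw [Set.mem_Ici] at hh1 hh2
  show ‖f (h1 + t * I : ℂ)‖ < ‖f (h2 + t * I : ℂ)‖
  by_contra hcon
  push Not at hcon
  have hconst : ∀ x ∈ Set.Ioo h1 h2, ‖f (x + t * I : ℂ)‖ = ‖f (h1 + t * I : ℂ)‖ := by
    intro x hh
    have a1 := hg h1 x hh1 hh.1.le
    have a2 := hg x h2 (hh1.trans hh.1.le) hh.2.le
    linarith
  obtain ⟨G, hG⟩ : ∃ G : ℂ → ℂ, G = fun z => f (z + t * I) * f (-z + t * I) - ((‖f (h1 + t * I : ℂ)‖ : ℂ)) ^ 2 := ⟨_, rfl⟩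
  have hGd : Differentiable ℂ G := by
    rw [hG]
    have e1 : Differentiable ℂ (fun z : ℂ => f (z + t * I)) := hfd.comp (by fun_prop)
    have e2 : Differentiable ℂ (fun z : ℂ => f (-z + t * I)) := hfd.comp (by fun_prop)
    exact (e1.mul e2).sub_const _
  have hG0 : ∀ x ∈ Set.Ioo h1 h2, G x = 0 := by
    intro x hh
    rw [hG]
    simp only
    have e1 : (-x + t * I : ℂ) = -((starRingEnd ℂ) (x + t * I : ℂ)) := by
      rw [map_add, map_mul, Complex.conj_ofReal, Complex.conj_ofReal, Complex.conj_I]; ring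
    rw [e1, hfs, Complex.mul_conj, Complex.normSq_eq_norm_sq, hconst x hh]
    push_cast
    ring
  have hGz : G = 0 := by
    have hm : (((h1 + h2) / 2 : ℝ) : ℂ) ∈ (Set.univ : Set ℂ) := Set.mem_univ _
    have hfreq : ∃ᶠ z in 𝓝[≠] (((h1 + h2) / 2 : ℝ) : ℂ), G z = 0 := by
      have hmap : Tendsto (fun x : ℝ => (x : ℂ)) (𝓝[≠] ((h1 + h2) / 2)) (𝓝[≠] (((h1 + h2) / 2 : ℝ) : ℂ)) := by
        refine tendsto_nhdsWithin_iff.mpr ⟨(Complex.continuous_ofReal.tendsto _).mono_left nhdsWithin_le_nhds, ?_⟩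
        filter_upwards [self_mem_nhdsWithin] with x hx
        rw [Set.mem_compl_singleton_iff] at hx ⊢
        exact fun h0 => hx (by exact_mod_cast h0)
      refine hmap.frequently (Eventually.frequently ?_)
      have : ∀ᶠ x : ℝ in 𝓝 ((h1 + h2) / 2), x ∈ Set.Ioo h1 h2 := isOpen_Ioo.mem_nhds ⟨by linarith, by linarith⟩
      filter_upwards [this.filter_mono nhdsWithin_le_nhds] with x hx
      exact hG0 x hx
    have h3 := AnalyticOnNhd.eqOn_zero_of_preconnected_of_frequently_eq_zero (f := G) (U := Set.univ)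
      (fun z _ => hGd.analyticAt z) isPreconnected_univ hm hfreq
    funext z
    exact h3 (Set.mem_univ z)
  obtain ⟨z0, hz0⟩ := hz0
  have h4 := congrFun hGz (z0 - t * I)
  rw [hG] at h4
  simp only [Pi.zero_apply, sub_add_cancel, hz0, zero_mul, zero_sub, neg_eq_zero] at h4
  have h5 : ‖f (h1 + t * I : ℂ)‖ = 0 := by
    have := pow_eq_zero_iff (two_ne_zero) |>.mp h4
    exact_mod_cast this
  have hmid := hconst ((h1 + h2) / 2) ⟨by linarith, by linarith⟩
  have h6 := hne ((h1 + h2) / 2) (by linarith)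
  rw [h5] at hmid
  exact h6 (norm_eq_zero.mp hmid)

/-- the zeros near the real axis, below it -/
def W (f : ℂ → ℂ) : Set ℂ := {b | f b = 0 ∧ -1 ≤ b.im ∧ b.im ≤ 0}

section meas
variable {f : ℂ → ℂ}

theorem bad_cover' (hst : ∀ t h0 : ℝ, 0 ≤ h0 → (∀ b : ℂ, f b = 0 → h0 < |b.re| → |b.re| ≤ |t - b.im|) →
      StrictMonoOn (fun x : ℝ => ‖f (x + t * I : ℂ)‖) (Set.Ici h0))
    (hD : ∀ b, f b = 0 → |b.re| ≤ 1 / 2) {h0 T : ℝ} (h0n : 0 ≤ h0) {t : ℝ} (ht : t ∈ Bad f h0 T) :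
    h0 < 1 / 2 ∧ ∃ b : ℂ, (b ∈ S f h0 (T + 1 / 2) ∨ b ∈ W f) ∧ t ∈ Set.Icc (b.im - |b.re|) (b.im + |b.re|) := by
  obtain ⟨ht0, htT, hbad⟩ := ht
  by_contra hcon
  apply hbad
  refine hst t h0 h0n fun b hb hb0 => ?_
  by_contra hlt
  push Not at hlt
  apply hcon
  have hDb := hD b hb
  rw [abs_lt] at hlt
  refine ⟨by linarith, b, ?_, by constructor <;> linarith⟩
  rcases lt_or_ge 0 b.im with him | him
  · left
    exact ⟨hb, hb0.le, him, by linarith⟩
  · right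
    exact ⟨hb, by linarith, him⟩

theorem bad_meas' (hst : ∀ t h0 : ℝ, 0 ≤ h0 → (∀ b : ℂ, f b = 0 → h0 < |b.re| → |b.re| ≤ |t - b.im|) →
      StrictMonoOn (fun x : ℝ => ‖f (x + t * I : ℂ)‖) (Set.Ici h0))
    (hD : ∀ b, f b = 0 → |b.re| ≤ 1 / 2) (hW : (W f).Finite)
    {c C : ℝ} (hc : 0 < c) (hc1 : c < 1) (hC : 0 < C)
    (hcount : ∀ δ T : ℝ, 0 ≤ δ → 2 ≤ T → (S f δ T).Finite ∧
      ((S f δ T).ncard : ℝ) ≤ C * T ^ (1 - c * δ) * Real.log T) :
    ∃ C' : ℝ, 0 < C' ∧ ∀ r T : ℝ, 0 ≤ r → 2 ≤ T →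
      volume (Bad f (r / Real.log T) T) ≤ ENNReal.ofReal (C' * (1 + r) * Real.exp (-(c * r)) * T) := by
  classical
  obtain ⟨D', hD1⟩ : ∃ D' : ℝ, D' = 1 / 2 := ⟨_, rfl⟩
  have hl2 : 0 < Real.log 2 := Real.log_pos (by norm_num)
  have hlD : 0 ≤ Real.log (1 + D') := Real.log_nonneg (by linarith)
  obtain ⟨E, hE⟩ : ∃ E : ℝ, E = 1 + Real.log (1 + D') / Real.log 2 := ⟨_, rfl⟩
  have hE1 : 1 ≤ E := by
    rw [hE]
    have : 0 ≤ Real.log (1 + D') / Real.log 2 := by positivity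
    linarith
  obtain ⟨M, hM⟩ : ∃ M : ℝ, M = ∑ b ∈ hW.toFinset, 2 * |b.re| := ⟨_, rfl⟩
  have hM0 : 0 ≤ M := by
    rw [hM]
    exact Finset.sum_nonneg fun b _ => by positivity
  refine ⟨2 * C * (1 + D') * E * (1 + 1 / c) + M, by positivity, fun r T hr hT => ?_⟩
  have hT0 : 0 < T := by linarith
  set L := Real.log T with hL
  have hL2 : Real.log 2 ≤ L := Real.log_le_log (by norm_num) hT
  have hL0 : 0 < L := lt_of_lt_of_le hl2 hL2
  set h0 := r / L with hh0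
  have h0n : 0 ≤ h0 := by positivity
  rcases le_or_gt (1 / 2) h0 with hbig | hsmall
  · have hemp : Bad f h0 T = ∅ := by
      rw [Set.eq_empty_iff_forall_notMem]
      intro t ht
      have := (bad_cover' hst hD h0n ht).1
      linarith
    rw [hemp, measure_empty]
    exact zero_le
  set T' := (1 + D') * T with hT'
  have hT'2 : 2 ≤ T' := by rw [hT']; nlinarith
  have hT'0 : 0 < T' := by linarith
  have hTD : T + 1 / 2 ≤ T' := by rw [hT', hD1]; nlinarith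
  have hTT' : T ≤ T' := by linarith
  have hlogT' : Real.log T' = Real.log (1 + D') + L := by
    rw [hT', Real.log_mul (by linarith) hT0.ne']
  have hlogT'1 : Real.log T' ≤ E * L := by
    rw [hlogT', hE]
    have h1 : Real.log (1 + D') ≤ Real.log (1 + D') / Real.log 2 * L := by
      rw [div_mul_eq_mul_div, le_div_iff₀ hl2]
      exact mul_le_mul_of_nonneg_left hL2 hlD
    linarith
  have hlogT'2 : L ≤ Real.log T' := by rw [hlogT']; linarith
  have hfin := (hcount h0 T' h0n hT'2).1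
  set Z := hfin.toFinset with hZ
  have hmem : ∀ b, b ∈ Z ↔ b ∈ S f h0 T' := fun b => by rw [hZ, Set.Finite.mem_toFinset]
  -- counting
  have hcnt : ∀ u : ℝ, h0 ≤ u → ((Z.filter (fun b => u ≤ |b.re|)).card : ℝ) ≤
      (C * (1 + D') * E * T * L) * Real.exp (-((c * L) * u)) := by
    intro u hu
    have hu0 : 0 ≤ u := h0n.trans hu
    obtain ⟨hf1, hf2⟩ := hcount u T' hu0 hT'2
    have h1 : (Z.filter (fun b => u ≤ |b.re|)).card ≤ (S f u T').ncard := by
      rw [← Set.ncard_coe_finset]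
      refine Set.ncard_le_ncard ?_ hf1
      intro b hb
      rw [Finset.mem_coe, Finset.mem_filter, hmem] at hb
      exact ⟨hb.1.1, hb.2, hb.1.2.2.1, hb.1.2.2.2⟩
    have h2 : (((Z.filter (fun b => u ≤ |b.re|)).card : ℕ) : ℝ) ≤ ((S f u T').ncard : ℝ) := by exact_mod_cast h1
    refine h2.trans (hf2.trans ?_)
    have h3 : T' ^ (1 - c * u) = T' * Real.exp (-(c * u * Real.log T')) := by
      rw [Real.rpow_def_of_pos hT'0]
      have : Real.log T' * (1 - c * u) = Real.log T' + -(c * u * Real.log T') := by ring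
      rw [this, Real.exp_add, Real.exp_log hT'0]
    have h4 : Real.exp (-(c * u * Real.log T')) ≤ Real.exp (-((c * L) * u)) := by
      apply Real.exp_le_exp.mpr
      have := mul_le_mul_of_nonneg_left hlogT'2 (mul_nonneg hc.le hu0)
      linarith
    have hlogn : 0 ≤ Real.log T' := hL0.le.trans hlogT'2
    calc C * T' ^ (1 - c * u) * Real.log T'
        = C * (T' * Real.exp (-(c * u * Real.log T'))) * Real.log T' := by rw [h3]
      _ ≤ C * (T' * Real.exp (-((c * L) * u))) * (E * L) := by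
          gcongr
      _ = (C * (1 + D') * E * T * L) * Real.exp (-((c * L) * u)) := by rw [hT']; ring
  have hsum := sum_le Z (fun b => |b.re|) (h0 := h0) (A := C * (1 + D') * E * T * L) (a := c * L)
    (by positivity) h0n (by positivity) (fun b hb => ((hmem b).mp hb).2.1) hcnt
  -- cover
  have hsub : Bad f h0 T ⊆ (⋃ b ∈ Z, Set.Icc (b.im - |b.re|) (b.im + |b.re|)) ∪
      ⋃ b ∈ hW.toFinset, Set.Icc (b.im - |b.re|) (b.im + |b.re|) := by
    intro t ht
    obtain ⟨-, b, hb, htb⟩ := bad_cover' hst hD h0n ht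
    rcases hb with hb | hb
    · left
      refine Set.mem_biUnion (x := b) ?_ htb
      rw [Finset.mem_coe, hmem]
      exact ⟨hb.1, hb.2.1, hb.2.2.1, hb.2.2.2.trans hTD⟩
    · right
      refine Set.mem_biUnion (x := b) ?_ htb
      rw [Finset.mem_coe, Set.Finite.mem_toFinset]
      exact hb
  have hvol : ∀ Y : Finset ℂ, volume (⋃ b ∈ Y, Set.Icc (b.im - |b.re|) (b.im + |b.re|)) ≤
      ENNReal.ofReal (∑ b ∈ Y, 2 * |b.re|) := by
    intro Y
    refine (measure_biUnion_finset_le Y _).trans (le_of_eq ?_)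
    rw [ENNReal.ofReal_sum_of_nonneg (fun b _ => by positivity)]
    refine Finset.sum_congr rfl fun b _ => ?_
    rw [Real.volume_Icc]
    congr 1
    ring
  refine (measure_mono hsub).trans ((measure_union_le _ _).trans ((add_le_add (hvol Z) (hvol _)).trans ?_))
  rw [← hM, ← ENNReal.ofReal_add (Finset.sum_nonneg fun b _ => by positivity) hM0]
  refine ENNReal.ofReal_le_ofReal ?_
  have h6 : (c * L) * h0 = c * r := by
    rw [hh0]; field_simp
  rw [h6] at hsum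
  have h7 : (C * (1 + D') * E * T * L) * Real.exp (-(c * r)) * (h0 + 1 / (c * L)) =
      C * (1 + D') * E * T * Real.exp (-(c * r)) * (r + 1 / c) := by
    rw [hh0]; field_simp
  rw [h7] at hsum
  have h8 : r + 1 / c ≤ (1 + 1 / c) * (1 + r) := by
    have : 0 ≤ 1 / c := by positivity
    nlinarith
  have h9 : C * (1 + D') * E * T * Real.exp (-(c * r)) * (r + 1 / c) ≤
      C * (1 + D') * E * T * Real.exp (-(c * r)) * ((1 + 1 / c) * (1 + r)) :=
    mul_le_mul_of_nonneg_left h8 (by positivity)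
  have h10 : M ≤ M * (1 + r) * Real.exp (-(c * r)) * T := by
    have h11 : c * r ≤ L := by
      have h12 : r < 1 / 2 * L := by
        rw [hh0, div_lt_iff₀ hL0] at hsmall
        exact hsmall
      nlinarith
    have h12 : 1 ≤ Real.exp (-(c * r)) * T := by
      rw [← Real.exp_log hT0, ← Real.exp_add]
      apply Real.one_le_exp
      rw [← hL]
      linarith
    have h13 : 1 ≤ (1 + r) * (Real.exp (-(c * r)) * T) := by nlinarith
    calc M = M * 1 := (mul_one M).symm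
      _ ≤ M * ((1 + r) * (Real.exp (-(c * r)) * T)) := mul_le_mul_of_nonneg_left h13 hM0
      _ = _ := by ring
  have h14 : ∑ b ∈ Z, 2 * |b.re| = 2 * ∑ b ∈ Z, |b.re| := by rw [Finset.mul_sum]
  rw [h14]
  calc 2 * ∑ b ∈ Z, |b.re| + M ≤
      2 * (C * (1 + D') * E * T * Real.exp (-(c * r)) * ((1 + 1 / c) * (1 + r))) +
        M * (1 + r) * Real.exp (-(c * r)) * T := by linarith
    _ = (2 * C * (1 + D') * E * (1 + 1 / c) + M) * (1 + r) * Real.exp (-(c * r)) * T := by ring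

/-- the final form -/
theorem bad_all' (hst : ∀ t h0 : ℝ, 0 ≤ h0 → (∀ b : ℂ, f b = 0 → h0 < |b.re| → |b.re| ≤ |t - b.im|) →
      StrictMonoOn (fun x : ℝ => ‖f (x + t * I : ℂ)‖) (Set.Ici h0))
    (hD : ∀ b, f b = 0 → |b.re| ≤ 1 / 2) (hW : (W f).Finite)
    (hcount : ∀ c : ℝ, c < 1 → ∃ C : ℝ, 0 < C ∧ ∀ δ T : ℝ, 0 ≤ δ → 2 ≤ T → (S f δ T).Finite ∧
      ((S f δ T).ncard : ℝ) ≤ C * T ^ (1 - c * δ) * Real.log T) {c : ℝ} (hc : c < 1) :
    ∃ C' : ℝ, 0 < C' ∧ ∀ r T : ℝ, 0 ≤ r → 2 ≤ T →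
      volume (Bad f (r / Real.log T) T) ≤ ENNReal.ofReal (C' * Real.exp (-(c * r)) * T) := by
  obtain ⟨c1, hc1, hcc1, hc11⟩ : ∃ c1 : ℝ, 0 < c1 ∧ c < c1 ∧ c1 < 1 := by
    refine ⟨max ((c + 1) / 2) (1 / 2), ?_, ?_, ?_⟩
    · exact lt_of_lt_of_le (by norm_num) (le_max_right _ _)
    · exact lt_of_lt_of_le (by linarith) (le_max_left _ _)
    · exact max_lt (by linarith) (by norm_num)
  obtain ⟨C, hC, h1⟩ := hcount c1 hc11
  obtain ⟨C1, hC1, h2⟩ := bad_meas' hst hD hW hc1 hc11 hC h1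
  have hd : 0 < c1 - c := by linarith
  refine ⟨C1 * max 1 (1 / (c1 - c)), by positivity, fun r T hr hT => (h2 r T hr hT).trans ?_⟩
  refine ENNReal.ofReal_le_ofReal ?_
  have h3 : 1 + r ≤ max 1 (1 / (c1 - c)) * Real.exp ((c1 - c) * r) := by
    have h4 : 1 + (c1 - c) * r ≤ Real.exp ((c1 - c) * r) := by
      have := Real.add_one_le_exp ((c1 - c) * r)
      linarith
    have h5 : 1 + r ≤ max 1 (1 / (c1 - c)) * (1 + (c1 - c) * r) := by
      have h6 : 1 ≤ max 1 (1 / (c1 - c)) := le_max_left _ _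
      have h7 : 1 ≤ max 1 (1 / (c1 - c)) * (c1 - c) := by
        have := mul_le_mul_of_nonneg_right (le_max_right 1 (1 / (c1 - c))) hd.le
        rwa [one_div_mul_cancel hd.ne'] at this
      nlinarith [mul_le_mul_of_nonneg_right h7 hr]
    exact h5.trans (mul_le_mul_of_nonneg_left h4 (by positivity))
  have h8 : Real.exp ((c1 - c) * r) * Real.exp (-(c1 * r)) = Real.exp (-(c * r)) := by
    rw [← Real.exp_add]
    congr 1
    ring
  have hT0 : 0 < T := by linarith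
  calc C1 * (1 + r) * Real.exp (-(c1 * r)) * T
      ≤ C1 * (max 1 (1 / (c1 - c)) * Real.exp ((c1 - c) * r)) * Real.exp (-(c1 * r)) * T := by gcongr
    _ = C1 * max 1 (1 / (c1 - c)) * (Real.exp ((c1 - c) * r) * Real.exp (-(c1 * r))) * T := by ring
    _ = C1 * max 1 (1 / (c1 - c)) * Real.exp (-(c * r)) * T := by rw [h8]

end meas

/-- **Growth away from the critical line at most heights.** -/
theorem Full.grow {κ : ℝ} {Λ : ℂ → ℂ} (h : Full κ Λ) {c : ℝ} (hc : c < 1) :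
    ∃ C : ℝ, 0 < C ∧ ∀ r T : ℝ, 0 ≤ r → 2 ≤ T →
      volume {t : ℝ | 0 ≤ t ∧ t ≤ T ∧
        ¬ StrictMonoOn (fun x : ℝ => ‖Λ (1 / 2 + x + t * I)‖) (Set.Ici (r / Real.log T))} ≤
      ENNReal.ofReal (C * Real.exp (-(c * r)) * T) := by
  obtain ⟨v, H, X, Z, hv, hX, g, hst, hA, hL, hH, -, -⟩ := h.data
  have hXd := g.cg.cf.diff
  have hXs := g.cg.cf.symm
  obtain ⟨K0, hK0, hslow⟩ := g.cg.slow
  have hne : ∃ z, X z ≠ 0 := by
    refine ⟨1, fun h0 => ?_⟩
    have := hst 1 h0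
    norm_num at this
  obtain ⟨p, hp1, hp2, hp3⟩ := approx_symm hXd hXs hne hK0 hslow
  have hz0 : ∃ z, X z = 0 := by
    obtain ⟨c0, T0, hc0, hT0, htot⟩ := Pool.Agent.Y423.GL.totd κ H _ Z h.cls.half g.cg hA 1 le_rfl
    obtain ⟨Y, hY1, hY2⟩ := htot 0 T0 le_rfl (by
      have : 0 ≤ Real.log T0 := Real.log_nonneg (by linarith)
      simpa using this)
    rcases Y.eq_empty_or_nonempty with h0 | ⟨s, hs⟩
    · exfalso
      rw [h0, Finset.sum_empty] at hY2
      have h1 : 0 < Real.log T0 := Real.log_pos (by linarith)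
      have h2 : 0 < c0 * T0 * Real.log T0 := by positivity
      linarith
    · have := (hY1 s hs).1
      rw [iteratedDeriv_zero] at this
      exact ⟨s, this⟩
  have hstr : ∀ t h0 : ℝ, 0 ≤ h0 → (∀ b : ℂ, X b = 0 → h0 < |b.re| → |b.re| ≤ |t - b.im|) →
      StrictMonoOn (fun x : ℝ => ‖X (x + t * I : ℂ)‖) (Set.Ici h0) :=
    fun t h0 h0n hZ => strict_of hXd hXs hz0 hp1 hp2 hp3 h0n hZ
  have hzero : ∀ z, X z = 0 ↔ Λ (1 / 2 + z) = 0 := by
    intro z
    rw [hX, mul_eq_zero]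
    exact ⟨fun h => h.resolve_left hv, Or.inr⟩
  have hW : (W X).Finite := by
    have hK : IsCompact (Icc (-(1 / 2 : ℝ)) (1 / 2) ×ℂ Icc (-1 : ℝ) 0) := isCompact_Icc.reProdIm isCompact_Icc
    have h1 : X 1 ≠ 0 := by
      intro h0
      have := hst 1 h0
      norm_num at this
    refine (Pool.Agent.W605.SD.fin_zeros hXd h1 hK).subset ?_
    rintro b ⟨h2, h3, h4⟩
    have := abs_le.1 (hst b h2)
    exact ⟨⟨⟨this.1, this.2⟩, h3, h4⟩, h2⟩
  have hcount : ∀ c : ℝ, c < 1 → ∃ C : ℝ, 0 < C ∧ ∀ δ T : ℝ, 0 ≤ δ → 2 ≤ T → (S X δ T).Finite ∧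
      ((S X δ T).ncard : ℝ) ≤ C * T ^ (1 - c * δ) * Real.log T := by
    intro c hc
    obtain ⟨C, hC, hB⟩ := h.cls.off c hc
    refine ⟨C, hC, fun δ T hδ hT => ?_⟩
    have hd : Differentiable ℂ (fun z => Λ (1 / 2 + z)) := h.cls.diff.comp (by fun_prop)
    have hK : IsCompact (Icc (-(1 / 2 : ℝ)) (1 / 2) ×ℂ Icc (0 : ℝ) T) := isCompact_Icc.reProdIm isCompact_Icc
    have h1 : X 1 ≠ 0 := by
      intro h0
      have := hst 1 h0
      norm_num at this
    have hfin : (S X δ T).Finite := by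
      refine (Pool.Agent.W605.SD.fin_zeros hXd h1 hK).subset ?_
      rintro b ⟨h2, -, h3, h4⟩
      have := abs_le.1 (hst b h2)
      exact ⟨⟨⟨this.1, this.2⟩, h3.le, h4⟩, h2⟩
    refine ⟨hfin, le_trans ?_ (hB δ T hδ hT hfin.toFinset ?_)⟩
    · rw [Set.ncard_eq_toFinset_card _ hfin, Finset.card_eq_sum_ones, Nat.cast_sum]
      refine Finset.sum_le_sum fun b hb => ?_
      rw [Set.Finite.mem_toFinset] at hb
      have hb0 : (fun z => Λ (1 / 2 + z)) b = 0 := (hzero b).1 hb.1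
      have h2 : analyticOrderAt (fun z => Λ (1 / 2 + z)) b ≠ 0 := by
        rw [Ne, (hd.analyticAt b).analyticOrderAt_eq_zero]
        exact fun h3 => h3 hb0
      have h3 : analyticOrderAt (fun z => Λ (1 / 2 + z)) b ≠ ⊤ := by
        intro h4
        rw [analyticOrderAt_eq_top] at h4
        have h5 : AnalyticOnNhd ℂ (fun z => Λ (1 / 2 + z)) Set.univ := fun z _ => hd.analyticAt z
        have h6 := h5.eqOn_zero_of_preconnected_of_eventuallyEq_zero isPreconnected_univ (Set.mem_univ b) h4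
        exact h1 ((hzero 1).2 (h6 (Set.mem_univ 1)))
      have h4 : analyticOrderNatAt (fun z => Λ (1 / 2 + z)) b ≠ 0 := by
        intro h5
        have h6 := Nat.cast_analyticOrderNatAt h3
        rw [h5] at h6
        exact h2 h6.symm
      have h5 : 1 ≤ analyticOrderNatAt (fun z => Λ (1 / 2 + z)) b := Nat.one_le_iff_ne_zero.2 h4
      exact_mod_cast h5
    · intro s hs
      rw [Set.Finite.mem_toFinset] at hs
      exact ⟨(hzero s).1 hs.1, hs.2⟩
  obtain ⟨C, hC, hfinal⟩ := bad_all' hstr hst hW hcount hc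
  refine ⟨C, hC, fun r T hr hT => le_trans (measure_mono ?_) (hfinal r T hr hT)⟩
  rintro t ⟨h1, h2, h3⟩
  refine ⟨h1, h2, fun h4 => h3 ?_⟩
  intro x hx y hy hxy
  have h5 := h4 hx hy hxy
  have hv0 : 0 < ‖v‖ := norm_pos_iff.2 hv
  simp only [hX, norm_mul] at h5
  have h6 := lt_of_mul_lt_mul_left h5 hv0.le
  show ‖Λ (1 / 2 + x + t * I)‖ < ‖Λ (1 / 2 + y + t * I)‖
  rw [add_assoc, add_assoc]
  exact h6

end Pool.Agent.Q246.NC
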