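import Pool.Agent.Q246.NC.Off
import Pool.Agent.Q246.LB.Hdy
import Pool.Agent.Y771.NF.FinH
import Pool.Agent.TH839.UH.Aut

set_option autoImplicit false

/-!
# The final theorems for completed L-functions of the class `Cls`
-/

namespace Pool.Agent.Q246.NC

open Filter Topology Complex MeasureTheory
open Pool.Agent.Y671.GL
open Pool.Agent.Y671.LD (bad badH)
open Pool.Agent.Y693.GL (GY)
open Pool.Agent.W169.HF (heat)
open Pool.Agent.TH839.NA (PkT)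
open Pool.Agent.TH839.UH (ResD)
open Pool.Agent.Y771.NF
open scoped ComplexConjugate

/-! ### translation -/

section tr
variable {Λ X : ℂ → ℂ} {v : ℂ}

theorem iter_tr (h : ∀ z : ℂ, X z = v * Λ (1 / 2 + z)) (n : ℕ) (z : ℂ) :
    iteratedDeriv n X z = v * iteratedDeriv n Λ (1 / 2 + z) := by
  have h0 : X = fun z => v * Λ (1 / 2 + z) := funext h
  rw [h0, iteratedDeriv_const_mul_field]
  congr 1
  exact congrFun (iteratedDeriv_comp_const_add n Λ (1 / 2)) z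

theorem heat_tr (h : ∀ z : ℂ, X z = v * Λ (1 / 2 + z)) (t : ℝ) (z : ℂ) :
    heat t X z = v * heat t Λ (1 / 2 + z) := by
  unfold heat
  rw [mul_left_comm, ← MeasureTheory.integral_const_mul v]
  congr 1
  refine MeasureTheory.integral_congr_ae (Filter.Eventually.of_forall fun y => ?_)
  show _ * X _ = v * (_ * Λ _)
  rw [h]
  have e : (1 / 2 + (z + ((2 * Real.sqrt t * y : ℝ) : ℂ))) = 1 / 2 + z + ((2 * Real.sqrt t * y : ℝ) : ℂ) := by
    ring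
  rw [e]
  ring

end tr

/-! ### the analytic conductor -/

section cn
variable {θ : ℝ} {d : ℕ} {N : ℝ} {cn : ℝ → ℝ} {G Λ X : ℂ → ℂ}

theorem cn_upper (h : PkT θ d N cn G X) :
    ∃ A : ℝ, 0 ≤ A ∧ ∀ y : ℝ, Real.log (cn y) ≤ A + d * Real.log (1 + |y|) := by
  have hN := h.one_le_N
  obtain ⟨μ, L, u, e, -⟩ := h
  refine ⟨Real.log N + ∑ j, Real.log (1 + ‖μ j‖), ?_, fun y => ?_⟩
  · have : 0 ≤ ∑ j, Real.log (1 + ‖μ j‖) :=
      Finset.sum_nonneg fun j _ => Real.log_nonneg (by linarith [norm_nonneg (μ j)])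
    linarith [Real.log_nonneg hN]
  · rw [← e y]
    unfold Pool.Agent.W355.UN.cond
    have hp : ∀ j, (0 : ℝ) < 1 + ‖(y : ℂ) * I - μ j‖ := fun j => by
      linarith [norm_nonneg ((y : ℂ) * I - μ j)]
    rw [Real.log_mul (by linarith) (Finset.prod_ne_zero_iff.2 fun j _ => (hp j).ne'),
      Real.log_prod (fun j _ => (hp j).ne')]
    have h1 : ∀ j, Real.log (1 + ‖(y : ℂ) * I - μ j‖) ≤ Real.log (1 + ‖μ j‖) + Real.log (1 + |y|) := by
      intro j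
      have h2 : 0 < 1 + ‖μ j‖ := by linarith [norm_nonneg (μ j)]
      have h3 : 0 < 1 + |y| := by linarith [abs_nonneg y]
      rw [← Real.log_mul h2.ne' h3.ne']
      apply Real.log_le_log (hp j)
      have h4 : ‖(y : ℂ) * I - μ j‖ ≤ |y| + ‖μ j‖ := by
        refine (norm_sub_le _ _).trans ?_
        rw [norm_mul, norm_I, mul_one, Complex.norm_real, Real.norm_eq_abs]
      have h5 : 0 ≤ |y| * ‖μ j‖ := by positivity
      nlinarith
    calc _ ≤ Real.log N + ∑ j, (Real.log (1 + ‖μ j‖) + Real.log (1 + |y|)) := by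
          gcongr with j
          exact h1 j
      _ = _ := by
          rw [Finset.sum_add_distrib, Finset.sum_const, Finset.card_univ, Fintype.card_fin, nsmul_eq_mul]
          ring

theorem cn_lower (h : PkT θ d N cn G X) :
    ∃ T0 : ℝ, 2 ≤ T0 ∧ ∀ y : ℝ, T0 ≤ y → Real.log y / 2 ≤ Real.log (cn y) := by
  have hN := h.one_le_N
  have hd := h.one_le_d
  obtain ⟨μ, L, u, e, -⟩ := h
  obtain ⟨j0⟩ : Nonempty (Fin d) := ⟨⟨0, by omega⟩⟩
  refine ⟨max 4 (2 * ‖μ j0‖), le_trans (by norm_num) (le_max_left _ _), fun y hy => ?_⟩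
  have hy4 : 4 ≤ y := (le_max_left _ _).trans hy
  have hyμ : 2 * ‖μ j0‖ ≤ y := (le_max_right _ _).trans hy
  have h1 : y / 2 ≤ ‖(y : ℂ) * I - μ j0‖ := by
    have h2 : ‖(y : ℂ) * I‖ - ‖μ j0‖ ≤ ‖(y : ℂ) * I - μ j0‖ := norm_sub_norm_le _ _
    rw [norm_mul, norm_I, mul_one, Complex.norm_real, Real.norm_eq_abs, abs_of_nonneg (by linarith)] at h2
    linarith
  have h2 : y / 2 ≤ cn y := by
    rw [← e y]
    unfold Pool.Agent.W355.UN.cond
    have h3 : 1 + ‖(y : ℂ) * I - μ j0‖ ≤ ∏ j, (1 + ‖(y : ℂ) * I - μ j‖) := by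
      rw [← Finset.mul_prod_erase Finset.univ _ (Finset.mem_univ j0)]
      have h4 : 1 ≤ ∏ j ∈ Finset.univ.erase j0, (1 + ‖(y : ℂ) * I - μ j‖) := by
        refine Finset.prod_induction _ (fun x => (1 : ℝ) ≤ x) (fun a b ha hb => ?_) le_rfl fun j _ => ?_
        · nlinarith
        · linarith [norm_nonneg ((y : ℂ) * I - μ j)]
      have h5 : 0 ≤ 1 + ‖(y : ℂ) * I - μ j0‖ := by positivity
      nlinarith
    have h6 : 0 ≤ ‖(y : ℂ) * I - μ j0‖ := norm_nonneg _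
    nlinarith
  have h3 : Real.log (y / 2) ≤ Real.log (cn y) := Real.log_le_log (by linarith) h2
  have h4 : Real.log y / 2 ≤ Real.log (y / 2) := by
    rw [Real.log_div (by linarith) (by norm_num)]
    have h5 : Real.log 4 ≤ Real.log y := Real.log_le_log (by norm_num) hy4
    have h6 : Real.log 4 = 2 * Real.log 2 := by
      rw [show (4 : ℝ) = 2 ^ 2 by norm_num, Real.log_pow]
      norm_num
    linarith
  linarith

theorem low_ofR {C : ℝ} (hC : 0 < C) {v : ℂ} (hv : v ≠ 0) (hX : ∀ z : ℂ, X z = v * Λ (1 / 2 + z))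
    (h0 : heat 0 Λ = Λ) (hP : PkT θ d N cn G Λ) (hR : ResD C d N cn Λ) : LowX X := by
  obtain ⟨A, hA, hup⟩ := cn_upper hP
  have hd : (1 : ℝ) ≤ d := by exact_mod_cast hP.one_le_d
  obtain ⟨N0, hN0⟩ := exists_nat_ge (2 * C * (d + A + d))
  refine ⟨2 * C * d, by positivity, N0, ?_⟩
  intro n hn s hs hbad
  have hnN : 2 * C * (d + A + d) ≤ n := hN0.trans (by exact_mod_cast hn)
  have hlog : Real.log (1 + |s.im|) ≤ 1 + n / (2 * C * d) := by
    have h1 : 1 ≤ Real.exp (n / (2 * C * d)) := Real.one_le_exp (by positivity)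
    have h2 : (2 : ℝ) ≤ Real.exp 1 := by
      have := Real.add_one_le_exp (1 : ℝ)
      linarith
    have h3 : 1 + |s.im| ≤ Real.exp (1 + n / (2 * C * d)) := by
      rw [Real.exp_add]
      nlinarith
    calc Real.log (1 + |s.im|) ≤ Real.log (Real.exp (1 + n / (2 * C * d))) :=
          Real.log_le_log (by positivity) h3
      _ = _ := Real.log_exp _
  have h2 : C * (d + Real.log (cn s.im)) ≤ n := by
    have h3 : C * (d + Real.log (cn s.im)) ≤ C * (d + (A + d * (1 + n / (2 * C * d)))) := by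
      have := hup s.im
      gcongr
      refine this.trans ?_
      gcongr
    refine h3.trans ?_
    have h4 : C * (d + (A + d * (1 + n / (2 * C * d)))) = C * (d + A + d) + n / 2 := by
      field_simp
      ring
    rw [h4]
    linarith
  obtain ⟨b1, b2⟩ := hbad
  have him : (1 / 2 + s : ℂ).im = s.im := by simp
  have h3 := hR.loc n 0 (1 / 2 + s) le_rfl (by rw [him, zero_mul, add_zero]; exact h2)
  rw [h0] at h3
  rw [iter_tr hX] at b1
  have h4 := h3 ((mul_eq_zero.1 b1).resolve_left hv)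
  rcases b2 with b2 | b2
  · apply b2
    have := h4.1
    have e : (1 / 2 + s : ℂ).re = 1 / 2 + s.re := by simp
    rw [e] at this
    linarith
  · rw [iter_tr hX] at b2
    exact h4.2 ((mul_eq_zero.1 b2).resolve_left hv)

theorem huge_ofR {C : ℝ} (hC : 0 < C) {v : ℂ} (hv : v ≠ 0) (hX : ∀ z : ℂ, X z = v * Λ (1 / 2 + z))
    (hP : PkT θ d N cn G Λ) (hR : ResD C d N cn Λ) : HugeX X := by
  obtain ⟨T0, hT0, hlow⟩ := cn_lower hP
  refine ⟨max 1 (2 * C), T0, le_max_left _ _, hT0, ?_⟩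
  intro t τ s ht hτ hτ8 hX0 hst hbad
  have him : (1 / 2 + s : ℂ).im = t := by simp [hst]
  have hd : (1 : ℝ) ≤ d := by exact_mod_cast hP.one_le_d
  have h1 := hlow t ht
  have hl : 0 ≤ Real.log t := Real.log_nonneg (by linarith)
  have h2 : C ≤ τ * (d + Real.log (cn t)) := by
    have h3 : 2 * C ≤ τ * Real.log t := (le_max_right _ _).trans hX0
    have h4 : τ * (Real.log t / 2) ≤ τ * (d + Real.log (cn t)) := by
      gcongr
      linarith
    linarith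
  have hl0 : 0 ≤ (d : ℝ) + Real.log (cn t) := by linarith
  have h3 := hR.loc 0 τ (1 / 2 + s) hτ.le (by
    rw [him]
    push_cast
    nlinarith)
  obtain ⟨b1, b2⟩ := hbad
  have hh : heat τ X = fun z => v * heat τ Λ (1 / 2 + z) := funext fun z => heat_tr hX τ z
  have b1' : heat τ X s = 0 := b1
  rw [hh] at b1'
  have h5 := h3 (by rw [iteratedDeriv_zero]; exact (mul_eq_zero.1 b1').resolve_left hv)
  rcases b2 with b2 | b2
  · apply b2
    have := h5.1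
    have e : (1 / 2 + s : ℂ).re = 1 / 2 + s.re := by simp
    rw [e] at this
    linarith
  · have b3 : deriv (heat τ X) s = 0 := b2
    rw [← iteratedDeriv_one, iter_tr (X := heat τ X) (Λ := heat τ Λ) (v := v) (fun z => heat_tr hX τ z)] at b3
    exact h5.2 ((mul_eq_zero.1 b3).resolve_left hv)

end cn

/-! ### The class with the localisation -/

/-- everything that is used -/
structure Full (κ : ℝ) (Λ : ℂ → ℂ) : Prop where
  cls : Cls κ Λ
  pk : ∃ (θ : ℝ) (d : ℕ) (N : ℝ) (cn : ℝ → ℝ) (G : ℂ → ℂ), θ ≤ 1 ∧ PkT θ d N cn G Λ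

/-- the data for the function `X(z) = v Λ(1/2 + z)` -/
theorem Full.data {κ : ℝ} {Λ : ℂ → ℂ} (h : Full κ Λ) : ∃ (v : ℂ) (H X Z : ℂ → ℂ), v ≠ 0 ∧
    (∀ z, X z = v * Λ (1 / 2 + z)) ∧ GY κ H X Z ∧ (∀ s : ℂ, X s = 0 → |s.re| ≤ 1 / 2) ∧ AppX X ∧ LowX X ∧
    HugeX X ∧ (∀ τ : ℝ, 0 ≤ τ → Differentiable ℂ (heat τ X)) ∧
    (∀ (τ : ℝ) (s : ℂ), 0 ≤ τ → heat τ X s = 0 → |s.re| ≤ 1 / 2) := by
  obtain ⟨v, H, Z, hv, g⟩ := h.cls.gy
  obtain ⟨X, hXe⟩ : ∃ X : ℂ → ℂ, X = fun z => v * Λ (1 / 2 + z) := ⟨_, rfl⟩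
  rw [← hXe] at g
  have hX : ∀ z, X z = v * Λ (1 / 2 + z) := fun z => congrFun hXe z
  have hst : ∀ s : ℂ, X s = 0 → |s.re| ≤ 1 / 2 := fun s hs => by
    rw [hX] at hs
    exact h.cls.strip s ((mul_eq_zero.1 hs).resolve_left hv)
  obtain ⟨K0, hK0, hslow⟩ := g.cg.slow
  have hne : ∃ z, X z ≠ 0 := by
    refine ⟨1, fun h0 => ?_⟩
    have := hst 1 h0
    norm_num at this
  obtain ⟨g0, g1, -, g2, -⟩ := Pool.Agent.Y275.GL.hht X (slow_of g.cg.cf.diff hK0 hslow) g.cg.cf.symm hne hst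
  obtain ⟨θ, d, N, cn, G, hθ, hP⟩ := h.pk
  obtain ⟨C, hC, hfin⟩ := Pool.Agent.TH839.UH.finD
  have hR := hfin θ d N cn G Λ hP hθ
  have hheat : heat 0 Λ = Λ := by
    funext s
    have h1 := heat_tr hX 0 (s - 1 / 2)
    rw [g0, hX] at h1
    have h2 := mul_left_cancel₀ hv h1
    have e : (1 / 2 + (s - 1 / 2) : ℂ) = s := by ring
    rw [e] at h2
    exact h2.symm
  refine ⟨v, H, X, Z, hv, hX, g, hst, ?_, low_ofR hC hv hX hheat hP hR, huge_ofR hC hv hX hP hR, g1, g2⟩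
  exact Pool.Agent.Y275.GL.had1 _ g.cg.cf.diff g.cg.cf.symm hne ⟨K0, hK0, hslow⟩ hst

theorem Full.mul {κ κ' : ℝ} {Λ Λ' : ℂ → ℂ} (h : Full κ Λ) (h' : Full κ' Λ') :
    Full (κ + κ') (fun s => Λ s * Λ' s) := by
  refine ⟨h.cls.mul h'.cls, ?_⟩
  obtain ⟨θ, d, N, cn, G, hθ, hP⟩ := h.pk
  obtain ⟨θ', d', N', cn', G', hθ', hP'⟩ := h'.pk
  exact ⟨max θ θ', _, _, _, _, max_le hθ hθ', (hP.mono (le_max_left _ _)).mul (hP'.mono (le_max_right _ _))⟩

/-- **Derivatives.** -/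
theorem Full.derivs {κ : ℝ} {Λ : ℂ → ℂ} (h : Full κ Λ) (G : ℂ → ℂ) (hG : ∀ z, G z = Λ (1 / 2 + I * z)) :
    (∀ (n : ℕ) (T : ℝ), (Cnt.ZerD G n T).Finite) ∧
    ∃ c C : ℝ, 0 < c ∧ 0 < C ∧
      (∀ (n : ℕ) (T : ℝ), (Cnt.num (iteratedDeriv n G) (Cnt.ExcD G n T) : ℝ) ≤
        C * Real.exp (-(c * n)) * Cnt.num (iteratedDeriv n G) (Cnt.ZerD G n T)) ∧
      (∀ (n : ℕ) (T : ℝ), 2 ≤ T → (Cnt.num (iteratedDeriv n G) (Cnt.ExcD G n T) : ℝ) ≤
        C * Real.exp (-(c * n)) * T * Real.log T) := by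
  obtain ⟨v, H, X, Z, hv, hX, g, hst, hA, hL, hH, -, -⟩ := h.data
  refine Cnt.main_d (X := X) (inv_ne_zero hv) (fun z => ?_) g.cg.cf.diff hA
    (Pool.Agent.Y693.GL.ddy Pool.Agent.Y412.GL.HSZ.hsz κ H X Z h.cls.half g hA hL) hL
    (Pool.Agent.Y423.GL.totd κ H _ Z h.cls.half g.cg hA)
  rw [hG, hX, inv_mul_cancel_left₀ hv]

/-- **The heat flow.** -/
theorem Full.flow {κ : ℝ} {Λ : ℂ → ℂ} (h : Full κ Λ) (G : ℝ → ℂ → ℂ)
    (hG : ∀ (τ : ℝ) (z : ℂ), G τ z = heat τ Λ (1 / 2 + I * z)) :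
    (∀ t T : ℝ, 0 ≤ t → (Cnt.ZerH (G t) T).Finite) ∧
    ∃ c C : ℝ, 0 < c ∧ 0 < C ∧ ∀ t T : ℝ, 0 < t → t ≤ 1 / 8 → 2 ≤ T →
      (Cnt.num (G t) (Cnt.ExcH (G t) T) : ℝ) ≤
        C * Real.exp (-(c * t * Real.log T ^ 2)) * Cnt.num (G t) (Cnt.ZerH (G t) T) ∧
      (Cnt.num (G t) (Cnt.ExcH (G t) T) : ℝ) ≤ C * Real.exp (-(c * t * Real.log T ^ 2)) * T * Real.log T := by
  obtain ⟨v, H, X, Z, hv, hX, g, hst, hA, hL, hH, g1, g2⟩ := h.data
  refine Cnt.main_h (X := X) (inv_ne_zero hv) (fun τ _ z => ?_) g1 g2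
    (Pool.Agent.Q246.LB.hdy Pool.Agent.Y412.GL.HSZ.hsz Pool.Agent.Y275.GL.hht κ H X Z h.cls.half g hst hH) hH
    (Pool.Agent.Y67.GL.toth κ H _ Z h.cls.half g.cg hst)
  rw [hG, heat_tr hX, inv_mul_cancel_left₀ hv]

/-- **Zero density.** -/
theorem Full.off {κ : ℝ} {Λ : ℂ → ℂ} (h : Full κ Λ) (G : ℂ → ℂ) (hG : ∀ z, G z = Λ (1 / 2 + I * z))
    {c : ℝ} (hc : c < 1) : ∃ C : ℝ, 0 < C ∧ ∀ d T : ℝ, 0 ≤ d → 2 ≤ T →
      (OffD G d T).Finite ∧ (Cnt.num G (OffD G d T) : ℝ) ≤ C * T ^ (1 - c * d) * Real.log T := by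
  have hd : Differentiable ℂ (fun z => Λ (1 / 2 + z)) := h.cls.diff.comp (by fun_prop)
  have hGX : ∀ z, G z = 1 * (fun z => Λ (1 / 2 + z)) (I * z) := fun z => by rw [hG, one_mul]
  have hst : ∀ s : ℂ, (fun z => Λ (1 / 2 + z)) s = 0 → |s.re| ≤ 1 / 2 := fun s hs => h.cls.strip s hs
  have hfin : ∀ d T : ℝ, (OffD G d T).Finite := fun d T =>
    (Cnt.fin_rot one_ne_zero hd hGX hst 0 T).subset fun z hz => ⟨hz.1, hz.2.2.1.le, hz.2.2.2⟩
  obtain ⟨C, hC, hB⟩ := h.cls.off c hc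
  refine ⟨C, hC, fun d T hd0 hT => ⟨hfin d T, ?_⟩⟩
  refine Cnt.num_le one_ne_zero hd hGX (hfin d T)
    (P := fun w => (fun z => Λ (1 / 2 + z)) w = 0 ∧ d ≤ |w.re| ∧ 0 < w.im ∧ w.im ≤ T) ?_ (hB d T hd0 hT)
  rintro z ⟨h1, h2, h3, h4⟩
  rw [hGX z, one_mul] at h1
  refine ⟨h1, ?_, ?_, ?_⟩
  · rw [Cnt.rot_re, abs_neg]
    exact h2
  · rw [Cnt.rot_im]
    exact h3
  · rw [Cnt.rot_im]
    exact h4

end Pool.Agent.Q246.NC
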