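import Pool.Agent.Q246.NC.Fin

set_option autoImplicit false

/-!
# The final theorems in terms of `Λ`
-/

namespace Pool.Agent.Q246.NC

open Filter Topology Complex MeasureTheory
open Pool.Agent.W169.HF (heat)
open Pool.Agent.Y771.NF
open scoped ComplexConjugate

/-- `z ↦ 1/2 + i z` -/
noncomputable def phi (z : ℂ) : ℂ := 1 / 2 + I * z

theorem phi_inj : Function.Injective phi := by
  intro a b hab
  exact mul_left_cancel₀ I_ne_zero (add_left_cancel hab)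

theorem phi_re (z : ℂ) : (phi z).re = 1 / 2 - z.im := by simp [phi, sub_eq_add_neg]

theorem phi_im (z : ℂ) : (phi z).im = z.re := by simp [phi]

/-- the inverse -/
noncomputable def psi (s : ℂ) : ℂ := -I * (s - 1 / 2)

theorem phi_psi (s : ℂ) : phi (psi s) = s := by
  have h : I * I = -1 := I_mul_I
  unfold phi psi
  linear_combination -(s - 1 / 2) * h

theorem psi_re (s : ℂ) : (psi s).re = s.im := by rw [← phi_im, phi_psi]

theorem psi_im (s : ℂ) : (psi s).im = 1 / 2 - s.re := by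
  have h := phi_re (psi s)
  rw [phi_psi] at h
  linarith

theorem mem_img {A : Set ℂ} {s : ℂ} : s ∈ phi '' A ↔ psi s ∈ A := by
  constructor
  · rintro ⟨z, hz, rfl⟩
    have h : psi (phi z) = z := phi_inj (phi_psi _)
    rwa [h]
  · intro h
    exact ⟨psi s, h, phi_psi s⟩

theorem order_phi {F g : ℂ → ℂ} {v : ℂ} (hv : v ≠ 0) (hF : Differentiable ℂ F) (hg : ∀ z, g z = v * F (phi z))
    (z : ℂ) : analyticOrderNatAt g z = analyticOrderNatAt F (phi z) := by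
  have h1 : g = (fun _ => v) * (F ∘ phi) := by
    funext z
    rw [hg z]
    rfl
  have hp : AnalyticAt ℂ phi z := by
    unfold phi
    fun_prop
  have hp' : deriv phi z ≠ 0 := by
    have h2 : phi = fun z => 1 / 2 + I * z := rfl
    rw [h2, deriv_const_add, deriv_const_mul _ differentiableAt_id]
    simp
  have h2 : analyticOrderAt (F ∘ phi) z = analyticOrderAt F (phi z) :=
    analyticOrderAt_comp_of_deriv_ne_zero hp hp'
  have h3 : analyticOrderAt (fun _ : ℂ => v) z = 0 := by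
    rw [AnalyticAt.analyticOrderAt_eq_zero analyticAt_const]
    exact hv
  have h4 : analyticOrderAt g z = analyticOrderAt F (phi z) := by
    rw [h1, analyticOrderAt_mul analyticAt_const ((hF.analyticAt _).comp hp), h2, h3, zero_add]
  unfold analyticOrderNatAt
  rw [h4]

/-- number of points of `A`, with multiplicities as zeros of `F` -/
noncomputable def numL (F : ℂ → ℂ) (A : Set ℂ) : ℕ := ∑ᶠ s ∈ A, analyticOrderNatAt F s

theorem num_phi {F g : ℂ → ℂ} {v : ℂ} (hv : v ≠ 0) (hF : Differentiable ℂ F) (hg : ∀ z, g z = v * F (phi z))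
    (A : Set ℂ) : numL F (phi '' A) = Cnt.num g A := by
  unfold numL Cnt.num
  rw [finsum_mem_image (phi_inj.injOn)]
  exact finsum_congr fun z => by rw [order_phi hv hF hg]

theorem iter_phi {Λ : ℂ → ℂ} (hΛ : Differentiable ℂ Λ) (n : ℕ) (z : ℂ) :
    iteratedDeriv n (fun z => Λ (phi z)) z = I ^ n * iteratedDeriv n Λ (phi z) := by
  have e : (fun z => Λ (phi z)) = fun z => (fun w => Λ (1 / 2 + w)) (I * z) := rfl
  have hd : Differentiable ℂ (fun w => Λ (1 / 2 + w)) := hΛ.comp (by fun_prop)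
  rw [e]
  have h3 := congrFun (iteratedDeriv_comp_const_mul (n := n) (f := fun w => Λ (1 / 2 + w)) hd.contDiff I) z
  rw [h3]
  congr 1
  exact congrFun (iteratedDeriv_comp_const_add n Λ (1 / 2)) (I * z)

/-- The zeros of the `n`-th derivative of `Λ` with imaginary part in `(0, T]`. -/
def ZL (Λ : ℂ → ℂ) (n : ℕ) (T : ℝ) : Set ℂ := {s | iteratedDeriv n Λ s = 0 ∧ 0 < s.im ∧ s.im ≤ T}

/-- Those off the line `Re s = 1/2` or multiple. -/
def EL (Λ : ℂ → ℂ) (n : ℕ) (T : ℝ) : Set ℂ :=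
  {s | s ∈ ZL Λ n T ∧ (s.re ≠ 1 / 2 ∨ iteratedDeriv (n + 1) Λ s = 0)}

theorem Full.derivsL {κ : ℝ} {Λ : ℂ → ℂ} (h : Full κ Λ) :
    (∀ (n : ℕ) (T : ℝ), (ZL Λ n T).Finite) ∧
    ∃ c C : ℝ, 0 < c ∧ 0 < C ∧
      (∀ (n : ℕ) (T : ℝ), (numL (iteratedDeriv n Λ) (EL Λ n T) : ℝ) ≤
        C * Real.exp (-(c * n)) * numL (iteratedDeriv n Λ) (ZL Λ n T)) ∧
      (∀ (n : ℕ) (T : ℝ), 2 ≤ T → (numL (iteratedDeriv n Λ) (EL Λ n T) : ℝ) ≤
        C * Real.exp (-(c * n)) * T * Real.log T) := by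
  have hΛ := h.cls.diff
  obtain ⟨G, hG⟩ : ∃ G : ℂ → ℂ, G = fun z => Λ (phi z) := ⟨_, rfl⟩
  have hder : ∀ (n : ℕ) (z : ℂ), iteratedDeriv n G z = I ^ n * iteratedDeriv n Λ (phi z) := fun n z => by
    rw [hG, iter_phi hΛ]
  have hI : ∀ n : ℕ, (I : ℂ) ^ n ≠ 0 := fun n => pow_ne_zero n I_ne_zero
  have hΛn : ∀ n, Differentiable ℂ (iteratedDeriv n Λ) := fun n =>
    Pool.Agent.H24R2.JP.ParCircAux.diff_iter hΛ n
  have hz : ∀ (n : ℕ) (z : ℂ), iteratedDeriv n G z = 0 ↔ iteratedDeriv n Λ (phi z) = 0 := fun n z => by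
    rw [hder, mul_eq_zero]
    exact ⟨fun h => h.resolve_left (hI n), Or.inr⟩
  have hZ : ∀ (n : ℕ) (T : ℝ), ZL Λ n T = phi '' Cnt.ZerD G n T := by
    intro n T
    ext s
    rw [mem_img]
    show _ ↔ iteratedDeriv n G (psi s) = 0 ∧ 0 < (psi s).re ∧ (psi s).re ≤ T
    rw [hz, phi_psi, psi_re]
    rfl
  have hE : ∀ (n : ℕ) (T : ℝ), EL Λ n T = phi '' Cnt.ExcD G n T := by
    intro n T
    ext s
    rw [mem_img]
    show (s ∈ ZL Λ n T ∧ _) ↔ (psi s ∈ Cnt.ZerD G n T ∧ ((psi s).im ≠ 0 ∨ iteratedDeriv (n + 1) G (psi s) = 0))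
    rw [hZ, mem_img, hz, phi_psi, psi_im]
    have e : (1 / 2 - s.re ≠ 0) ↔ (s.re ≠ 1 / 2) := by
      rw [Ne, Ne, sub_eq_zero]
      exact not_congr eq_comm
    rw [e]
  obtain ⟨h1, c, C, hc, hC, h2, h3⟩ := h.derivs G (fun z => by rw [hG]; rfl)
  refine ⟨fun n T => ?_, c, C, hc, hC, fun n T => ?_, fun n T hT => ?_⟩
  · rw [hZ]
    exact (h1 n T).image _
  · rw [hZ, hE, num_phi (hI n) (hΛn n) (hder n), num_phi (hI n) (hΛn n) (hder n)]
    exact h2 n T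
  · rw [hE, num_phi (hI n) (hΛn n) (hder n)]
    exact h3 n T hT

/-- The zeros of `F` with imaginary part in `(T, 2T]`. -/
def ZH (F : ℂ → ℂ) (T : ℝ) : Set ℂ := {s | F s = 0 ∧ T < s.im ∧ s.im ≤ 2 * T}

/-- Those off the line `Re s = 1/2` or multiple. -/
def EH (F : ℂ → ℂ) (T : ℝ) : Set ℂ := {s | s ∈ ZH F T ∧ (s.re ≠ 1 / 2 ∨ deriv F s = 0)}

theorem Full.heat_diff {κ : ℝ} {Λ : ℂ → ℂ} (h : Full κ Λ) {t : ℝ} (ht : 0 ≤ t) : Differentiable ℂ (heat t Λ) := by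
  obtain ⟨v, H, X, Z, hv, hX, g, hst, hA, hL, hH, g1, g2⟩ := h.data
  have h1 := g1 t ht
  have h2 : heat t Λ = fun s => v⁻¹ * heat t X (s - 1 / 2) := by
    funext s
    rw [heat_tr hX, inv_mul_cancel_left₀ hv]
    congr 1
    ring
  rw [h2]
  exact (h1.comp (by fun_prop)).const_mul _

theorem Full.flowL {κ : ℝ} {Λ : ℂ → ℂ} (h : Full κ Λ) :
    (∀ t T : ℝ, 0 ≤ t → (ZH (heat t Λ) T).Finite) ∧
    ∃ c C : ℝ, 0 < c ∧ 0 < C ∧ ∀ t T : ℝ, 0 < t → t ≤ 1 / 8 → 2 ≤ T →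
      (numL (heat t Λ) (EH (heat t Λ) T) : ℝ) ≤
        C * Real.exp (-(c * t * Real.log T ^ 2)) * numL (heat t Λ) (ZH (heat t Λ) T) ∧
      (numL (heat t Λ) (EH (heat t Λ) T) : ℝ) ≤ C * Real.exp (-(c * t * Real.log T ^ 2)) * T * Real.log T := by
  obtain ⟨G, hG⟩ : ∃ G : ℝ → ℂ → ℂ, G = fun t z => heat t Λ (phi z) := ⟨_, rfl⟩
  have hg : ∀ (t : ℝ) (z : ℂ), G t z = 1 * heat t Λ (phi z) := fun t z => by rw [hG, one_mul]
  have hg' : ∀ (t : ℝ) (z : ℂ), G t z = heat t Λ (phi z) := fun t z => by rw [hG]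
  have hder : ∀ (t : ℝ), 0 ≤ t → ∀ z : ℂ, deriv (G t) z = 0 ↔ deriv (heat t Λ) (phi z) = 0 := by
    intro t ht z
    have h1 := iter_phi (h.heat_diff ht) 1 z
    have h2 : (fun z => heat t Λ (phi z)) = G t := by rw [hG]
    rw [h2, iteratedDeriv_one, iteratedDeriv_one, pow_one] at h1
    rw [h1, mul_eq_zero]
    exact ⟨fun h => h.resolve_left I_ne_zero, Or.inr⟩
  have hZ : ∀ (t T : ℝ), ZH (heat t Λ) T = phi '' Cnt.ZerH (G t) T := by
    intro t T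
    ext s
    rw [mem_img]
    show _ ↔ G t (psi s) = 0 ∧ T < (psi s).re ∧ (psi s).re ≤ 2 * T
    rw [hg', phi_psi, psi_re]
    rfl
  have hE : ∀ (t T : ℝ), 0 ≤ t → EH (heat t Λ) T = phi '' Cnt.ExcH (G t) T := by
    intro t T ht
    ext s
    rw [mem_img]
    show (s ∈ ZH (heat t Λ) T ∧ _) ↔ (psi s ∈ Cnt.ZerH (G t) T ∧ ((psi s).im ≠ 0 ∨ deriv (G t) (psi s) = 0))
    rw [hZ, mem_img, hder t ht, phi_psi, psi_im]
    have e : (1 / 2 - s.re ≠ 0) ↔ (s.re ≠ 1 / 2) := by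
      rw [Ne, Ne, sub_eq_zero]
      exact not_congr eq_comm
    rw [e]
  obtain ⟨h1, c, C, hc, hC, h2⟩ := h.flow G (fun t z => by rw [hG]; rfl)
  refine ⟨fun t T ht => ?_, c, C, hc, hC, fun t T ht ht8 hT => ?_⟩
  · rw [hZ]
    exact (h1 t T ht).image _
  · rw [hZ, hE t T ht.le, num_phi one_ne_zero (h.heat_diff ht.le) (hg t),
      num_phi one_ne_zero (h.heat_diff ht.le) (hg t)]
    exact h2 t T ht ht8 hT

/-- The zeros of `Λ` with imaginary part in `(0, T]` and distance at least `d` from the line `Re s = 1/2`. -/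
def OL (Λ : ℂ → ℂ) (d T : ℝ) : Set ℂ := {s | Λ s = 0 ∧ d ≤ |s.re - 1 / 2| ∧ 0 < s.im ∧ s.im ≤ T}

theorem Full.offL {κ : ℝ} {Λ : ℂ → ℂ} (h : Full κ Λ) {c : ℝ} (hc : c < 1) :
    ∃ C : ℝ, 0 < C ∧ ∀ d T : ℝ, 0 ≤ d → 2 ≤ T →
      (OL Λ d T).Finite ∧ (numL Λ (OL Λ d T) : ℝ) ≤ C * T ^ (1 - c * d) * Real.log T := by
  obtain ⟨G, hG⟩ : ∃ G : ℂ → ℂ, G = fun z => Λ (phi z) := ⟨_, rfl⟩
  have hg : ∀ z : ℂ, G z = 1 * Λ (phi z) := fun z => by rw [hG, one_mul]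
  have hg' : ∀ z : ℂ, G z = Λ (phi z) := fun z => by rw [hG]
  have hO : ∀ d T : ℝ, OL Λ d T = phi '' OffD G d T := by
    intro d T
    ext s
    rw [mem_img]
    show _ ↔ G (psi s) = 0 ∧ d ≤ |(psi s).im| ∧ 0 < (psi s).re ∧ (psi s).re ≤ T
    rw [hg', phi_psi, psi_re, psi_im, abs_sub_comm]
    rfl
  obtain ⟨C, hC, h1⟩ := h.off G (fun z => by rw [hG]; rfl) hc
  refine ⟨C, hC, fun d T hd hT => ?_⟩
  obtain ⟨h2, h3⟩ := h1 d T hd hT
  rw [hO, num_phi one_ne_zero h.cls.diff hg]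
  exact ⟨h2.image _, h3⟩

end Pool.Agent.Q246.NC
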