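import Pool.Agent.Q246.NC.Fin2
import Pool.Agent.Y22.RX2

set_option autoImplicit false

/-!
# Growth of the completed L-functions away from the critical line
-/

namespace Pool.Agent.Q246.NC

open Complex Filter Topology Polynomial Metric Pool.Agent.Helper242.KK Pool.Agent.H24R2.JP
open Pool.Agent.Y275.GL (base1 pow_exp lim1)

theorem had_main' {f : ℂ → ℂ} (hf : Differentiable ℂ f) (h0 : f 0 ≠ 0)
    (hsym : ∀ x, f ((starRingEnd ℂ) x) = (starRingEnd ℂ) (f x)) {K : ℝ} (hK : 0 ≤ K)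
    (hb : ∀ w, ‖f w‖ ≤ Real.exp (K * (1 + ‖w‖) ^ (3 / 2 : ℝ))) (N : ℕ) :
    ∃ (Q : ℂ[X]) (L : ℂ → ℂ), (∀ w, Q.IsRoot w → f w = 0 ∨ w.im = 0) ∧
      (∀ w, ‖Q.eval ((starRingEnd ℂ) w)‖ = ‖Q.eval w‖) ∧
      ∀ w : ℂ, ‖w‖ < ((N : ℝ) + 1) / 2 → f w = Q.eval w * cexp (L w) ∧
        ‖L w‖ ≤ 16 * (K * (1 + 2 * ((N : ℝ) + 1)) ^ (3 / 2 : ℝ) + |Real.log ‖f 0‖|) *
          (‖w‖ / ((N : ℝ) + 1)) ^ 2 + 1 / ((N : ℝ) + 1) := by
  have hρ : 0 < (N : ℝ) + 1 := by positivity
  obtain ⟨n, hn⟩ := exists_nat_ge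
    (∑ᶠ u, (MeromorphicOn.divisor f (closedBall 0 ((N : ℝ) + 1)) u : ℝ) * 1)
  obtain ⟨P, G, hG, hG0, hGb, hFG, hnz⟩ := had_split (M := K * (1 + 2 * ((N : ℝ) + 1)) ^
    (3 / 2 : ℝ)) hρ n f hf h0 hsym (fun w hw => by
      refine (hb w).trans (Real.exp_le_exp.2 (mul_le_mul_of_nonneg_left ?_ hK))
      have hw' : ‖w‖ ≤ 2 * ((N : ℝ) + 1) := by simpa using hw
      exact Real.rpow_le_rpow (by positivity) (by linarith) (by norm_num)) hn
  obtain ⟨hA, E, hE⟩ := base1 hG hρ (fun u hu => hnz u (ball_subset_closedBall hu))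
    (fun w hw => hGb w (ball_subset_closedBall (ball_subset_ball (by linarith) hw)))
  -- symmetry of `G`
  have hP0 : P ≠ 0 := by
    rintro rfl
    have := hFG 0
    rw [map_zero, zero_mul] at this
    exact h0 this
  have hGs : ∀ x, G ((starRingEnd ℂ) x) = (starRingEnd ℂ) (G x) := by
    refine had_symm (q := fun w => aeval w P) hG.continuous hFG hsym
      (fun x => Polynomial.aeval_conj P x) ?_
    refine ((dense_univ (X := ℂ)).sdiff_finite
      ((P.map (algebraMap ℝ ℂ)).roots.toFinset.finite_toSet)).mono ?_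
    intro w hw h
    apply hw.2
    rw [Finset.mem_coe, Multiset.mem_toFinset, Polynomial.mem_roots
      ((Polynomial.map_ne_zero_iff (algebraMap ℝ ℂ).injective).2 hP0), Polynomial.IsRoot.def,
      Polynomial.eval_map_algebraMap]
    exact h
  have hG00 : (starRingEnd ℂ) (G 0) = G 0 := by
    rw [← hGs, map_zero]
  have hG0' : (starRingEnd ℂ) (deriv G 0) = deriv G 0 := by
    have h1 := (hG 0).hasDerivAt.conj_conj
    have h2 : ((starRingEnd ℂ) ∘ G ∘ (starRingEnd ℂ)) = G := by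
      funext x
      simp only [Function.comp_apply]
      rw [hGs, Complex.conj_conj]
    rw [h2, map_zero] at h1
    exact h1.deriv.symm
  obtain ⟨b, hbb⟩ : ∃ b : ℝ, (b : ℂ) = deriv G 0 / G 0 := by
    refine ⟨(deriv G 0 / G 0).re, ?_⟩
    apply Complex.conj_eq_iff_re.1
    rw [map_div₀, hG0', hG00]
  -- the number of factors
  obtain ⟨m, hm⟩ : ∃ m : ℕ, |b| * ((N : ℝ) + 1) + (|b| * ((N : ℝ) + 1)) ^ 2 * ((N : ℝ) + 1) + 1 ≤ m :=
    exists_nat_ge _
  have hB0 : 0 ≤ |b| * ((N : ℝ) + 1) := by positivity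
  have hB1 : 0 ≤ (|b| * ((N : ℝ) + 1)) ^ 2 * ((N : ℝ) + 1) := by positivity
  have hm0 : (0 : ℝ) < m := by linarith
  have hmn : 0 < m := by exact_mod_cast hm0
  have hδ : ∀ w : ℂ, ‖w‖ < ((N : ℝ) + 1) / 2 → ∃ δ : ℂ,
      (1 + ((b : ℂ) * w) / m) ^ m = cexp ((b : ℂ) * w + δ) ∧ ‖δ‖ ≤ 1 / ((N : ℝ) + 1) := by
    intro w hw
    have h1 : ‖(b : ℂ) * w‖ ≤ |b| * ((N : ℝ) + 1) / 2 := by
      rw [norm_mul, Complex.norm_real, Real.norm_eq_abs]
      calc |b| * ‖w‖ ≤ |b| * (((N : ℝ) + 1) / 2) := mul_le_mul_of_nonneg_left hw.le (abs_nonneg _)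
        _ = |b| * ((N : ℝ) + 1) / 2 := by ring
    obtain ⟨δ, h2, h3⟩ := pow_exp (z := (b : ℂ) * w) hmn (by linarith)
    refine ⟨δ, h2, h3.trans ?_⟩
    rw [div_le_div_iff₀ hm0 hρ]
    have h4 : ‖(b : ℂ) * w‖ ^ 2 ≤ (|b| * ((N : ℝ) + 1)) ^ 2 :=
      pow_le_pow_left₀ (norm_nonneg _) (by linarith) 2
    have h5 := mul_le_mul_of_nonneg_right h4 hρ.le
    linarith
  choose! δ hδ1 hδ2 using hδ
  refine ⟨Polynomial.C (f 0) * (P.map (algebraMap ℝ ℂ)) *
    (1 + Polynomial.C ((b : ℂ) / m) * Polynomial.X) ^ m, fun w => E w - δ w, ?_, ?_, ?_⟩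
  · intro w hw
    rw [Polynomial.IsRoot.def, eval_mul, eval_mul, eval_C, Polynomial.eval_map_algebraMap, eval_pow, eval_add,
      eval_one, eval_mul, eval_C, eval_X] at hw
    rcases mul_eq_zero.1 hw with h | h
    · rcases mul_eq_zero.1 h with h | h
      · exact absurd h h0
      · left
        rw [hFG, h, zero_mul]
    · right
      have h1 := pow_eq_zero_iff hmn.ne' |>.1 h
      have h2 : (((b / m : ℝ)) : ℂ) * w = -1 := by
        push_cast
        linear_combination h1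
      have h3 := congrArg Complex.re h2
      have h4 := congrArg Complex.im h2
      rw [Complex.re_ofReal_mul, neg_re, one_re] at h3
      rw [Complex.im_ofReal_mul, neg_im, one_im, neg_zero] at h4
      rcases mul_eq_zero.1 h4 with h5 | h5
      · rw [h5, zero_mul] at h3
        norm_num at h3
      · exact h5
  · intro w
    rw [eval_mul, eval_mul, eval_C, Polynomial.eval_map_algebraMap, eval_pow, eval_add,
      eval_one, eval_mul, eval_C, eval_X, eval_mul, eval_mul, eval_C, Polynomial.eval_map_algebraMap, eval_pow,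
      eval_add, eval_one, eval_mul, eval_C, eval_X, Polynomial.aeval_conj, norm_mul, norm_mul, norm_mul, norm_mul,
      Complex.norm_conj]
    congr 1
    have e : (1 : ℂ) + (b : ℂ) / m * (starRingEnd ℂ) w = (starRingEnd ℂ) (1 + (b : ℂ) / m * w) := by
      rw [map_add, map_one, map_mul, map_div₀, Complex.conj_ofReal, Complex.conj_natCast]
    rw [e, ← map_pow, Complex.norm_conj]
  · intro w hw
    obtain ⟨h1, h2⟩ := hE w hw
    constructor
    · rw [eval_mul, eval_mul, eval_C, Polynomial.eval_map_algebraMap, eval_pow, eval_add,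
        eval_one, eval_mul, eval_C, eval_X, hFG w, h1, ← hbb, hG0,
        show (b : ℂ) / m * w = ((b : ℂ) * w) / m by ring, hδ1 w hw,
        show (b : ℂ) * w + E w = ((b : ℂ) * w + δ w) + (E w - δ w) by ring, Complex.exp_add]
      ring
    · refine (norm_sub_le _ _).trans (add_le_add ?_ (hδ2 w hw))
      refine h2.trans ?_
      apply mul_le_mul_of_nonneg_right _ (sq_nonneg _)
      rw [hG0]
      have := neg_abs_le (Real.log ‖f 0‖)
      linarith

/-- the approximation for functions symmetric with respect to the real axis -/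
theorem had_real' {f : ℂ → ℂ} (hf : Differentiable ℂ f) (h0 : f 0 ≠ 0)
    (hsym : ∀ x, f ((starRingEnd ℂ) x) = (starRingEnd ℂ) (f x)) {K : ℝ} (hK : 0 ≤ K)
    (hb : ∀ w, ‖f w‖ ≤ Real.exp (K * (1 + ‖w‖) ^ (3 / 2 : ℝ))) :
    ∃ Q : ℕ → ℂ[X], (∀ N w, (Q N).IsRoot w → f w = 0 ∨ w.im = 0) ∧
      (∀ N w, ‖(Q N).eval ((starRingEnd ℂ) w)‖ = ‖(Q N).eval w‖) ∧
      TendstoLocallyUniformly (fun (N : ℕ) (w : ℂ) => (Q N).eval w) f atTop := by
  choose Q L h1 hs h2 using had_main' hf h0 hsym hK hb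
  refine ⟨Q, h1, hs, ?_⟩
  rw [Metric.tendstoLocallyUniformly_iff]
  intro ε hε x
  set r : ℝ := ‖x‖ + 1 with hr
  have hr0 : 0 < r := by positivity
  set B : ℝ := Real.exp (K * (1 + r) ^ (3 / 2 : ℝ)) with hB
  have hB0 : 0 < B := Real.exp_pos _
  refine ⟨ball 0 r, ?_, ?_⟩
  · apply isOpen_ball.mem_nhds
    simp [hr]
  have hδ : 0 < min 1 (ε / (2 * B)) := by positivity
  filter_upwards [lim1 hK hr0 (abs_nonneg (Real.log ‖f 0‖)) hδ] with N hN
  intro y hy
  have hyr : ‖y‖ < r := by simpa using hy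
  obtain ⟨hN1, hN2⟩ := hN
  obtain ⟨h3, h4⟩ := h2 N y (hyr.trans hN1)
  have hN0 : 0 < (N : ℝ) + 1 := by positivity
  have h5 : (‖y‖ / ((N : ℝ) + 1)) ^ 2 ≤ (r / ((N : ℝ) + 1)) ^ 2 :=
    pow_le_pow_left₀ (by positivity) (div_le_div_of_nonneg_right hyr.le hN0.le) 2
  have h6 : 0 ≤ 16 * (K * (1 + 2 * ((N : ℝ) + 1)) ^ (3 / 2 : ℝ) + |Real.log ‖f 0‖|) := by positivity
  have h7 : ‖L N y‖ < min 1 (ε / (2 * B)) := by
    refine lt_of_le_of_lt (h4.trans ?_) hN2
    have := mul_le_mul_of_nonneg_left h5 h6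
    linarith
  have h8 : ‖L N y‖ < 1 := h7.trans_le (min_le_left _ _)
  have h9 : ‖L N y‖ < ε / (2 * B) := h7.trans_le (min_le_right _ _)
  have h10 : (Q N).eval y = f y * cexp (-(L N y)) := by
    rw [h3, mul_assoc, ← Complex.exp_add]
    simp
  rw [dist_eq_norm, h10]
  have h11 : f y - f y * cexp (-(L N y)) = -(f y * (cexp (-(L N y)) - 1)) := by ring
  rw [h11, norm_neg, norm_mul]
  have h12 : ‖cexp (-(L N y)) - 1‖ ≤ 2 * ‖-(L N y)‖ :=
    Complex.norm_exp_sub_one_le (by rw [norm_neg]; exact h8.le)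
  rw [norm_neg] at h12
  have h13 : ‖f y‖ ≤ B := by
    refine (hb y).trans (Real.exp_le_exp.2 (mul_le_mul_of_nonneg_left ?_ hK))
    exact Real.rpow_le_rpow (by positivity) (by linarith) (by norm_num)
  calc ‖f y‖ * ‖cexp (-(L N y)) - 1‖ ≤ B * (2 * ‖L N y‖) :=
        mul_le_mul h13 h12 (norm_nonneg _) hB0.le
    _ < B * (2 * (ε / (2 * B))) := by
        apply mul_lt_mul_of_pos_left _ hB0
        linarith
    _ = ε := by field_simp


/-- the approximation for functions symmetric with respect to the imaginary axis -/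
theorem approx_symm {Φ : ℂ → ℂ} (hΦ : Differentiable ℂ Φ)
    (hsym : ∀ z : ℂ, Φ (-((starRingEnd ℂ) z)) = (starRingEnd ℂ) (Φ z)) (hne : ∃ z, Φ z ≠ 0) {K : ℝ} (hK : 0 < K)
    (hb : ∀ z, ‖Φ z‖ ≤ Real.exp (K * (1 + ‖z‖) ^ (3 / 2 : ℝ))) :
    ∃ p : ℕ → ℂ[X], (∀ (N : ℕ) (z : ℂ), (p N).IsRoot z → Φ z = 0 ∨ z.re = 0) ∧
      TendstoLocallyUniformly (fun (N : ℕ) (z : ℂ) => (p N).eval z) Φ atTop ∧
      ∀ (N : ℕ) (h t : ℝ), ‖(p N).eval (-h + t * I : ℂ)‖ = ‖(p N).eval (h + t * I : ℂ)‖ := by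
  obtain ⟨t0, ht0⟩ : ∃ t0 : ℝ, Φ (I * t0) ≠ 0 := by
    have han : AnalyticOnNhd ℂ Φ Set.univ := fun z _ => hΦ.analyticAt z
    rcases (han 0 (Set.mem_univ _)).eventually_eq_zero_or_eventually_ne_zero with h | h
    · exfalso
      obtain ⟨z, hz'⟩ := hne
      exact hz' (han.eqOn_zero_of_preconnected_of_eventuallyEq_zero isPreconnected_univ
        (Set.mem_univ 0) h (Set.mem_univ z))
    · have h1 : Tendsto (fun t : ℝ => I * (t : ℂ)) (𝓝[≠] 0) (𝓝[≠] 0) := by
        rw [tendsto_nhdsWithin_iff]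
        constructor
        · have h2 : Tendsto (fun t : ℝ => I * (t : ℂ)) (𝓝 0) (𝓝 (I * ((0 : ℝ) : ℂ))) :=
            (Continuous.tendsto (by fun_prop) 0)
          rw [Complex.ofReal_zero, mul_zero] at h2
          exact h2.mono_left nhdsWithin_le_nhds
        · filter_upwards [self_mem_nhdsWithin] with t ht h3
          rcases mul_eq_zero.1 h3 with h4 | h4
          · exact Complex.I_ne_zero h4
          · exact ht (by exact_mod_cast h4)
      exact (h1.eventually h).exists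
  obtain ⟨f, hf⟩ : ∃ f : ℂ → ℂ, f = fun x => Φ (I * x + I * t0) := ⟨_, rfl⟩
  have hfd : Differentiable ℂ f := by
    rw [hf]
    exact hΦ.comp (by fun_prop)
  have hf0 : f 0 ≠ 0 := by
    rw [hf]
    simpa using ht0
  have hfs : ∀ x, f ((starRingEnd ℂ) x) = (starRingEnd ℂ) (f x) := by
    intro x
    rw [hf]
    simp only
    rw [← hsym]
    congr 1
    simp only [map_add, map_mul, Complex.conj_I, Complex.conj_ofReal]
    ring
  have hK' : 0 ≤ K * (1 + |t0|) ^ (3 / 2 : ℝ) := by positivity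
  have hfb : ∀ w, ‖f w‖ ≤ Real.exp (K * (1 + |t0|) ^ (3 / 2 : ℝ) * (1 + ‖w‖) ^ (3 / 2 : ℝ)) := by
    intro w
    rw [hf]
    refine (hb _).trans (Real.exp_le_exp.2 ?_)
    rw [mul_assoc, ← Real.mul_rpow (by positivity) (by positivity)]
    refine mul_le_mul_of_nonneg_left (Real.rpow_le_rpow (by positivity) ?_ (by norm_num)) hK.le
    have h1 : ‖I * w + I * (t0 : ℂ)‖ ≤ ‖w‖ + |t0| := by
      refine (norm_add_le _ _).trans (le_of_eq ?_)
      rw [norm_mul, norm_mul, Complex.norm_I, Complex.norm_real, Real.norm_eq_abs, one_mul, one_mul]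
    have h2 : 0 ≤ |t0| * ‖w‖ := by positivity
    nlinarith
  obtain ⟨Q, hQ, hQs, hlim⟩ := had_real' hfd hf0 hfs hK' hfb
  have hfΦ : ∀ z : ℂ, f (-I * z - t0) = Φ z := by
    intro z
    have h1 : I * (-I * z - (t0 : ℂ)) + I * (t0 : ℂ) = z := by
      have := Complex.I_mul_I
      linear_combination (-z) * this
    rw [hf]
    simp only [h1]
  have hev : ∀ (N : ℕ) (z : ℂ), ((Q N).comp (Polynomial.C (-I) * Polynomial.X -
      Polynomial.C (t0 : ℂ))).eval z = (Q N).eval (-I * z - t0) := by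
    intro N z
    rw [eval_comp, eval_sub, eval_mul, eval_C, eval_X, eval_C]
  refine ⟨fun N => (Q N).comp (Polynomial.C (-I) * Polynomial.X - Polynomial.C (t0 : ℂ)), ?_, ?_, ?_⟩
  · intro N z hr
    rw [Polynomial.IsRoot.def, hev] at hr
    rcases hQ N _ hr with h | h
    · rw [hfΦ] at h
      exact Or.inl h
    · have h1 : (-I * z - (t0 : ℂ)).im = -z.re := by simp
      rw [h1] at h
      right
      linarith
  · have h1 := hlim.comp (fun z : ℂ => -I * z - t0) (by fun_prop)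
    have h2 : (f ∘ fun z : ℂ => -I * z - t0) = Φ := funext hfΦ
    rw [h2] at h1
    refine h1.congr fun N z => ?_
    exact (hev N z).symm
  · intro N h t
    rw [hev, hev]
    have e : (-I * (-(h : ℂ) + t * I) - t0 : ℂ) = (starRingEnd ℂ) (-I * ((h : ℂ) + t * I) - t0) := by
      simp only [map_sub, map_mul, map_add, map_neg, Complex.conj_I, Complex.conj_ofReal]
      ring
    rw [e, hQs]

end Pool.Agent.Q246.NC
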