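import Pool.Agent.Q246.NC.Fin2
import Pool.Agent.TH839.NA.Inst

set_option autoImplicit false

/-!
# Newforms with nebentypus belong to the class; lists of newforms
-/

namespace Pool.Agent.Q246.NC

open UpperHalfPlane hiding I
open MatrixGroups CongruenceSubgroup Filter Topology Complex
open Pool.Agent.Y671.GL
open W388 (IsNewfC lamC lamC_zero)
open Pool.Agent.TH839.NA (PkT RawTL nf_rawT)
open Pool.Agent.W355.UN (Pk)
open scoped ComplexConjugate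

section one
variable {N : ℕ} [NeZero N] {k : ℕ} {ψ : DirichletCharacter ℂ N}
  {f : CuspForm (Gamma1 N : Subgroup (GL (Fin 2) ℝ)) (k : ℤ)} {η : ℂ}

/-- the normalised Fourier coefficients -/
noncomputable def nco (f : CuspForm (Gamma1 N : Subgroup (GL (Fin 2) ℝ)) (k : ℤ)) (n : ℕ) : ℂ :=
  (qExpansion 1 f).coeff n * (((n : ℝ) ^ (-(((k : ℝ) - 1) / 2)) : ℝ) : ℂ)

theorem nco_eq (f : CuspForm (Gamma1 N : Subgroup (GL (Fin 2) ℝ)) (k : ℤ)) (n : ℕ) :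
    nco f n = lamC f n := by
  unfold nco lamC
  rw [Real.rpow_neg (Nat.cast_nonneg n), div_eq_mul_inv]
  push_cast
  rfl

/-- the completed L-function for large real part -/
noncomputable def cpl (f : CuspForm (Gamma1 N : Subgroup (GL (Fin 2) ℝ)) (k : ℤ)) (s : ℂ) : ℂ :=
  (N : ℂ) ^ (s / 2) * (Gammaℝ (s + ((k : ℂ) - 1) / 2) * Gammaℝ (s + ((k : ℂ) + 1) / 2)) * LSeries (nco f) s

theorem cpl_eq (f : CuspForm (Gamma1 N : Subgroup (GL (Fin 2) ℝ)) (k : ℤ)) (s : ℂ) : cpl f s = comp f s := by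
  unfold cpl comp
  rw [show nco f = lamC f from funext fun n => nco_eq f n]

/-- **Newforms with nebentypus belong to the class.** -/
theorem full_newf (hk : 1 ≤ k) (hf : IsNewfC N k ψ f η) : ∃ Λ : ℂ → ℂ, Full 1 Λ ∧
    (∃ w : ℂ, ‖w‖ = 1 ∧ ∀ s : ℂ, Λ (1 - s) = w * conj (Λ (conj s))) ∧
    ∃ σ : ℝ, ∀ s : ℂ, σ ≤ s.re → LSeriesSummable (nco f) s ∧ Λ s = cpl f s := by
  have hnf : Pool.Agent.W355.LJ.IsNF N k f (η / Complex.I ^ k) := by
    refine ⟨hf.one, by rw [norm_div, norm_pow, norm_I, one_pow, div_one]; exact hf.sign, ?_⟩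
    intro τ τ' τ'' h1 h2
    rw [hf.fricke τ τ' τ'' h1 h2, div_zpow, zpow_natCast, zpow_natCast]
    ring
  obtain ⟨c, X, h⟩ := nf_rawT f hk hnf hf.mul (fun p hp => ⟨ψ (p : ZMod N) * (p : ℂ) ^ ((k : ℤ) - 1),
    fun j => hf.pow p j hp⟩)
  have e2 : (((((((k : ℕ) : ℝ) - 1) / 2) : ℝ)) : ℂ) = ((k : ℂ) - 1) / 2 := by push_cast; rfl
  have e3 : (((((((k : ℕ) : ℝ) + 1) / 2) : ℝ)) : ℂ) = ((k : ℂ) + 1) / 2 := by push_cast; rfl
  rw [e2, e3] at h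
  obtain ⟨hP, σ1, hσ1⟩ := RawTL.out (l := [((k : ℂ) - 1) / 2, ((k : ℂ) + 1) / 2]) h (b := nco f) fun n _ => rfl
  have hd := hP.diff
  have hfe := hP.fe
  obtain ⟨σ2, hσ2⟩ : ∃ σ : ℝ, ∀ s : ℂ, σ ≤ s.re → X s = cpl f s := by
    obtain ⟨μ, L, u, e, σ, hσ⟩ := hP
    refine ⟨σ, fun s hs => (hσ s hs).trans ?_⟩
    unfold Pool.Agent.W355.UN.cser cpl
    simp
  refine ⟨X, ⟨cls_newf hk hf hd ⟨σ2, fun s hs => by rw [hσ2 s hs, cpl_eq]⟩ hfe, 1 / 2, _, _, _, _,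
    by norm_num, hP⟩, hfe, max σ1 σ2, fun s hs => ⟨hσ1 s ((le_max_left _ _).trans hs),
      hσ2 s ((le_max_right _ _).trans hs)⟩⟩

end one

/-! ### lists -/

/-- products of completed L-functions of the class -/
theorem full_list {ι : Type} (c : ι → ℂ → ℂ) (S : ι → ℂ → Prop)
    (h : ∀ i, ∃ Λ : ℂ → ℂ, Full 1 Λ ∧ (∃ w : ℂ, ‖w‖ = 1 ∧ ∀ s : ℂ, Λ (1 - s) = w * conj (Λ (conj s))) ∧
      ∃ σ : ℝ, ∀ s : ℂ, σ ≤ s.re → S i s ∧ Λ s = c i s) (l : List ι) (hl : l ≠ []) :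
    ∃ Λ : ℂ → ℂ, Full (l.length : ℝ) Λ ∧ (∃ w : ℂ, ‖w‖ = 1 ∧ ∀ s : ℂ, Λ (1 - s) = w * conj (Λ (conj s))) ∧
      ∃ σ : ℝ, ∀ s : ℂ, σ ≤ s.re → (∀ i ∈ l, S i s) ∧ Λ s = (l.map fun i => c i s).prod := by
  induction l with
  | nil => exact absurd rfl hl
  | cons a l ih =>
    obtain ⟨Λ1, h1, ⟨w1, hw1, f1⟩, σ1, g1⟩ := h a
    rcases eq_or_ne l [] with rfl | hne
    · refine ⟨Λ1, by simpa using h1, ⟨w1, hw1, f1⟩, σ1, fun s hs => ?_⟩
      simpa using g1 s hs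
    · obtain ⟨Λ2, h2, ⟨w2, hw2, f2⟩, σ2, g2⟩ := ih hne
      refine ⟨fun s => Λ2 s * Λ1 s, ?_, ⟨w2 * w1, by rw [norm_mul, hw1, hw2, one_mul], fun s => ?_⟩,
        max σ1 σ2, fun s hs => ?_⟩
      · have := h2.mul h1
        rw [List.length_cons]
        push_cast
        exact this
      · simp only
        rw [f1, f2, map_mul]
        ring
      · obtain ⟨k1, k2⟩ := g1 s ((le_max_left _ _).trans hs)
        obtain ⟨k3, k4⟩ := g2 s ((le_max_right _ _).trans hs)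
        refine ⟨fun i hi => ?_, ?_⟩
        · rcases List.mem_cons.1 hi with rfl | hi
          · exact k1
          · exact k3 i hi
        · simp only [List.map_cons, List.prod_cons]
          rw [k2, k4]
          ring

end Pool.Agent.Q246.NC
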