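import Pool.Agent.Q246.NC.Newf
import Pool.Agent.Y771.NF.Dn
import Pool.Agent.Y693.GL.Gy

set_option autoImplicit false

/-!
# Completed L-functions of newforms with nebentypus
-/

namespace Pool.Agent.Q246.NC

open UpperHalfPlane hiding I
open MatrixGroups CongruenceSubgroup Filter Topology Complex
open Pool.Agent.Y671.GL
open Pool.Agent.Y693.GL (GY gy_one gy_mul)
open W388 (IsNewfC lamC lamC_zero)
open scoped ComplexConjugate

/-! ## The conjugate form -/

theorem aa_conj (k : ℕ) (lam : ℕ → ℂ) (n : ℕ) : aa k (fun n => conj (lam n)) n = conj (aa k lam n) := by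
  unfold aa
  rw [map_mul, Complex.conj_ofReal]

theorem Ph_cj (k : ℕ) (lam : ℕ → ℂ) (z : ℂ) : Ph k (fun n => conj (lam n)) z = conj (Ph k lam (conj z)) := by
  unfold Ph
  rw [Complex.conj_tsum]
  refine tsum_congr fun n => ?_
  rw [map_mul, ← Complex.exp_conj, aa_conj, map_neg, map_mul, Complex.conj_natCast, Complex.conj_conj]

theorem Frm.cj {k N : ℕ} {ps lam : ℕ → ℂ} (h : Frm k N ps lam) :
    Frm k N (fun p => conj (ps p)) (fun n => conj (lam n)) where
  k_pos := h.k_pos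
  N_pos := h.N_pos
  zero := by rw [h.zero, map_zero]
  one := by rw [h.one, map_one]
  mul m n hmn := by rw [h.mul m n hmn, map_mul]
  pow p j hp := by rw [h.pow p j hp, map_sub, map_mul, map_mul]
  ps_le p := by rw [Complex.norm_conj]; exact h.ps_le p
  ram := by simpa only [Complex.norm_conj] using h.ram
  rs := by simpa only [Complex.norm_conj] using h.rs
  bd := by
    obtain ⟨C, hC⟩ := h.bd
    refine ⟨C, fun z hz => ?_⟩
    rw [Ph_cj, Complex.norm_conj]
    have h1 := hC (conj z) (by rwa [Complex.conj_re])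
    rwa [Complex.conj_re] at h1
  cusp := by
    obtain ⟨ch, h1, h2⟩ := h.cusp
    refine ⟨fun a => (-1) ^ k * conj (ch (-a)), fun a ha => ?_, fun q a b hq hN hab z hz => ?_⟩
    · rw [norm_mul, norm_pow, norm_neg, norm_one, one_pow, one_mul, Complex.norm_conj]
      exact h1 _ ha.neg_left
    · rw [Ph_cj, Ph_cj]
      have e1 : conj (z + 2 * Real.pi * I * a / q) = conj z + 2 * Real.pi * I * ((-a : ℤ) : ℂ) / q := by
        rw [map_add, map_div₀, map_mul, map_mul, map_mul, Complex.conj_I, Complex.conj_ofReal, map_ofNat,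
          Complex.conj_natCast, ← Complex.ofReal_intCast, Complex.conj_ofReal]
        push_cast
        ring
      have e2 : conj (4 * Real.pi ^ 2 / (q ^ 2 * z) - 2 * Real.pi * I * b / q) =
          4 * Real.pi ^ 2 / (q ^ 2 * conj z) - 2 * Real.pi * I * ((-b : ℤ) : ℂ) / q := by
        rw [map_sub, map_div₀, map_div₀, map_mul, map_mul, map_mul, map_mul, map_mul, map_pow, map_pow,
          Complex.conj_I, Complex.conj_ofReal, map_ofNat, map_ofNat,
          Complex.conj_natCast, ← Complex.ofReal_intCast, Complex.conj_ofReal]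
        push_cast
        ring
      rw [e1, e2, h2 q (-a) (-b) hq hN (by simpa using hab) (conj z) (by rwa [Complex.conj_re]),
        map_mul, map_mul, map_pow]
      have e3 : conj (2 * Real.pi / (I * q * conj z)) = (-1) * (2 * Real.pi / (I * q * z)) := by
        rw [map_div₀, map_mul, map_mul, map_mul, Complex.conj_I, Complex.conj_ofReal, map_ofNat,
          Complex.conj_natCast, Complex.conj_conj, show -I * (q : ℂ) * z = -(I * q * z) by ring, div_neg]
        ring
      rw [e3, mul_pow]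
      ring
  fricke := by
    obtain ⟨ε, h1, h2⟩ := h.fricke
    refine ⟨conj ε, by rwa [Complex.norm_conj], fun z hz => ?_⟩
    rw [Ph_cj]
    have e1 : conj (4 * Real.pi ^ 2 / (N * z)) = 4 * Real.pi ^ 2 / (N * conj z) := by
      rw [map_div₀, map_mul, map_mul, map_pow, Complex.conj_ofReal, map_ofNat, Complex.conj_natCast]
    rw [e1, h2 (conj z) (by rwa [Complex.conj_re]), map_mul, map_mul, map_pow, map_div₀, map_mul, map_mul,
      Complex.conj_ofReal, Complex.conj_ofReal, map_ofNat, Complex.conj_conj, ← Ph_cj]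

theorem conj_natCast_cpow (n : ℕ) (s : ℂ) : conj ((n : ℂ) ^ (conj s)) = (n : ℂ) ^ s := by
  have h1 : (n : ℂ).arg ≠ Real.pi := by
    rw [Complex.natCast_arg]
    exact Real.pi_ne_zero.symm
  have h2 := Complex.cpow_conj (n : ℂ) s h1
  rw [Complex.conj_natCast] at h2
  rw [h2, Complex.conj_conj]

theorem IsL.cj {lam : ℕ → ℂ} {Z : ℂ → ℂ} (h : IsL lam Z) :
    IsL (fun n => conj (lam n)) (fun s => conj (Z (conj s))) where
  diff := by
    intro z
    have := (h.diff (conj z)).conj_conj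
    rw [Complex.conj_conj] at this
    exact this
  ser s hs := by
    show conj (Z (conj s)) = _
    rw [h.ser (conj s) (by rwa [Complex.conj_re]), Complex.conj_tsum]
    refine tsum_congr fun n => ?_
    rw [map_mul, ← map_neg, conj_natCast_cpow]

theorem ofReal_cpow_conj {x : ℝ} (hx : 0 < x) (s : ℂ) : conj ((x : ℂ) ^ (conj s)) = (x : ℂ) ^ s := by
  have h1 : (x : ℂ).arg ≠ Real.pi := by
    rw [Complex.arg_ofReal_of_nonneg hx.le]
    exact Real.pi_ne_zero.symm
  have h2 := Complex.cpow_conj (x : ℂ) s h1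
  rw [Complex.conj_ofReal] at h2
  rw [h2, Complex.conj_conj]

theorem GG_conj {N : ℕ} (hN : 1 ≤ N) (k : ℤ) (s : ℂ) :
    conj (W388.GG k N 1 (conj s)) = W388.GG k N 1 s := by
  unfold W388.GG
  have hc : 0 < Real.sqrt N * 1 / (2 * Real.pi) := by
    have h1 : (0 : ℝ) < N := by exact_mod_cast hN
    have := Real.sqrt_pos.2 h1
    have := Real.pi_pos
    positivity
  rw [map_mul, ofReal_cpow_conj hc, ← Complex.Gamma_conj]
  congr 2
  rw [map_add, Complex.conj_conj, map_div₀, map_sub, map_one, map_ofNat, ← Complex.ofReal_intCast,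
    Complex.conj_ofReal]

theorem FE2.cj {N : ℕ} (hN : 1 ≤ N) {k : ℤ} {Z : ℂ → ℂ} (h : W388.FE2 k N 1 Z) :
    W388.FE2 k N 1 (fun s => conj (Z (conj s))) where
  diff := by
    intro z
    have := (h.diff (conj z)).conj_conj
    rw [Complex.conj_conj] at this
    exact this
  fe := by
    obtain ⟨w, hw, hfe⟩ := h.fe
    refine ⟨conj w, by rwa [Complex.norm_conj], fun s hs => ?_⟩
    have h1 := hfe (conj s) (by rw [Complex.conj_im]; exact neg_ne_zero.2 hs)
    have h2 := congrArg (starRingEnd ℂ) h1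
    rw [map_mul, map_mul, GG_conj hN, Complex.conj_conj, Complex.conj_conj] at h2
    rw [h2, map_mul]
    have e1 : conj (1 - conj s) = 1 - s := by rw [map_sub, map_one, Complex.conj_conj]
    have e2 : conj (W388.GG k N 1 (1 - conj s)) = W388.GG k N 1 (1 - s) := by
      rw [← GG_conj hN k (1 - s), map_sub, map_one]
    simp only [e1, e2, Complex.conj_conj]
  vert := by
    intro a b
    obtain ⟨C, hC⟩ := h.vert a b
    refine ⟨C, fun s h1 h2 h3 => ?_⟩
    have h4 := hC (conj s) (by rwa [Complex.conj_re]) (by rwa [Complex.conj_re])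
      (by rwa [Complex.conj_im, abs_neg])
    rw [norm_mul, Complex.norm_conj]
    rw [norm_mul] at h4
    rwa [← GG_conj hN k s, Complex.norm_conj]

/-! ## The data for a newform -/

section newf

variable {N : ℕ} [NeZero N] {k : ℕ} {ψ : DirichletCharacter ℂ N}
  {f : CuspForm (Gamma1 N : Subgroup (GL (Fin 2) ℝ)) (k : ℤ)} {η : ℂ}

/-- the L-function -/
theorem exists_ZC (hk : 1 ≤ k) (hf : IsNewfC N k ψ f η) : ∃ Z : ℂ → ℂ, W388.FE2 k N 1 Z ∧ IsL (lamC f) Z := by
  have hF := frm_newfC hk hf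
  obtain ⟨-, -, -, hS⟩ := Pool.Agent.Y771.GL.mf k N _ _ hF
  have hk' : (1 : ℤ) ≤ (k : ℤ) := by exact_mod_cast hk
  obtain ⟨Z, hZ, hZs⟩ := W388.exists_twistC Pool.Agent.W440.TC.t_twistC Pool.Agent.W108.TW.t_mellin hk' hf
    (by
      intro q _ χ s hs
      refine ((hS s.re hs).1).of_nonneg_of_le (fun n => norm_nonneg _) fun n => ?_
      rcases Nat.eq_zero_or_pos n with rfl | hn
      · rw [lamC_zero]
        simp
      · rw [norm_mul, norm_mul, Complex.norm_natCast_cpow_of_pos hn, Complex.neg_re]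
        have h1 : ‖χ (n : ZMod q)‖ ≤ 1 := χ.norm_le_one _
        have h3 : 0 ≤ ‖lamC f n‖ * (n : ℝ) ^ (-s.re) := by positivity
        nlinarith) 1 1
    DirichletCharacter.isPrimitive_one_level_one (Nat.coprime_one_left N)
  refine ⟨Z, by simpa using hZ, hZ.diff, ?_⟩
  intro s hs
  rw [hZs s hs]
  refine tsum_congr fun n => ?_
  have h1 : (1 : DirichletCharacter ℂ 1) ((n : ℕ) : ZMod 1) = 1 := by
    apply MulChar.one_apply
    exact isUnit_of_subsingleton _
  rw [h1, one_mul]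

/-- the constant `√N / 2π` -/
noncomputable def cN (N : ℕ) : ℝ := Real.sqrt N / (2 * Real.pi)

omit [NeZero N] in
theorem cN_pos (hN : 1 ≤ N) : 0 < cN N := by
  have h1 : (0 : ℝ) < N := by exact_mod_cast hN
  have := Real.sqrt_pos.2 h1
  have := Real.pi_pos
  unfold cN
  positivity

theorem Hg_GG (hN : 1 ≤ N) (k : ℕ) (w : ℂ) :
    Hg (cN N) ((k : ℝ) / 2) w = ((cN N : ℝ) : ℂ) ^ (-(1 / 2) : ℂ) * W388.GG k N 1 (1 / 2 + w) := by
  have hc : ((cN N : ℝ) : ℂ) ≠ 0 := by exact_mod_cast (cN_pos hN).ne'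
  unfold Hg W388.GG
  have e1 : Real.sqrt N * 1 / (2 * Real.pi) = cN N := by unfold cN; rw [mul_one]
  rw [e1, ← mul_assoc, ← Complex.cpow_add _ _ hc]
  congr 2
  · ring
  · push_cast
    ring

/-- the completed L-function for large real part -/
noncomputable def comp (f : CuspForm (Gamma1 N : Subgroup (GL (Fin 2) ℝ)) (k : ℤ)) (s : ℂ) : ℂ :=
  (N : ℂ) ^ (s / 2) * (Gammaℝ (s + ((k : ℂ) - 1) / 2) * Gammaℝ (s + ((k : ℂ) + 1) / 2)) * LSeries (lamC f) s

theorem ldataC (hk : 1 ≤ k) (hf : IsNewfC N k ψ f η) {Z : ℂ → ℂ} (hFE : W388.FE2 k N 1 Z)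
    (hL : IsL (lamC f) Z) {Λ : ℂ → ℂ} (hΛ : Differentiable ℂ Λ) (hser : ∃ σ : ℝ, ∀ s : ℂ, σ ≤ s.re → Λ s = comp f s)
    {w : ℂ} (hw : ∀ s : ℂ, Λ (1 - s) = w * conj (Λ (conj s))) {v : ℂ} (hv : v ≠ 0) (hvw : v * w = conj v) :
    ∃ u0 : ℂ, LData k (cN N) u0 (fun z => v * Λ (1 / 2 + z)) Z := by
  have hF := frm_newfC hk hf
  have hN : 1 ≤ N := Nat.one_le_iff_ne_zero.2 (NeZero.ne N)
  have hc := cN_pos hN
  have hcc : ((cN N : ℝ) : ℂ) ≠ 0 := by exact_mod_cast hc.ne'
  have hkr : (1 : ℝ) ≤ k := by exact_mod_cast hk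
  have hk2 : (0 : ℝ) < (k : ℝ) / 2 := by positivity
  obtain ⟨r, hr, hgaf⟩ := Pool.Agent.Y771.NF.gaf_muk (N := N) (c := cN N) rfl k
  obtain ⟨σ, hσ⟩ := hser
  have hgam : ∀ s : ℂ, r * ((N : ℂ) ^ (s / 2) * (Gammaℝ (s + ((k : ℂ) - 1) / 2) *
      Gammaℝ (s + ((k : ℂ) + 1) / 2))) = Hg (cN N) ((k : ℝ) / 2) (s - 1 / 2) := by
    intro s
    rw [hgaf s]
    unfold H353.E.gaf Pool.Agent.Y771.NF.muk
    rw [Fin.prod_univ_two]
    simp only [Matrix.cons_val_zero, Matrix.cons_val_one, sub_neg_eq_add]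
    push_cast
    ring
  have hbase : ∀ z : ℂ, max σ 1 < z.re → v * Λ (1 / 2 + z) =
      (v * r⁻¹) * Hg (cN N) ((k : ℝ) / 2) z * Z (1 / 2 + z) := by
    intro z hz
    have hz1 : σ < z.re := (le_max_left _ _).trans_lt hz
    have hz2 : 1 < z.re := (le_max_right _ _).trans_lt hz
    have hre : (1 / 2 + z : ℂ).re = 1 / 2 + z.re := by simp
    have h1 := hgam (1 / 2 + z)
    rw [add_sub_cancel_left] at h1
    rw [hσ _ (by rw [hre]; linarith), ser_eq hF hL (by rw [hre]; linarith), ← h1]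
    unfold comp
    field_simp
  have hd1 : Differentiable ℂ (fun z => v * Λ (1 / 2 + z)) := (hΛ.comp (by fun_prop)).const_mul v
  have hd2 : ∀ z : ℂ, (z.im ≠ 0 ∨ 0 < z.re) → DifferentiableAt ℂ
      (fun z => (v * r⁻¹) * Hg (cN N) ((k : ℝ) / 2) z * Z (1 / 2 + z)) z := by
    intro z hz
    refine ((Hg_diff hc hk2 hz).const_mul _).mul ?_
    exact (hL.diff.comp (by fun_prop : Differentiable ℂ (fun z : ℂ => 1 / 2 + z))) z
  have hup : ∀ z : ℂ, 0 < z.im → v * Λ (1 / 2 + z) =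
      (v * r⁻¹) * Hg (cN N) ((k : ℝ) / 2) z * Z (1 / 2 + z) :=
    id_ext (U := {z : ℂ | 0 < z.im}) (isOpen_lt continuous_const Complex.continuous_im)
      (convex_halfSpace_im_gt 0) hd1.differentiableOn
      (fun z hz => (hd2 z (Or.inl (ne_of_gt hz))).differentiableWithinAt)
      ⟨((max σ 1 + 1 : ℝ) : ℂ) + I, by
        show 0 < (((max σ 1 + 1 : ℝ) : ℂ) + I).im
        simp, by simp⟩
      (fun z _ h => hbase z h)
  have hdn : ∀ z : ℂ, z.im < 0 → v * Λ (1 / 2 + z) =
      (v * r⁻¹) * Hg (cN N) ((k : ℝ) / 2) z * Z (1 / 2 + z) :=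
    id_ext (U := {z : ℂ | z.im < 0}) (isOpen_lt Complex.continuous_im continuous_const)
      (convex_halfSpace_im_lt 0) hd1.differentiableOn
      (fun z hz => (hd2 z (Or.inl (ne_of_lt hz))).differentiableWithinAt)
      ⟨((max σ 1 + 1 : ℝ) : ℂ) - I, by
        show (((max σ 1 + 1 : ℝ) : ℂ) - I).im < 0
        simp, by simp⟩
      (fun z _ h => hbase z h)
  have hrt : ∀ z : ℂ, 1 / 2 < z.re → v * Λ (1 / 2 + z) =
      (v * r⁻¹) * Hg (cN N) ((k : ℝ) / 2) z * Z (1 / 2 + z) :=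
    id_ext (U := {z : ℂ | 1 / 2 < z.re}) (isOpen_lt continuous_const Complex.continuous_re)
      (convex_halfSpace_re_gt (1 / 2)) hd1.differentiableOn
      (fun z hz => (hd2 z (Or.inr (by
        have : (1 / 2 : ℝ) < z.re := hz
        linarith))).differentiableWithinAt)
      ⟨((max σ 1 + 1 : ℝ) : ℂ), by
        show 1 / 2 < (((max σ 1 + 1 : ℝ) : ℂ)).re
        rw [Complex.ofReal_re]
        have := le_max_right σ 1
        linarith, by rw [Complex.ofReal_re]; linarith⟩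
      (fun z _ h => hbase z h)
  refine ⟨v * r⁻¹, hc, mul_ne_zero hv (inv_ne_zero hr), hd1, ?_, ?_, ?_, gro_Z hk hFE hF hL⟩
  · intro z
    have h1 : (1 / 2 : ℂ) + -(conj z) = 1 - conj (1 / 2 + z) := by
      rw [map_add, map_div₀, map_one, map_ofNat]
      ring
    show v * Λ (1 / 2 + -(conj z)) = conj (v * Λ (1 / 2 + z))
    rw [h1, hw, Complex.conj_conj, map_mul, ← hvw]
    ring
  · rintro z (hz | hz)
    · exact hup z hz
    · exact hrt z hz
  · intro a b
    obtain ⟨C, hC⟩ := hFE.vert (1 / 2 + a) (1 / 2 + b)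
    have hK : IsCompact (Set.Icc a b ×ℂ Set.Icc (-1) 1) := isCompact_Icc.reProdIm isCompact_Icc
    obtain ⟨M, hM⟩ := hK.exists_bound_of_continuousOn hd1.continuous.continuousOn
    refine ⟨max M (‖v * r⁻¹ * ((cN N : ℝ) : ℂ) ^ (-(1 / 2) : ℂ)‖ * C), fun z h1 h2 => ?_⟩
    rcases le_or_gt |z.im| 1 with h3 | h3
    · refine (hM z ⟨⟨h1, h2⟩, ?_⟩).trans (le_max_left _ _)
      exact ⟨(abs_le.1 h3).1, (abs_le.1 h3).2⟩
    · refine le_trans ?_ (le_max_right _ _)
      have h4 : v * Λ (1 / 2 + z) = (v * r⁻¹) * Hg (cN N) ((k : ℝ) / 2) z * Z (1 / 2 + z) := by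
        rcases lt_trichotomy z.im 0 with h5 | h5 | h5
        · exact hdn z h5
        · rw [h5, abs_zero] at h3
          linarith
        · exact hup z h5
      have hre : (1 / 2 + z : ℂ).re = 1 / 2 + z.re := by simp
      have him : (1 / 2 + z : ℂ).im = z.im := by simp
      have h6 := hC (1 / 2 + z) (by rw [hre]; linarith) (by rw [hre]; linarith) (by rw [him]; exact h3.le)
      show ‖v * Λ (1 / 2 + z)‖ ≤ _
      rw [h4, Hg_GG hN]
      have e1 : v * r⁻¹ * (((cN N : ℝ) : ℂ) ^ (-(1 / 2) : ℂ) * W388.GG k N 1 (1 / 2 + z)) * Z (1 / 2 + z) =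
          (v * r⁻¹ * ((cN N : ℝ) : ℂ) ^ (-(1 / 2) : ℂ)) * (W388.GG k N 1 (1 / 2 + z) * Z (1 / 2 + z)) := by ring
      rw [e1, norm_mul]
      exact mul_le_mul_of_nonneg_left h6 (norm_nonneg _)

end newf

/-- a unit which makes the completed function symmetric -/
theorem exists_v {w : ℂ} (hw : ‖w‖ = 1) : ∃ v : ℂ, v ≠ 0 ∧ v * w = conj v := by
  have h1 : conj w * w = 1 := by
    rw [← Complex.normSq_eq_conj_mul_self, Complex.normSq_eq_norm_sq, hw]
    norm_num
  by_cases h : w = -1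
  · refine ⟨I, I_ne_zero, ?_⟩
    rw [h, Complex.conj_I]
    ring
  · refine ⟨1 + conj w, fun h0 => h ?_, ?_⟩
    · have h2 := congrArg (starRingEnd ℂ) h0
      rw [map_add, map_one, Complex.conj_conj, map_zero] at h2
      linear_combination h2
    · rw [map_add, map_one, Complex.conj_conj, add_mul, h1, one_mul]
      ring

end Pool.Agent.Q246.NC
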