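import Pool.Agent.Q246.NC.Ram
import Pool.Agent.Y771.NF.Inst
import Pool.Agent.W388.TC.FinalC

set_option autoImplicit false

/-!
# Every holomorphic newform, of any weight, level and nebentypus, is an instance of `Frm`
-/

namespace Pool.Agent.Q246.NC

open UpperHalfPlane hiding I
open MatrixGroups CongruenceSubgroup Filter Topology Complex
open Pool.Agent.Y671.GL
open Pool.Agent.Y771.NF (im_of_re im_val re_dual rs_of_sel p_sel)
open W388 (IsNewfC lamC coeff_zeroC lamC_eq lamC_zero lamC_one lamC_mul lamC_pow lamC_conj coeff_boundC)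
open scoped ComplexConjugate

variable {N : ℕ} [NeZero N] {k : ℕ} {ψ : DirichletCharacter ℂ N}
  {f : CuspForm (Gamma1 N : Subgroup (GL (Fin 2) ℝ)) (k : ℤ)} {η : ℂ}

theorem aa_lamC (f : CuspForm (Gamma1 N : Subgroup (GL (Fin 2) ℝ)) (k : ℤ)) (n : ℕ) :
    aa k (lamC f) n = (qExpansion 1 f).coeff n := by
  unfold aa lamC
  rcases Nat.eq_zero_or_pos n with rfl | hn
  · rw [coeff_zeroC f]
    simp
  · have hn0 : (0 : ℝ) < n := by exact_mod_cast hn
    have h1 : (((n : ℝ) ^ (((k : ℝ) - 1) / 2) : ℝ) : ℂ) ≠ 0 := by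
      exact_mod_cast (Real.rpow_pos_of_pos hn0 _).ne'
    rw [Int.cast_natCast, div_mul_cancel₀ _ h1]

theorem hasSum_fC (f : CuspForm (Gamma1 N : Subgroup (GL (Fin 2) ℝ)) (k : ℤ)) {w : ℂ} (hw : 0 < w.im) :
    HasSum (fun n : ℕ => (qExpansion 1 f).coeff n * cexp (2 * Real.pi * I * n * w)) (f (ofComplex w)) := by
  have h1 : (1 : ℝ) ∈ (Gamma1 N : Subgroup (GL (Fin 2) ℝ)).strictPeriods := by simp
  have h := ModularForm.hasSum_qExpansion (Γ := (Gamma1 N : Subgroup (GL (Fin 2) ℝ))) (k := (k : ℤ)) f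
    one_pos h1 (ofComplex w)
  convert h using 2 with n
  congr 1
  rw [ofComplex_apply_of_im_pos hw]
  unfold Function.Periodic.qParam
  rw [← Complex.exp_nat_mul]
  congr 1
  push_cast
  ring

/-- `Φ(z) = f(iz/2π)` -/
theorem Ph_lamC (f : CuspForm (Gamma1 N : Subgroup (GL (Fin 2) ℝ)) (k : ℤ)) {z : ℂ} (hz : 0 < z.re) :
    Ph k (lamC f) z = f (ofComplex (I * z / (2 * Real.pi))) := by
  unfold Ph
  rw [← (hasSum_fC f (im_of_re hz)).tsum_eq]
  refine tsum_congr fun n => ?_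
  rw [aa_lamC]
  congr 2
  have : (Real.pi : ℂ) ≠ 0 := by exact_mod_cast Real.pi_ne_zero
  field_simp
  rw [Complex.I_sq]
  ring

theorem bd_lamC (f : CuspForm (Gamma1 N : Subgroup (GL (Fin 2) ℝ)) (k : ℤ)) :
    ∃ C : ℝ, ∀ z : ℂ, 0 < z.re → ‖Ph k (lamC f) z‖ ≤ C * z.re ^ (-((k : ℝ) / 2)) := by
  obtain ⟨C, hC⟩ := CuspFormClass.exists_bound (Γ := (Gamma1 N : Subgroup (GL (Fin 2) ℝ))) f
  refine ⟨C * (2 * Real.pi) ^ ((k : ℝ) / 2), fun z hz => ?_⟩
  rw [Ph_lamC f hz]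
  have h1 := hC (ofComplex (I * z / (2 * Real.pi)))
  have h2 : (ofComplex (I * z / (2 * Real.pi))).im = z.re / (2 * Real.pi) := by
    rw [ofComplex_apply_of_im_pos (im_of_re hz)]
    exact im_val z
  rw [h2] at h1
  refine h1.trans (le_of_eq ?_)
  have hpi := Real.pi_pos
  rw [Int.cast_natCast, Real.div_rpow hz.le (by positivity), Real.rpow_neg hz.le]
  have h3 : 0 < z.re ^ ((k : ℝ) / 2) := by positivity
  have h4 : 0 < (2 * Real.pi) ^ ((k : ℝ) / 2) := by positivity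
  field_simp

/-- transformation under `Γ₀(N)` -/
lemma f_gammaC (hf : IsNewfC N k ψ f η) {a b c d : ℤ} (hdet : a * d - b * c = 1) (hc : (N : ℤ) ∣ c) {w : ℂ}
    (hw : 0 < w.im) :
    f (ofComplex ((a * w + b) / (c * w + d))) =
      ψ (d : ZMod N) * ((c : ℂ) * w + d) ^ k * f (ofComplex w) := by
  let γ : SL(2, ℤ) := ⟨!![a, b; c, d], by rw [Matrix.det_fin_two_of]; exact hdet⟩
  have hγ : γ ∈ Gamma0 N := by
    rw [Gamma0_mem]
    change ((c : ℤ) : ZMod N) = 0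
    rwa [ZMod.intCast_zmod_eq_zero_iff_dvd]
  let z : ℍ := ⟨w, hw⟩
  have h1 := hf.neb γ hγ z
  have hz : ofComplex w = z := ofComplex_apply_of_im_pos hw
  have h2 : ((γ • z : ℍ) : ℂ) = (a * w + b) / (c * w + d) := by
    rw [coe_specialLinearGroup_apply]
    have e00 : γ 0 0 = a := rfl
    have e01 : γ 0 1 = b := rfl
    have e10 : γ 1 0 = c := rfl
    have e11 : γ 1 1 = d := rfl
    have ez : (z : ℂ) = w := rfl
    rw [e00, e01, e10, e11, ez]
    simp only [algebraMap_int_eq, eq_intCast, Complex.ofReal_intCast]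
  have h3 : ofComplex ((a * w + b) / (c * w + d)) = γ • z := by
    rw [← h2]
    exact ofComplex_apply _
  have h4 : denom (γ : GL (Fin 2) ℝ) z = c * w + d := by
    rw [ModularGroup.denom_apply]
    rfl
  have h5 : (γ 1 1 : ℤ) = d := rfl
  rw [h3, h1, hz, h4, h5, zpow_natCast]

/-- the values of the nebentypus -/
lemma conj_psi (ψ : DirichletCharacter ℂ N) {a : ℤ} (ha : IsUnit ((a : ℤ) : ZMod N)) :
    conj (ψ (a : ZMod N)) * ψ (a : ZMod N) = 1 := by
  obtain ⟨u, hu⟩ := ha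
  rw [← hu]
  have h1 := DirichletCharacter.unit_norm_eq_one ψ u
  rw [← Complex.normSq_eq_conj_mul_self, Complex.normSq_eq_norm_sq, h1]
  norm_num

lemma unit_of {q : ℕ} (hN : N ∣ q) {a b : ℤ} (hab : (q : ℤ) ∣ a * b - 1) : IsUnit ((a : ℤ) : ZMod N) := by
  have h1 : (N : ℤ) ∣ a * b - 1 := (by exact_mod_cast hN : (N : ℤ) ∣ (q : ℤ)).trans hab
  have h2 : ((a : ℤ) : ZMod N) * ((b : ℤ) : ZMod N) = 1 := by
    rw [← sub_eq_zero]
    have := (ZMod.intCast_zmod_eq_zero_iff_dvd (a * b - 1) N).2 h1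
    push_cast at this
    exact this
  exact IsUnit.of_mul_eq_one _ h2

theorem cusp_lamC (hf : IsNewfC N k ψ f η) (q : ℕ) (a b : ℤ) (hq : 1 ≤ q) (hN : N ∣ q)
    (hab : (q : ℤ) ∣ a * b - 1) (z : ℂ) (hz : 0 < z.re) :
    Ph k (lamC f) (z + 2 * Real.pi * I * a / q) = conj (ψ (a : ZMod N)) * (2 * Real.pi / (I * q * z)) ^ k *
        Ph k (lamC f) (4 * Real.pi ^ 2 / (q ^ 2 * z) - 2 * Real.pi * I * b / q) := by
  have hz0 : z ≠ 0 := by
    intro h; rw [h] at hz; simp at hz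
  have hqC : (q : ℂ) ≠ 0 := by exact_mod_cast (by omega : q ≠ 0)
  have hpi : (Real.pi : ℂ) ≠ 0 := by exact_mod_cast Real.pi_ne_zero
  have hz1 : 0 < (z + 2 * Real.pi * I * a / q : ℂ).re := by
    have h2 : (2 * Real.pi * I * a / q : ℂ) = ((2 * Real.pi * a / q : ℝ) : ℂ) * I := by
      push_cast
      ring
    rw [h2, add_re, Complex.re_ofReal_mul, Complex.I_re, mul_zero, add_zero]
    exact hz
  have hψ := conj_psi ψ (unit_of hN hab)
  rw [Ph_lamC f hz1, Ph_lamC f (re_dual hq hz b)]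
  obtain ⟨g, hg⟩ := hab
  obtain ⟨w, hw⟩ : ∃ w : ℂ, w = I * (z + 2 * Real.pi * I * a / q) / (2 * Real.pi) := ⟨_, rfl⟩
  have hwi : 0 < w.im := by rw [hw]; exact im_of_re hz1
  have h1 := f_gammaC hf (a := b) (b := g) (c := q) (d := a) (by linarith)
    (by exact_mod_cast hN) hwi
  have hI : I ^ 2 = -1 := Complex.I_sq
  have e1 : (((q : ℤ) : ℂ) * w + a) = q * (I * z / (2 * Real.pi)) := by
    rw [hw]
    push_cast
    field_simp
    linear_combination (2 * Real.pi * (a : ℂ)) * hI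
  have hgC : (a : ℂ) * b - 1 = q * g := by exact_mod_cast hg
  have e2 : ((b : ℂ) * w + g) / (((q : ℤ) : ℂ) * w + a) =
      I * (4 * Real.pi ^ 2 / (q ^ 2 * z) - 2 * Real.pi * I * b / q) / (2 * Real.pi) := by
    rw [e1, div_eq_iff (by
      apply mul_ne_zero hqC
      apply div_ne_zero (mul_ne_zero Complex.I_ne_zero hz0)
      exact mul_ne_zero two_ne_zero hpi)]
    rw [hw]
    field_simp
    linear_combination (-4 * Real.pi : ℂ) * hgC + (2 * b * I * z * q + 4 * Real.pi * a * b - 4 * Real.pi) * hI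
  rw [e2, e1, hw] at h1
  rw [h1]
  have e3 : (2 * Real.pi / (I * q * z) * (q * (I * z / (2 * Real.pi))) : ℂ) = 1 := by
    field_simp
  have e4 : ∀ A B C D F : ℂ, A * B = 1 → C * D = 1 →
      F = A * C ^ k * (B * D ^ k * F) := by
    intro A B C D F hAB hCD
    calc F = (A * B) * (C * D) ^ k * F := by rw [hAB, hCD, one_pow, one_mul, one_mul]
      _ = _ := by rw [mul_pow]; ring
  exact e4 _ _ _ _ _ hψ e3

theorem pre_lamC (hk : 1 ≤ k) (hf : IsNewfC N k ψ f η) :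
    Pre k N (lamC f) (fun a => conj (ψ (a : ZMod N))) where
  k_pos := hk
  N_pos := Nat.pos_of_ne_zero (NeZero.ne N)
  zero := lamC_zero f
  pol := by
    obtain ⟨C, hC⟩ := coeff_boundC f (by exact_mod_cast hk)
    refine ⟨|C|, k, fun n => ?_⟩
    rw [aa_lamC]
    rcases Nat.eq_zero_or_pos n with rfl | hn
    · rw [coeff_zeroC, norm_zero]
      positivity
    · have h1 := hC n hn
      have hx1 : (1 : ℝ) ≤ n := by exact_mod_cast hn
      refine h1.trans ?_
      have h2 : (n : ℝ) ^ (((k : ℤ) : ℝ) / 2) ≤ (n : ℝ) ^ k := by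
        rw [← Real.rpow_natCast]
        apply Real.rpow_le_rpow_of_exponent_le hx1
        have : (0 : ℝ) ≤ k := Nat.cast_nonneg k
        rw [Int.cast_natCast]
        linarith
      calc C * (n : ℝ) ^ (((k : ℤ) : ℝ) / 2) ≤ |C| * (n : ℝ) ^ (((k : ℤ) : ℝ) / 2) :=
            mul_le_mul_of_nonneg_right (le_abs_self C) (by positivity)
        _ ≤ _ := mul_le_mul_of_nonneg_left h2 (abs_nonneg C)
  bd := bd_lamC f
  ch_le := fun a => by
    rw [Complex.norm_conj]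
    exact ψ.norm_le_one _
  ch_per := fun a b hab => by
    have h1 : ((a : ℤ) : ZMod N) = ((b : ℤ) : ZMod N) := by
      rw [← sub_eq_zero, ← Int.cast_sub]
      exact (ZMod.intCast_zmod_eq_zero_iff_dvd _ _).2 hab
    simp only [h1]
  cusp := fun q a b hq hN hab z hz => cusp_lamC hf q a b hq hN hab z hz

theorem Ph_conj (f : CuspForm (Gamma1 N : Subgroup (GL (Fin 2) ℝ)) (k : ℤ)) (z : ℂ) :
    Ph k (fun n => conj (lamC f n)) z = conj (Ph k (lamC f) (conj z)) := by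
  unfold Ph
  rw [Complex.conj_tsum]
  refine tsum_congr fun n => ?_
  rw [map_mul, ← Complex.exp_conj]
  unfold aa
  rw [map_mul, Complex.conj_ofReal, map_neg, map_mul, Complex.conj_natCast, Complex.conj_conj]

theorem fricke_lamC (hf : IsNewfC N k ψ f η) (z : ℂ) (hz : 0 < z.re) :
    Ph k (lamC f) (4 * Real.pi ^ 2 / (N * z)) =
      η * ((Real.sqrt N : ℝ) * z / (2 * Real.pi)) ^ k * Ph k (fun n => conj (lamC f n)) z := by
  have hz0 : z ≠ 0 := by
    intro h; rw [h] at hz; simp at hz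
  have hN0 : (0 : ℝ) < N := by exact_mod_cast Nat.pos_of_ne_zero (NeZero.ne N)
  have hNC : (N : ℂ) ≠ 0 := by exact_mod_cast NeZero.ne N
  have hpi : (Real.pi : ℂ) ≠ 0 := by exact_mod_cast Real.pi_ne_zero
  have hpi0 := Real.pi_pos
  have hre : 0 < (4 * Real.pi ^ 2 / (N * z) : ℂ).re := by
    have h1 : (4 * Real.pi ^ 2 / (N * z) : ℂ) = ((4 * Real.pi ^ 2 / N : ℝ) : ℂ) * z⁻¹ := by
      push_cast
      field_simp
    rw [h1, Complex.re_ofReal_mul, Complex.inv_re]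
    have := Complex.normSq_pos.2 hz0
    positivity
  have hzc : 0 < (conj z).re := by rwa [Complex.conj_re]
  rw [Ph_conj, Ph_lamC f hre, Ph_lamC f hzc]
  have h1 := hf.fricke (ofComplex (I * z / (2 * Real.pi)))
    (ofComplex (I * (4 * Real.pi ^ 2 / (N * z)) / (2 * Real.pi)))
    (ofComplex (I * conj z / (2 * Real.pi))) (by
      rw [ofComplex_apply_of_im_pos (im_of_re hz), ofComplex_apply_of_im_pos (im_of_re hre)]
      show I * (4 * Real.pi ^ 2 / (N * z)) / (2 * Real.pi) * (N * (I * z / (2 * Real.pi))) = -1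
      field_simp
      rw [Complex.I_sq]
      ring) (by
      rw [ofComplex_apply_of_im_pos (im_of_re hzc), ofComplex_apply_of_im_pos (im_of_re hz)]
      show I * conj z / (2 * Real.pi) = -conj (I * z / (2 * Real.pi))
      rw [map_div₀, map_mul, map_mul, Complex.conj_I, Complex.conj_ofReal, map_ofNat]
      ring)
  rw [h1]
  congr 2
  rw [ofComplex_apply_of_im_pos (im_of_re hz), zpow_natCast]
  congr 1
  show ((Real.sqrt N : ℝ) : ℂ) * (I * z / (2 * Real.pi)) / I = _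
  field_simp

/-- the mean square over the primes -/
theorem rs_lamC (hk : 1 ≤ k) (hf : IsNewfC N k ψ f η) : ∃ C : ℝ, ∀ x : ℝ, 2 ≤ x →
    ∑ p ∈ (Finset.Icc 1 ⌊x⌋₊).filter Nat.Prime, ‖lamC f p‖ ^ 2 * Real.log p / p ≤ 4 * Real.log x + C := by
  obtain ⟨θ, lam, hθ, hθ1, hθ2, hH, hlam⟩ := W388.reduce ψ (lamC f) (lamC_zero f) (lamC_one hf)
    (lamC_mul hf) (lamC_pow hf) (fun p hp hpN => lamC_conj hf p
      ((Nat.Prime.coprime_iff_not_dvd hp).mpr hpN))
  have hk' : (1 : ℤ) ≤ (k : ℤ) := by exact_mod_cast hk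
  have hn : ∀ n : ℕ, n ≠ 0 → ‖lamC f n‖ = ‖(lam n : ℂ)‖ := by
    intro n hn
    rw [hlam n, norm_mul, hθ1 n hn, one_mul]
  have hR : W388.RSLim lam := by
    have h1 := W388.p_rsC N k hk' ψ f hf.neb hf.one
    have h2 : ∀ n : ℕ, ‖lamC f n‖ ^ 2 = lam n ^ 2 := by
      intro n
      rcases eq_or_ne n 0 with rfl | hn0
      · rw [hlam 0, hθ.zero, hH.zero]; simp
      · rw [hn n hn0, Complex.norm_real, Real.norm_eq_abs, sq_abs]
    unfold W388.RSLim at h1 ⊢
    simp only [h2] at h1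
    exact h1
  have hS := (p_sel N (Nat.pos_of_ne_zero (NeZero.ne N)) lam hH hR).1
  obtain ⟨C, hC⟩ := rs_of_sel hS
  refine ⟨C, fun x hx => ?_⟩
  refine le_trans (le_of_eq ?_) (hC x hx)
  refine Finset.sum_congr rfl fun p hp => ?_
  rw [hn p (Finset.mem_filter.1 hp).2.ne_zero]

/-- **Every newform is a form.** -/
theorem frm_newfC (hk : 1 ≤ k) (hf : IsNewfC N k ψ f η) : Frm k N (fun p => ψ (p : ZMod N)) (lamC f) := by
  have hP := pre_lamC hk hf
  refine ⟨hP.k_pos, hP.N_pos, hP.zero, lamC_one hf, lamC_mul hf, lamC_pow hf, fun p => ψ.norm_le_one _,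
    hP.ram, rs_lamC hk hf, hP.bd, ⟨fun a => conj (ψ (a : ZMod N)), fun a ha => ?_, hP.cusp⟩,
    ⟨η, hf.sign, fun z hz => fricke_lamC hf z hz⟩⟩
  rw [Complex.norm_conj]
  have hu : IsUnit ((a : ℤ) : ZMod N) := by
    obtain ⟨x, y, hxy⟩ := ha
    refine IsUnit.of_mul_eq_one ((x : ℤ) : ZMod N) ?_
    have h1 : ((x * a + y * N : ℤ) : ZMod N) = ((1 : ℤ) : ZMod N) := by rw [hxy]
    push_cast at h1
    rw [ZMod.natCast_self, mul_zero, add_zero] at h1
    rw [mul_comm]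
    exact h1
  obtain ⟨u, hu⟩ := hu
  rw [← hu]
  exact DirichletCharacter.unit_norm_eq_one ψ u

end Pool.Agent.Q246.NC
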