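import Pool.Agent.Q246.NC.Lam
import Pool.Agent.Y671.GL.Fin

set_option autoImplicit false

/-!
# Zeros off the line, and the class of good completed L-functions
-/

namespace Pool.Agent.Q246.NC

open UpperHalfPlane hiding I
open MatrixGroups CongruenceSubgroup Filter Topology Complex
open Pool.Agent.Y671.GL
open Pool.Agent.Y693.GL (GY gy_one gy_mul)
open W388 (IsNewfC lamC lamC_zero)
open Pool.Agent.Y771.NF (ordNat_symm ord_L half_sum)
open scoped ComplexConjugate

/-- the L-function of a form, with growth in both half planes -/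
theorem lfn_ofC {N : ℕ} [NeZero N] {k : ℕ} (hk : 1 ≤ k) {Z : ℂ → ℂ} (hFE : W388.FE2 k N 1 Z) {ps lam : ℕ → ℂ}
    (hfm : Frm k N ps lam) (hL : IsL lam Z) : Pool.Agent.Y24.GL.LFn Z where
  diff := hL.diff
  low := by
    obtain ⟨c, K, hc, -, h⟩ := rgt_of hfm hL 1 one_pos
    exact ⟨c, hc, fun z hz => (h z (by linarith)).1⟩
  ne := fun z hz h0 => by
    obtain ⟨c, K, hc, -, h⟩ := rgt_of hfm hL (z.re - 1) (by linarith)
    have := (h z (by linarith)).1
    rw [h0, norm_zero] at this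
    linarith
  gro := fun A => by
    have hN : 1 ≤ N := Nat.one_le_iff_ne_zero.2 (NeZero.ne N)
    have hgen : ∀ (ps lam : ℕ → ℂ) (Z : ℂ → ℂ), W388.FE2 k N 1 Z → Frm k N ps lam → IsL lam Z →
        ∃ (C : ℝ) (B : ℕ), 0 < C ∧ ∀ z : ℂ, 1 / 4 ≤ z.re → 1 ≤ z.im → ‖Z z‖ ≤ C * (1 + |z.im|) ^ B := by
      intro ps lam Z hFE hfm hL
      obtain ⟨a, ha⟩ := gro_Z hk hFE hfm hL
      refine ⟨|a| + 1, ⌈|a|⌉₊, by positivity, fun z h1 h2 => ?_⟩
      have h3 := ha z (by linarith) h2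
      have h4 : |z.im| = z.im := abs_of_nonneg (by linarith)
      rw [h4]
      have h5 : z.im ^ a ≤ (1 + z.im) ^ ⌈|a|⌉₊ := by
        calc z.im ^ a ≤ z.im ^ (⌈|a|⌉₊ : ℝ) := by
              apply Real.rpow_le_rpow_of_exponent_le h2
              exact (le_abs_self a).trans (Nat.le_ceil _)
          _ = z.im ^ ⌈|a|⌉₊ := Real.rpow_natCast _ _
          _ ≤ _ := by gcongr; linarith
      calc ‖Z z‖ ≤ a * z.im ^ a := h3
        _ ≤ |a| * z.im ^ a := by
            apply mul_le_mul_of_nonneg_right (le_abs_self a) (by positivity)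
        _ ≤ (|a| + 1) * (1 + z.im) ^ ⌈|a|⌉₊ := by
            gcongr
            linarith
    obtain ⟨C1, B1, hC1, h1⟩ := hgen ps lam Z hFE hfm hL
    obtain ⟨C2, B2, hC2, h2⟩ := hgen _ _ _ (FE2.cj hN hFE) (Frm.cj hfm) (IsL.cj hL)
    have hK : IsCompact (Set.Icc (1 / 4) A ×ℂ Set.Icc (-1) 1) := isCompact_Icc.reProdIm isCompact_Icc
    obtain ⟨M, hM⟩ := hK.exists_bound_of_continuousOn hL.diff.continuous.continuousOn
    refine ⟨C1 + C2 + |M|, max B1 B2, by positivity, fun z h3 h4 => ?_⟩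
    have hb : (1 : ℝ) ≤ 1 + |z.im| := by linarith [abs_nonneg z.im]
    have e1 : (1 + |z.im|) ^ B1 ≤ (1 + |z.im|) ^ (max B1 B2) := pow_le_pow_right₀ hb (le_max_left _ _)
    have e2 : (1 + |z.im|) ^ B2 ≤ (1 + |z.im|) ^ (max B1 B2) := pow_le_pow_right₀ hb (le_max_right _ _)
    have e3 : 1 ≤ (1 + |z.im|) ^ (max B1 B2) := one_le_pow₀ hb
    have hM0 := abs_nonneg M
    obtain ⟨P, hP⟩ : ∃ P : ℝ, P = (1 + |z.im|) ^ (max B1 B2) := ⟨_, rfl⟩
    rw [← hP] at e1 e2 e3 ⊢
    rcases le_or_gt 1 z.im with h5 | h5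
    · refine (h1 z h3 h5).trans ?_
      calc C1 * (1 + |z.im|) ^ B1 ≤ C1 * P := by gcongr
        _ ≤ _ := by nlinarith
    · rcases le_or_gt z.im (-1) with h6 | h6
      · have h7 := h2 (conj z) (by rwa [Complex.conj_re]) (by rw [Complex.conj_im]; linarith)
        rw [Complex.conj_conj, Complex.norm_conj, Complex.conj_im, abs_neg] at h7
        refine h7.trans ?_
        calc C2 * (1 + |z.im|) ^ B2 ≤ C2 * P := by gcongr
          _ ≤ _ := by nlinarith
      · refine (hM z ⟨⟨h3, h4⟩, ⟨h6.le, h5.le⟩⟩).trans ?_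
        have := le_abs_self M
        nlinarith

/-- The number of zeros at distance at least `d` from the line is at most `C T^(1 - c d) log T`, for every
`c < 1`. -/
def OffB (X : ℂ → ℂ) : Prop := ∀ c : ℝ, c < 1 → ∃ C : ℝ, 0 < C ∧ ∀ d T : ℝ, 0 ≤ d → 2 ≤ T → ∀ S : Finset ℂ,
  (∀ s ∈ S, X s = 0 ∧ d ≤ |s.re| ∧ 0 < s.im ∧ s.im ≤ T) →
  ∑ s ∈ S, (analyticOrderNatAt X s : ℝ) ≤ C * T ^ (1 - c * d) * Real.log T

theorem offB_of {N : ℕ} [NeZero N] {k : ℕ} (hk : 1 ≤ k) {Z : ℂ → ℂ} (hFE : W388.FE2 k N 1 Z) {ps lam : ℕ → ℂ}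
    (hF : Frm k N ps lam) (hL : IsL lam Z) {c0 : ℝ} {u0 : ℂ} {X : ℂ → ℂ} (hD : LData k c0 u0 X Z) : OffB X := by
  intro c hc
  have hstrip := strip_of hF hL hD
  have hlfn := lfn_ofC hk hFE hF hL
  obtain ⟨C, hC, h⟩ := Pool.Agent.Y24.GL.density hlfn
    (fun κ h1 h2 => Pool.Agent.Y24.GL.mol hF hL (by linarith) h2.le) hc
  have hX := hD.diff
  refine ⟨2 * C, by positivity, fun d T hd hT S hS => ?_⟩
  have hlog : 0 ≤ Real.log T := Real.log_nonneg (by linarith)
  have hT0 : 0 ≤ T := by linarith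
  have hpow : 0 ≤ T ^ (1 - c * d) := Real.rpow_nonneg hT0 _
  rcases le_or_gt d (1 / 2) with hd2 | hd2
  · have hB := h (1 / 2 + d) T (by linarith) (by linarith) hT
    rw [add_sub_cancel_left] at hB
    rw [← Finset.sum_filter_add_sum_filter_not S (fun w => d ≤ w.re)]
    have hZ0 : ∀ w : ℂ, 0 < w.im → X w = 0 → Z (1 / 2 + w) = 0 := by
      intro w hw h0
      rw [hD.eq w (Or.inl hw)] at h0
      refine (mul_eq_zero.1 h0).resolve_left ?_
      refine mul_ne_zero hD.u_ne (mul_ne_zero ?_ ?_)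
      · rw [Ne, Complex.cpow_eq_zero_iff]
        intro h
        have := hD.c_pos.ne'
        exact this (by exact_mod_cast h.1)
      · apply Complex.Gamma_ne_zero
        intro m hm
        have := congrArg Complex.im hm
        simp at this
        linarith
    have hp : ∑ w ∈ S.filter (fun w => d ≤ w.re), (analyticOrderNatAt X w : ℝ) ≤
        C * T ^ (1 - c * d) * Real.log T := by
      refine half_sum (φ := fun w => 1 / 2 + w) (fun a _ b _ hab => add_left_cancel hab) ?_ ?_ hB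
      · intro w hw
        obtain ⟨h1, h2⟩ := Finset.mem_filter.1 hw
        obtain ⟨h3, h4, h5, h6⟩ := hS w h1
        refine ⟨hZ0 w h5 h3, ?_, ?_, ?_⟩
        · simp
          linarith
        · simp
          exact h5
        · simp
          exact h6
      · intro w hw
        obtain ⟨h1, h2⟩ := Finset.mem_filter.1 hw
        obtain ⟨h3, h4, h5, h6⟩ := hS w h1
        exact ord_L hk hD hL.diff h5
    have hm : ∑ w ∈ S.filter (fun w => ¬ d ≤ w.re), (analyticOrderNatAt X w : ℝ) ≤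
        C * T ^ (1 - c * d) * Real.log T := by
      refine half_sum (φ := fun w => 1 / 2 + -(conj w)) (fun a _ b _ hab => ?_) ?_ ?_ hB
      · have h1 : -(conj a) = -(conj b) := add_left_cancel hab
        exact (starRingEnd ℂ).injective (neg_injective h1)
      · intro w hw
        obtain ⟨h1, h2⟩ := Finset.mem_filter.1 hw
        obtain ⟨h3, h4, h5, h6⟩ := hS w h1
        have h7 : X (-(conj w)) = 0 := by
          rw [hD.symm, h3, map_zero]
        have him : (-(conj w)).im = w.im := by simp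
        have hre : (-(conj w)).re = -w.re := by simp
        refine ⟨hZ0 _ (by rw [him]; exact h5) h7, ?_, ?_, ?_⟩
        · have h8 : d ≤ -w.re := by
            rcases le_abs.1 h4 with h9 | h9
            · exact absurd h9 h2
            · exact h9
          simp
          linarith
        · simp
          exact h5
        · simp
          exact h6
      · intro w hw
        obtain ⟨h1, h2⟩ := Finset.mem_filter.1 hw
        obtain ⟨h3, h4, h5, h6⟩ := hS w h1
        have him : (-(conj w)).im = w.im := by simp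
        rw [← ordNat_symm hX hD.symm w]
        exact ord_L hk hD hL.diff (by rw [him]; exact h5)
    calc _ ≤ C * T ^ (1 - c * d) * Real.log T + C * T ^ (1 - c * d) * Real.log T := add_le_add hp hm
      _ = _ := by ring
  · have hemp : S = ∅ := by
      rw [Finset.eq_empty_iff_forall_notMem]
      intro w hw
      obtain ⟨h3, h4, -, -⟩ := hS w hw
      have := hstrip w h3
      linarith
    rw [hemp, Finset.sum_empty]
    positivity

/-! ## Orders -/

/-- an entire function which is not zero has finite orders -/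
theorem ord_ne_top {X : ℂ → ℂ} (hX : Differentiable ℂ X) (hne : ∃ z, X z ≠ 0) (s : ℂ) :
    analyticOrderAt X s ≠ ⊤ := by
  intro h
  rw [analyticOrderAt_eq_top] at h
  obtain ⟨z, hz⟩ := hne
  have h2 := AnalyticOnNhd.eq_of_eventuallyEq (f := X) (g := fun _ => 0) (z₀ := s)
    (fun w _ => hX.analyticAt w) (fun w _ => analyticAt_const) h
  exact hz (congrFun h2 z)

theorem ordNat_mul {X Y : ℂ → ℂ} (hX : Differentiable ℂ X) (hY : Differentiable ℂ Y) (hXn : ∃ z, X z ≠ 0)
    (hYn : ∃ z, Y z ≠ 0) (s : ℂ) : analyticOrderNatAt (fun w => X w * Y w) s =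
    analyticOrderNatAt X s + analyticOrderNatAt Y s := by
  unfold analyticOrderNatAt
  have h1 : analyticOrderAt (fun w => X w * Y w) s = analyticOrderAt X s + analyticOrderAt Y s :=
    analyticOrderAt_mul (hX.analyticAt s) (hY.analyticAt s)
  rw [h1, ENat.toNat_add (ord_ne_top hX hXn s) (ord_ne_top hY hYn s)]

theorem ordNat_zero {X : ℂ → ℂ} {s : ℂ} (hX : Differentiable ℂ X) (h : X s ≠ 0) : analyticOrderNatAt X s = 0 := by
  unfold analyticOrderNatAt
  rw [(hX.analyticAt s).analyticOrderAt_eq_zero.2 h]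
  rfl

/-- a sum of orders restricted to the zeros -/
theorem sum_zeros {X : ℂ → ℂ} (hX : Differentiable ℂ X) [DecidablePred fun s => X s = 0] (S : Finset ℂ) :
    ∑ s ∈ S, (analyticOrderNatAt X s : ℝ) = ∑ s ∈ S.filter (fun s => X s = 0), (analyticOrderNatAt X s : ℝ) := by
  rw [Finset.sum_filter]
  refine Finset.sum_congr rfl fun s _ => ?_
  split_ifs with h
  · rfl
  · rw [ordNat_zero hX h, Nat.cast_zero]

theorem offB_mul {X Y : ℂ → ℂ} (hX : Differentiable ℂ X) (hY : Differentiable ℂ Y) (hXn : ∃ z, X z ≠ 0)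
    (hYn : ∃ z, Y z ≠ 0) (h1 : OffB X) (h2 : OffB Y) : OffB (fun w => X w * Y w) := by
  classical
  intro c hc
  obtain ⟨C1, hC1, g1⟩ := h1 c hc
  obtain ⟨C2, hC2, g2⟩ := h2 c hc
  refine ⟨C1 + C2, by positivity, fun d T hd hT S hS => ?_⟩
  have e1 : ∑ s ∈ S, (analyticOrderNatAt (fun w => X w * Y w) s : ℝ) =
      ∑ s ∈ S.filter (fun s => X s = 0), (analyticOrderNatAt X s : ℝ) +
        ∑ s ∈ S.filter (fun s => Y s = 0), (analyticOrderNatAt Y s : ℝ) := by
    rw [← sum_zeros hX, ← sum_zeros hY, ← Finset.sum_add_distrib]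
    refine Finset.sum_congr rfl fun s _ => ?_
    rw [ordNat_mul hX hY hXn hYn]
    push_cast
    rfl
  have b1 := g1 d T hd hT (S.filter (fun s => X s = 0)) (by
    intro s hs
    obtain ⟨k1, k2⟩ := Finset.mem_filter.1 hs
    exact ⟨k2, (hS s k1).2⟩)
  have b2 := g2 d T hd hT (S.filter (fun s => Y s = 0)) (by
    intro s hs
    obtain ⟨k1, k2⟩ := Finset.mem_filter.1 hs
    exact ⟨k2, (hS s k1).2⟩)
  rw [e1]
  calc _ ≤ C1 * T ^ (1 - c * d) * Real.log T + C2 * T ^ (1 - c * d) * Real.log T := add_le_add b1 b2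
    _ = _ := by ring

/-! ## The class -/

/-- A completed L-function with the properties that are used, of degree `2 κ`. -/
structure Cls (κ : ℝ) (Λ : ℂ → ℂ) : Prop where
  half : 1 / 2 ≤ κ
  diff : Differentiable ℂ Λ
  gy : ∃ (v : ℂ) (H Z : ℂ → ℂ), v ≠ 0 ∧ GY κ H (fun z => v * Λ (1 / 2 + z)) Z
  strip : ∀ z : ℂ, Λ (1 / 2 + z) = 0 → |z.re| ≤ 1 / 2
  off : OffB (fun z => Λ (1 / 2 + z))

theorem ordNat_const {X : ℂ → ℂ} {v : ℂ} (hv : v ≠ 0) (hX : Differentiable ℂ X) (s : ℂ) :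
    analyticOrderNatAt (fun z => v * X z) s = analyticOrderNatAt X s := by
  unfold analyticOrderNatAt
  have h1 : analyticOrderAt (fun z => v * X z) s = analyticOrderAt (fun _ : ℂ => v) s + analyticOrderAt X s :=
    analyticOrderAt_mul analyticAt_const (hX.analyticAt s)
  have h2 : analyticOrderAt (fun _ : ℂ => v) s = 0 := analyticAt_const.analyticOrderAt_eq_zero.2 hv
  rw [h1, h2, zero_add]

theorem Cls.mul {κ κ' : ℝ} {Λ Λ' : ℂ → ℂ} (h : Cls κ Λ) (h' : Cls κ' Λ') : Cls (κ + κ') (fun s => Λ s * Λ' s) where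
  half := by have := h.half; have := h'.half; linarith
  diff := h.diff.mul h'.diff
  gy := by
    obtain ⟨v, H, Z, hv, g⟩ := h.gy
    obtain ⟨v', H', Z', hv', g'⟩ := h'.gy
    have h1 := gy_mul g g'
    refine ⟨v * v', fun w => H w * H' w, fun w => Z w * Z' w, mul_ne_zero hv hv', ?_⟩
    have h2 : (fun z => v * v' * (Λ (1 / 2 + z) * Λ' (1 / 2 + z))) =
        fun z => (v * Λ (1 / 2 + z)) * (v' * Λ' (1 / 2 + z)) := by
      funext z; ring
    rw [h2]
    exact h1
  strip := fun z hz => by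
    rcases mul_eq_zero.1 hz with h1 | h1
    · exact h.strip z h1
    · exact h'.strip z h1
  off := by
    have e : ∀ {κ : ℝ} {Λ : ℂ → ℂ}, Cls κ Λ → ∃ z, Λ (1 / 2 + z) ≠ 0 := fun h => ⟨1, fun h0 => by
      have := h.strip 1 h0
      norm_num at this⟩
    exact offB_mul (h.diff.comp (by fun_prop)) (h'.diff.comp (by fun_prop)) (e h) (e h') h.off h'.off

section newf

variable {N : ℕ} [NeZero N] {k : ℕ} {ψ : DirichletCharacter ℂ N}
  {f : CuspForm (Gamma1 N : Subgroup (GL (Fin 2) ℝ)) (k : ℤ)} {η : ℂ}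

/-- **Newforms with nebentypus.** -/
theorem cls_newf (hk : 1 ≤ k) (hf : IsNewfC N k ψ f η) {Λ : ℂ → ℂ} (hΛ : Differentiable ℂ Λ)
    (hser : ∃ σ : ℝ, ∀ s : ℂ, σ ≤ s.re → Λ s = comp f s)
    (hw : ∃ w : ℂ, ‖w‖ = 1 ∧ ∀ s : ℂ, Λ (1 - s) = w * conj (Λ (conj s))) : Cls 1 Λ := by
  obtain ⟨w, hw1, hw⟩ := hw
  obtain ⟨v, hv, hvw⟩ := exists_v hw1
  obtain ⟨Z, hFE, hL⟩ := exists_ZC hk hf
  have hF := frm_newfC hk hf
  obtain ⟨u0, hD⟩ := ldataC hk hf hFE hL hΛ hser hw hv hvw
  have hstrip := strip_of hF hL hD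
  have hd : Differentiable ℂ (fun z => Λ (1 / 2 + z)) := hΛ.comp (by fun_prop)
  refine ⟨by norm_num, hΛ, ⟨v, _, Z, hv, gy_one (gg_of hF hL hD)⟩, fun z hz => ?_, ?_⟩
  · refine hstrip z ?_
    show v * Λ (1 / 2 + z) = 0
    rw [hz, mul_zero]
  · intro c hc
    obtain ⟨C, hC, h⟩ := offB_of hk hFE hF hL hD c hc
    refine ⟨C, hC, fun d T hd0 hT S hS => ?_⟩
    have h1 := h d T hd0 hT S (fun s hs => by
      obtain ⟨k1, k2⟩ := hS s hs
      refine ⟨?_, k2⟩
      show v * Λ (1 / 2 + s) = 0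
      have k3 : Λ (1 / 2 + s) = 0 := k1
      rw [k3, mul_zero])
    refine le_trans (le_of_eq ?_) h1
    refine Finset.sum_congr rfl fun s _ => ?_
    rw [ordNat_const hv hd]

end newf

end Pool.Agent.Q246.NC
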