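import Pool.Agent.Y412.GL.ARC
import Pool.Agent.Y771.NF.Ram
import Pool.Agent.Y771.NF.Fej

set_option autoImplicit false

/-!
# A pointwise bound for the eigenvalues, by Jutila's circle method and Weil's bound
-/

namespace Pool.Agent.Q246.NC

open Complex Finset MeasureTheory
open scoped ComplexConjugate
open Pool.Agent.Y671.GL
open Pool.Agent.Y412.GL (bessel exp_sum sum_units norm_phase int_exp)
open Pool.Agent.H442R2.KF.TaskB (Kl)
open Pool.Agent.Y771.NF (geo_mult kl_bound gn norm_D gn_periodic fej_nonneg fej_integral fej_le integral_inv)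

structure Pre (k N : ℕ) (lam : ℕ → ℂ) (ch : ℤ → ℂ) : Prop where
  k_pos : 1 ≤ k
  N_pos : 1 ≤ N
  zero : lam 0 = 0
  pol : ∃ (C : ℝ) (m : ℕ), ∀ n : ℕ, ‖aa k lam n‖ ≤ C * (n : ℝ) ^ m
  bd : ∃ C : ℝ, ∀ z : ℂ, 0 < z.re → ‖Ph k lam z‖ ≤ C * z.re ^ (-((k : ℝ) / 2))
  ch_le : ∀ a : ℤ, ‖ch a‖ ≤ 1
  ch_per : ∀ a b : ℤ, (N : ℤ) ∣ a - b → ch a = ch b
  cusp : ∀ (q : ℕ) (a b : ℤ), 1 ≤ q → N ∣ q → (q : ℤ) ∣ a * b - 1 → (∀ z : ℂ, 0 < z.re →
      Ph k lam (z + 2 * Real.pi * I * a / q) = ch a * (2 * Real.pi / (I * q * z)) ^ k *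
        Ph k lam (4 * Real.pi ^ 2 / (q ^ 2 * z) - 2 * Real.pi * I * b / q))

variable {k N : ℕ} {lam : ℕ → ℂ} {ch : ℤ → ℂ}

theorem Pre.aa_zero (h : Pre k N lam ch) : aa k lam 0 = 0 := by
  unfold aa; rw [h.zero, zero_mul]

theorem Pre.summ (h : Pre k N lam ch) {y : ℝ} (hy : 0 < y) :
    Summable (fun n : ℕ => ‖aa k lam n‖ * Real.exp (-(n * y))) := by
  obtain ⟨C, m, hC⟩ := h.pol
  have h1 : Summable (fun n : ℕ => (n : ℝ) ^ m * Real.exp (-y * n)) :=
    Real.summable_pow_mul_exp_neg_nat_mul m hy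
  refine Summable.of_nonneg_of_le (fun n => by positivity) (fun n => ?_) (h1.mul_left C)
  rw [show -(n * y) = -y * n by ring]
  calc _ ≤ C * (n : ℝ) ^ m * Real.exp (-y * n) := mul_le_mul_of_nonneg_right (hC n) (Real.exp_nonneg _)
    _ = _ := by ring

theorem Pre.sq_sum (h : Pre k N lam ch) : ∃ C : ℝ, 0 < C ∧ ∀ y : ℝ, 0 < y → ∀ s : Finset ℕ,
    ∑ n ∈ s, (‖aa k lam n‖ * Real.exp (-(n * y))) ^ 2 ≤ C ^ 2 * y ^ (-(k : ℝ)) := by
  obtain ⟨C, hC⟩ := h.bd
  refine ⟨|C| + 1, by positivity, fun y hy s => ?_⟩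
  have hn : ∀ n : ℕ, ‖aa k lam n * cexp (-(n * y))‖ = ‖aa k lam n‖ * Real.exp (-(n * y)) := by
    intro n
    rw [norm_mul, Complex.norm_exp]
    congr 2
    rw [neg_re, ← Complex.ofReal_natCast n, Complex.re_ofReal_mul, Complex.ofReal_re]
  have hb := bessel (fun n => aa k lam n * cexp (-(n * y)))
    ((h.summ hy).congr fun n => (hn n).symm)
    (fun x => Ph k lam (y + 2 * Real.pi * I * x)) (by
      intro x
      unfold Ph
      refine tsum_congr fun n => ?_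
      rw [mul_assoc (aa k lam n), ← Complex.exp_add]
      congr 2
      ring) ((|C| + 1) * y ^ (-((k : ℝ) / 2))) (by
      intro x
      have hre : (y + 2 * Real.pi * I * x : ℂ).re = y := by simp
      have := hC (y + 2 * Real.pi * I * x) (by rw [hre]; exact hy)
      rw [hre] at this
      refine this.trans (mul_le_mul_of_nonneg_right ?_ (by positivity))
      linarith [le_abs_self C]) s
  simp_rw [hn] at hb
  refine hb.trans (le_of_eq ?_)
  rw [mul_pow, ← Real.rpow_natCast (y ^ _) 2, ← Real.rpow_mul hy.le]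
  congr 2
  push_cast
  ring

/-- sums over the multiples of `d` -/
theorem Pre.sumd (h : Pre k N lam ch) : ∃ C : ℝ, 0 < C ∧ ∀ (d : ℕ) (y : ℝ), 1 ≤ d → 0 < y →
    ∑' n : ℕ, (if d ∣ n then ‖aa k lam n‖ * Real.exp (-(n * y)) else 0) ≤
      C * (Real.sqrt d)⁻¹ * y ^ (-(((k : ℝ) + 1) / 2)) := by
  obtain ⟨C, hC, hQ⟩ := h.sq_sum
  have hz := h.aa_zero
  refine ⟨C * 2 ^ k, by positivity, fun d y hd hy => ?_⟩
  have hd0 : (0 : ℝ) < d := by exact_mod_cast hd
  have hnn : ∀ n : ℕ, 0 ≤ (if d ∣ n then ‖aa k lam n‖ * Real.exp (-(n * y)) else 0) := fun n => by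
    split_ifs <;> positivity
  refine Real.tsum_le_of_sum_le hnn fun s => ?_
  have h1 : ∑ n ∈ s, (if d ∣ n then ‖aa k lam n‖ * Real.exp (-(n * y)) else 0) =
      ∑ n ∈ s, (‖aa k lam n‖ * Real.exp (-(n * (y / 2)))) *
        (if d ∣ n ∧ n ≠ 0 then Real.exp (-(y / 2)) ^ n else 0) := by
    refine Finset.sum_congr rfl fun n _ => ?_
    rcases Nat.eq_zero_or_pos n with rfl | hn
    · simp [hz]
    · by_cases hdn : d ∣ n
      · rw [if_pos hdn, if_pos ⟨hdn, hn.ne'⟩, mul_assoc]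
        congr 1
        rw [← Real.exp_nat_mul, ← Real.exp_add]
        congr 1
        ring
      · rw [if_neg hdn, if_neg (fun h => hdn h.1), mul_zero]
  have h2 := Finset.sum_mul_sq_le_sq_mul_sq s
    (fun n : ℕ => ‖aa k lam n‖ * Real.exp (-(n * (y / 2))))
    (fun n : ℕ => if d ∣ n ∧ n ≠ 0 then Real.exp (-(y / 2)) ^ n else 0)
  have h3 := hQ (y / 2) (by positivity) s
  have h4 : ∑ n ∈ s, (if d ∣ n ∧ n ≠ 0 then Real.exp (-(y / 2)) ^ n else 0) ^ 2 ≤ 1 / (d * y) := by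
    refine le_trans (le_of_eq ?_) (geo_mult d hd hy s)
    refine Finset.sum_congr rfl fun n _ => ?_
    split_ifs
    · rw [← pow_mul, mul_comm, pow_mul]
      congr 1
      rw [← Real.exp_nat_mul]
      congr 1
      push_cast
      ring
    · norm_num
  have hk : (1 : ℝ) ≤ k := by exact_mod_cast h.k_pos
  have h5 : (∑ n ∈ s, (if d ∣ n then ‖aa k lam n‖ * Real.exp (-(n * y)) else 0)) ^ 2 ≤
      (C ^ 2 * (y / 2) ^ (-(k : ℝ))) * (1 / (d * y)) := by
    rw [h1]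
    refine h2.trans (mul_le_mul h3 h4 (Finset.sum_nonneg fun n _ => by positivity) (by positivity))
  have h6 : (C ^ 2 * (y / 2) ^ (-(k : ℝ))) * (1 / (d * y)) ≤
      (C * 2 ^ k * (Real.sqrt d)⁻¹ * y ^ (-(((k : ℝ) + 1) / 2))) ^ 2 := by
    rw [mul_pow, mul_pow (C * 2 ^ k), inv_pow, Real.sq_sqrt hd0.le, ← Real.rpow_natCast (y ^ _) 2,
      ← Real.rpow_mul hy.le, Real.div_rpow hy.le (by norm_num)]
    have e1 : y ^ (-(((k : ℝ) + 1) / 2) * ((2 : ℕ) : ℝ)) = y ^ (-(k : ℝ)) * (1 / y) := by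
      rw [show (-(((k : ℝ) + 1) / 2) * ((2 : ℕ) : ℝ)) = -(k : ℝ) - 1 by push_cast; ring,
        Real.rpow_sub_one hy.ne']
      ring
    have e2 : (2 : ℝ) ^ (-(k : ℝ)) = ((2 : ℝ) ^ k)⁻¹ := by
      rw [Real.rpow_neg (by norm_num), Real.rpow_natCast]
    rw [e1, e2, div_inv_eq_mul, mul_pow C]
    have e3 : (1 : ℝ) ≤ 2 ^ k := one_le_pow₀ (by norm_num)
    have e4 : (0 : ℝ) ≤ C ^ 2 * y ^ (-(k : ℝ)) * (1 / (d * y)) := by positivity
    calc C ^ 2 * (y ^ (-(k : ℝ)) * 2 ^ k) * (1 / (d * y)) =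
          (C ^ 2 * y ^ (-(k : ℝ)) * (1 / (d * y))) * 2 ^ k := by ring
      _ ≤ (C ^ 2 * y ^ (-(k : ℝ)) * (1 / (d * y))) * (2 ^ k * 2 ^ k) := by
          apply mul_le_mul_of_nonneg_left _ e4
          nlinarith
      _ = _ := by field_simp
  exact abs_le_of_sq_le_sq' (h5.trans h6) (by positivity) |>.2

/-! ## The Kloosterman sums -/

/-- the Kloosterman sums with a character -/
noncomputable def KlC (ch : ℤ → ℂ) (q : ℕ) [NeZero q] (n m : ℤ) : ℂ :=
  ∑ u : (ZMod q)ˣ, ch ((u : ZMod q).val : ℤ) * ZMod.stdAddChar ((n : ZMod q) * (u : ZMod q) +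
    (m : ZMod q) * ((u⁻¹ : (ZMod q)ˣ) : ZMod q))

/-- a periodic function is a sum of exponentials -/
theorem per_exp (N : ℕ) [NeZero N] (ch : ℤ → ℂ) (hle : ∀ a, ‖ch a‖ ≤ 1)
    (hper : ∀ a b : ℤ, (N : ℤ) ∣ a - b → ch a = ch b) : ∃ d : ZMod N → ℂ, (∀ j, ‖d j‖ ≤ 1) ∧
    ∀ a : ℤ, ch a = ∑ j : ZMod N, d j * ZMod.stdAddChar (j * (a : ZMod N)) := by
  obtain ⟨c, hc⟩ : ∃ c : ZMod N → ℂ, c = fun x => ch (x.val : ℤ) := ⟨_, rfl⟩
  have hN : (0 : ℝ) < N := by exact_mod_cast Nat.pos_of_ne_zero (NeZero.ne N)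
  refine ⟨fun j => (N : ℂ)⁻¹ * ZMod.dft c j, fun j => ?_, fun a => ?_⟩
  · rw [norm_mul, norm_inv, Complex.norm_natCast, ZMod.dft_apply]
    have h1 : ‖∑ x : ZMod N, ZMod.stdAddChar (-(x * j)) • c x‖ ≤ N := by
      refine (norm_sum_le _ _).trans ?_
      refine (Finset.sum_le_card_nsmul _ _ 1 fun x _ => ?_).trans ?_
      · rw [norm_smul, AddChar.norm_apply, one_mul, hc]
        exact hle _
      · rw [Finset.card_univ, ZMod.card, nsmul_eq_mul, mul_one]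
    calc (N : ℝ)⁻¹ * _ ≤ (N : ℝ)⁻¹ * N := mul_le_mul_of_nonneg_left h1 (by positivity)
      _ = 1 := inv_mul_cancel₀ hN.ne'
  · have h1 : ch a = c (a : ZMod N) := by
      rw [hc]
      apply hper
      rw [← ZMod.intCast_zmod_eq_zero_iff_dvd]
      push_cast
      rw [ZMod.natCast_zmod_val, sub_self]
    have h2 : c = ZMod.dft.symm (ZMod.dft c) := (LinearEquiv.symm_apply_apply _ _).symm
    rw [h1]
    conv_lhs => rw [h2]
    rw [ZMod.invDFT_apply, smul_eq_mul, Finset.mul_sum]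
    refine Finset.sum_congr rfl fun j _ => ?_
    rw [smul_eq_mul]
    ring

theorem klC_eq (N : ℕ) [NeZero N] (ch : ℤ → ℂ) {d : ZMod N → ℂ}
    (hd : ∀ a : ℤ, ch a = ∑ j : ZMod N, d j * ZMod.stdAddChar (j * (a : ZMod N))) (p q : ℕ) [NeZero q]
    (hq : q = N * p) (n m : ℤ) :
    KlC ch q n m = ∑ j : ZMod N, d j * Kl q (((n + (j.val : ℤ) * p : ℤ)) : ZMod q) (m : ZMod q) := by
  have hN0 : (N : ℂ) ≠ 0 := by exact_mod_cast NeZero.ne N
  have hp0 : (p : ℂ) ≠ 0 := by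
    have : q ≠ 0 := NeZero.ne q
    rw [hq] at this
    exact_mod_cast right_ne_zero_of_mul this
  unfold KlC Kl
  simp_rw [Finset.mul_sum]
  rw [Finset.sum_comm]
  refine Finset.sum_congr rfl fun u _ => ?_
  rw [hd, Finset.sum_mul]
  refine Finset.sum_congr rfl fun j _ => ?_
  rw [mul_assoc]
  congr 1
  have e1 : (j * (((u : ZMod q).val : ℤ) : ZMod N)) = (((j.val : ℤ) * ((u : ZMod q).val : ℤ) : ℤ) : ZMod N) := by
    push_cast
    rw [ZMod.natCast_zmod_val]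
  have e2 : ∀ r : ℤ, (r : ZMod q) * (u : ZMod q) + (m : ZMod q) * ((u⁻¹ : (ZMod q)ˣ) : ZMod q) =
      ((r * ((u : ZMod q).val : ℤ) + m * (((u⁻¹ : (ZMod q)ˣ) : ZMod q).val : ℤ) : ℤ) : ZMod q) := by
    intro r
    push_cast
    rw [ZMod.natCast_zmod_val, ZMod.natCast_zmod_val]
  rw [e1, e2 n, e2 (n + (j.val : ℤ) * p), ZMod.stdAddChar_coe, ZMod.stdAddChar_coe, ZMod.stdAddChar_coe,
    ← Complex.exp_add]
  congr 1
  have hqc : (q : ℂ) = (N : ℂ) * (p : ℂ) := by exact_mod_cast hq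
  push_cast
  rw [hqc]
  field_simp
  ring

theorem klC_bound (N : ℕ) (hN : 1 ≤ N) (ch : ℤ → ℂ) (hle : ∀ a, ‖ch a‖ ≤ 1)
    (hper : ∀ a b : ℤ, (N : ℤ) ∣ a - b → ch a = ch b) : ∃ K : ℝ, 0 < K ∧ ∀ (p : ℕ) (q : ℕ) [NeZero q],
    p.Prime → ¬ p ∣ N → q = N * p → ∀ (r : ℤ) (m : ℕ),
    ‖KlC ch q r m‖ ≤ K * Real.sqrt p * (1 + if p ∣ m then Real.sqrt p else 0) := by
  haveI : NeZero N := ⟨by omega⟩
  obtain ⟨K, hK, h⟩ := kl_bound N hN
  obtain ⟨d, hd1, hd2⟩ := per_exp N ch hle hper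
  have hN0 : (0 : ℝ) < N := by exact_mod_cast hN
  refine ⟨N * K, by positivity, fun p q _ hp hpN hq r m => ?_⟩
  rw [klC_eq N ch hd2 p q hq]
  refine (norm_sum_le _ _).trans ?_
  refine (Finset.sum_le_card_nsmul _ _ (K * Real.sqrt p * (1 + if p ∣ m then Real.sqrt p else 0))
    fun j _ => ?_).trans ?_
  · rw [norm_mul]
    have h1 := h p q hp hpN hq (r + (j.val : ℤ) * p) m
    have h2 : 0 ≤ K * Real.sqrt p * (1 + if p ∣ m then Real.sqrt p else 0) := by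
      split_ifs <;> positivity
    calc ‖d j‖ * _ ≤ 1 * _ := mul_le_mul (hd1 j) h1 (norm_nonneg _) zero_le_one
      _ = _ := one_mul _
  · rw [Finset.card_univ, ZMod.card, nsmul_eq_mul]
    refine le_of_eq ?_
    ring

/-! ## The arcs -/


theorem Pre.sum_gn (h : Pre k N lam ch) (q : ℕ) [NeZero q] (hN : N ∣ q) (n : ℕ) (v β : ℝ) (hv : 0 < v) (w : ℂ)
    (hw : w = 4 * Real.pi ^ 2 / (q ^ 2 * (v + 2 * Real.pi * I * β))) (hwre : 0 < w.re) :
    ∑ a ∈ (Finset.range q).filter (fun a => a.Coprime q), gn k lam n v (a / q + β) =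
      (2 * Real.pi / (I * q * (v + 2 * Real.pi * I * β))) ^ k * cexp (2 * Real.pi * I * n * β) *
      ∑' m : ℕ, (aa k lam m * cexp (-(m * w))) * KlC ch q n m := by
  rw [sum_units q (fun a => gn k lam n v (a / q + β))]
  have hq0 : q ≠ 0 := NeZero.ne q
  have hqc : (q : ℂ) ≠ 0 := by exact_mod_cast hq0
  have hb : ∀ u : (ZMod q)ˣ, (q : ℤ) ∣ ((u : ZMod q).val : ℤ) *
      (((u⁻¹ : (ZMod q)ˣ) : ZMod q).val : ℤ) - 1 := by
    intro u
    rw [← ZMod.intCast_zmod_eq_zero_iff_dvd]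
    push_cast
    rw [ZMod.natCast_zmod_val, ZMod.natCast_zmod_val]
    rw [← Units.val_mul, mul_inv_cancel, Units.val_one, sub_self]
  have hzre : 0 < (v + 2 * Real.pi * I * β : ℂ).re := by simpa using hv
  have h1 : ∀ u : (ZMod q)ˣ, gn k lam n v (((u : ZMod q).val : ℝ) / q + β) =
      (2 * Real.pi / (I * q * (v + 2 * Real.pi * I * β))) ^ k * cexp (2 * Real.pi * I * n * β) *
      ∑' m : ℕ, (aa k lam m * cexp (-(m * w))) * (ch ((u : ZMod q).val : ℤ) *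
        ZMod.stdAddChar (((n : ℤ) : ZMod q) * (u : ZMod q) +
          ((m : ℤ) : ZMod q) * ((u⁻¹ : (ZMod q)ˣ) : ZMod q))) := by
    intro u
    have key := h.cusp q _ _ (Nat.pos_of_ne_zero hq0) hN (hb u) _ hzre
    unfold gn
    have e1 : (v + 2 * Real.pi * I * ((((u : ZMod q).val : ℝ) / q + β : ℝ) : ℂ) : ℂ) =
        (v + 2 * Real.pi * I * β) + 2 * Real.pi * I * (((u : ZMod q).val : ℤ) : ℂ) / q := by
      push_cast
      field_simp
      ring
    rw [e1, key, ← hw]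
    generalize (2 * Real.pi / (I * q * (v + 2 * Real.pi * I * β)) : ℂ) ^ k = D
    generalize ch ((u : ZMod q).val : ℤ) = c0
    rw [mul_comm c0 D, mul_assoc D, mul_assoc D, mul_assoc D]
    congr 1
    unfold Ph
    rw [mul_assoc c0, ← tsum_mul_right, ← tsum_mul_left, ← tsum_mul_left]
    refine tsum_congr fun m => ?_
    rw [show (((n : ℤ) : ZMod q) * (u : ZMod q) +
          ((m : ℤ) : ZMod q) * ((u⁻¹ : (ZMod q)ˣ) : ZMod q)) =
        ((n * ((u : ZMod q).val : ℤ) + m *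
          (((u⁻¹ : (ZMod q)ˣ) : ZMod q).val : ℤ) : ℤ) : ZMod q) by
      push_cast
      rw [ZMod.natCast_zmod_val, ZMod.natCast_zmod_val]]
    rw [ZMod.stdAddChar_coe]
    have e2 : ∀ A B X Y Z W : ℂ, X + Y = B + (Z + W) →
        c0 * (A * cexp X * cexp Y) = cexp B * (A * cexp Z * (c0 * cexp W)) := by
      intro A B X Y Z W hXY
      rw [mul_assoc A, ← Complex.exp_add, hXY, Complex.exp_add, Complex.exp_add]
      ring
    apply e2
    push_cast
    field_simp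
    ring
  rw [Finset.sum_congr rfl fun u _ => h1 u, ← Finset.mul_sum]
  congr 1
  have hterm : ∀ m : ℕ, ‖aa k lam m * cexp (-(m * w))‖ = ‖aa k lam m‖ * Real.exp (-(m * w.re)) := by
    intro m
    rw [norm_mul, Complex.norm_exp]
    congr 2
    rw [neg_re, ← Complex.ofReal_natCast m, Complex.re_ofReal_mul]
  have hsum : ∀ u : (ZMod q)ˣ, Summable (fun m : ℕ => (aa k lam m * cexp (-(m * w))) *
        (ch ((u : ZMod q).val : ℤ) * ZMod.stdAddChar (((n : ℤ) : ZMod q) * (u : ZMod q) +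
          ((m : ℤ) : ZMod q) * ((u⁻¹ : (ZMod q)ˣ) : ZMod q)))) := by
    intro u
    refine Summable.of_norm_bounded (h.summ hwre) fun m => ?_
    rw [norm_mul, hterm, norm_mul, AddChar.norm_apply, mul_one]
    exact mul_le_of_le_one_right (by positivity) (h.ch_le _)
  rw [← Summable.tsum_finsetSum (fun u _ => hsum u)]
  refine tsum_congr fun m => ?_
  rw [← Finset.mul_sum]
  rfl


/-- bound for one arc -/
theorem Pre.arc (h : Pre k N lam ch) : ∃ K : ℝ, 0 < K ∧ ∀ (p n : ℕ) (v β : ℝ), p.Prime → ¬ p ∣ N → 0 < v →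
    ‖∑ a ∈ (Finset.range (N * p)).filter (fun a => a.Coprime (N * p)),
      gn k lam n v (a / ((N * p : ℕ) : ℝ) + β)‖ ≤
      K * (Real.sqrt p * p * ‖(v + 2 * Real.pi * I * β : ℂ)‖ * v ^ (-(((k : ℝ) + 1) / 2))) := by
  obtain ⟨K, hK, hKl⟩ := klC_bound N h.N_pos ch h.ch_le h.ch_per
  obtain ⟨C, hC, hS⟩ := h.sumd
  have hN0 : (0 : ℝ) < N := by exact_mod_cast h.N_pos
  refine ⟨K * C * N, by positivity, fun p n v β hp hpN hv => ?_⟩
  obtain ⟨q, hq⟩ : ∃ q, q = N * p := ⟨_, rfl⟩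
  rw [← hq]
  have hq0 : q ≠ 0 := by rw [hq]; exact (Nat.mul_pos h.N_pos hp.pos).ne'
  have : NeZero q := ⟨hq0⟩
  have hq' : (0 : ℝ) < q := by exact_mod_cast Nat.pos_of_ne_zero hq0
  have hp0 : (0 : ℝ) < p := by exact_mod_cast hp.pos
  have hNq : N ∣ q := ⟨p, hq⟩
  obtain ⟨ζ, hζ⟩ : ∃ ζ : ℂ, ζ = v + 2 * Real.pi * I * β := ⟨_, rfl⟩
  have hζre : ζ.re = v := by rw [hζ]; simp
  have hζ0 : ζ ≠ 0 := by
    intro h0
    rw [h0] at hζre
    simp at hζre
    linarith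
  have hζn : 0 < ‖ζ‖ := norm_pos_iff.2 hζ0
  obtain ⟨w, hw⟩ : ∃ w : ℂ, w = 4 * Real.pi ^ 2 / (q ^ 2 * ζ) := ⟨_, rfl⟩
  obtain ⟨U, hU⟩ : ∃ U : ℝ, U = q * ‖ζ‖ / (2 * Real.pi) := ⟨_, rfl⟩
  have hπ : 0 < Real.pi := Real.pi_pos
  have hU0 : 0 < U := by rw [hU]; positivity
  have hwre : w.re = v / U ^ 2 := by
    have e1 : w = ((4 * Real.pi ^ 2 / q ^ 2 : ℝ) : ℂ) * ζ⁻¹ := by
      rw [hw]; push_cast
      have : (q : ℂ) ≠ 0 := by exact_mod_cast hq0
      field_simp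
    rw [e1, Complex.re_ofReal_mul, Complex.inv_re, hζre, Complex.normSq_eq_norm_sq, hU]
    field_simp
    ring
  have hwre0 : 0 < w.re := by rw [hwre]; positivity
  rw [h.sum_gn q hNq n v β hv w (by rw [hw, hζ]) hwre0, ← hζ]
  rw [norm_mul, norm_mul, norm_pow, norm_D q hq0, ← hU]
  have hnb : ‖cexp (2 * Real.pi * I * n * β)‖ = 1 := by
    rw [← norm_phase (n * β)]
    congr 2
    push_cast; ring
  rw [hnb, mul_one]
  obtain ⟨t, ht⟩ : ∃ t : ℝ, t = ((k : ℝ) + 1) / 2 := ⟨_, rfl⟩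
  rw [← ht]
  rw [← ht] at hS
  have hterm : ∀ m : ℕ, ‖aa k lam m * cexp (-(m * w))‖ = ‖aa k lam m‖ * Real.exp (-(m * w.re)) := by
    intro m
    rw [norm_mul, Complex.norm_exp]
    congr 2
    rw [neg_re, ← Complex.ofReal_natCast m, Complex.re_ofReal_mul]
  have hsum1 : Summable (fun m : ℕ => if 1 ∣ m then ‖aa k lam m‖ * Real.exp (-(m * w.re)) else 0) := by
    simpa using h.summ hwre0
  have hsump : Summable (fun m : ℕ => if p ∣ m then ‖aa k lam m‖ * Real.exp (-(m * w.re)) else 0) := by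
    refine Summable.of_nonneg_of_le (fun m => by split_ifs <;> positivity) (fun m => ?_) (h.summ hwre0)
    split_ifs
    · exact le_rfl
    · positivity
  have hbound : ‖∑' m : ℕ, (aa k lam m * cexp (-(m * w))) * KlC ch q n m‖ ≤
      K * Real.sqrt p * (∑' m : ℕ, (if 1 ∣ m then ‖aa k lam m‖ * Real.exp (-(m * w.re)) else 0)) +
      K * Real.sqrt p * Real.sqrt p *
        (∑' m : ℕ, (if p ∣ m then ‖aa k lam m‖ * Real.exp (-(m * w.re)) else 0)) := by
    have hs2 := (hsum1.mul_left (K * Real.sqrt p)).add (hsump.mul_left (K * Real.sqrt p * Real.sqrt p))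
    refine (tsum_of_norm_bounded hs2.hasSum fun m => ?_).trans (le_of_eq ?_)
    · rw [norm_mul, hterm]
      have h1 := hKl p q hp hpN hq n m
      have h2 := mul_le_mul_of_nonneg_left h1 (by positivity : 0 ≤ ‖aa k lam m‖ * Real.exp (-(m * w.re)))
      refine h2.trans (le_of_eq ?_)
      rw [if_pos (one_dvd m)]
      split_ifs <;> ring
    · rw [Summable.tsum_add (hsum1.mul_left _) (hsump.mul_left _), tsum_mul_left, tsum_mul_left]
  have hb1 := hS 1 w.re le_rfl hwre0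
  have hbp := hS p w.re hp.one_le hwre0
  rw [Nat.cast_one, Real.sqrt_one, inv_one, mul_one] at hb1
  have hsp : 0 < Real.sqrt p := Real.sqrt_pos.2 hp0
  have htot : ‖∑' m : ℕ, (aa k lam m * cexp (-(m * w))) * KlC ch q n m‖ ≤
      2 * K * C * Real.sqrt p * w.re ^ (-t) := by
    refine hbound.trans ?_
    have h3 := mul_le_mul_of_nonneg_left hb1 (by positivity : 0 ≤ K * Real.sqrt p)
    have h4 := mul_le_mul_of_nonneg_left hbp (by positivity : 0 ≤ K * Real.sqrt p * Real.sqrt p)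
    have h5 : K * Real.sqrt p * Real.sqrt p * (C * (Real.sqrt p)⁻¹ * w.re ^ (-t)) =
        K * Real.sqrt p * (C * w.re ^ (-t)) := by
      field_simp
    rw [h5] at h4
    linarith
  have hpow : w.re ^ (-t) = v ^ (-t) * (U ^ k * U) := by
    rw [hwre, Real.div_rpow hv.le (by positivity), Real.rpow_neg (by positivity : 0 ≤ U ^ 2), div_inv_eq_mul]
    congr 1
    rw [← Real.rpow_natCast U 2, ← Real.rpow_mul hU0.le, ht, ← pow_succ, ← Real.rpow_natCast U (k + 1)]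
    congr 1
    push_cast
    ring
  calc (1 / U) ^ k * ‖∑' m : ℕ, (aa k lam m * cexp (-(m * w))) * KlC ch q n m‖ ≤
      (1 / U) ^ k * (2 * K * C * Real.sqrt p * w.re ^ (-t)) := mul_le_mul_of_nonneg_left htot (by positivity)
    _ = 2 * K * C * Real.sqrt p * v ^ (-t) * U := by
        rw [hpow, div_pow, one_pow]
        field_simp
    _ ≤ 2 * K * C * Real.sqrt p * v ^ (-t) * (N * p * ‖ζ‖ / 2) := by
        apply mul_le_mul_of_nonneg_left _ (by positivity)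
        rw [hU, hq]
        push_cast
        rw [div_le_div_iff₀ (by positivity) (by norm_num)]
        have h6 : (1 : ℝ) ≤ Real.pi := by linarith [Real.pi_gt_three]
        have h7 : 0 ≤ N * p * ‖ζ‖ := by positivity
        nlinarith
    _ = _ := by ring

theorem Pre.gn_continuous (h : Pre k N lam ch) (n : ℕ) {v : ℝ} (hv : 0 < v) : Continuous (gn k lam n v) := by
  unfold gn
  refine Continuous.mul ?_ (by fun_prop)
  unfold Ph
  refine continuous_tsum (fun m => ?_) (h.summ hv) (fun m x => ?_)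
  · fun_prop
  · rw [norm_mul, Complex.norm_exp]
    refine le_of_eq ?_
    congr 2
    simp

theorem Pre.gn_bound (h : Pre k N lam ch) : ∃ C : ℝ, 0 < C ∧ ∀ (n : ℕ) (v x : ℝ), 0 < v →
    ‖gn k lam n v x‖ ≤ C * v ^ (-((k : ℝ) / 2)) := by
  obtain ⟨C, hC⟩ := h.bd
  refine ⟨|C| + 1, by positivity, fun n v x hv => ?_⟩
  unfold gn
  have hnb : ‖cexp (2 * Real.pi * I * n * x)‖ = 1 := by
    rw [← norm_phase (n * x)]
    congr 2
    push_cast; ring
  rw [norm_mul, hnb, mul_one]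
  have hre : (v + 2 * Real.pi * I * x : ℂ).re = v := by simp
  have := hC (v + 2 * Real.pi * I * x) (by rw [hre]; exact hv)
  rw [hre] at this
  refine this.trans (mul_le_mul_of_nonneg_right ?_ (by positivity))
  linarith [le_abs_self C]

/-- the coefficient as an integral -/
theorem Pre.coef (h : Pre k N lam ch) (n : ℕ) {v : ℝ} (hv : 0 < v) :
    ∫ x in (0 : ℝ)..1, gn k lam n v x = aa k lam n * cexp (-(n * v)) := by
  have e1 : ∀ x : ℝ, gn k lam n v x =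
      ∑' m : ℕ, aa k lam m * cexp (-(m * v)) * cexp (2 * Real.pi * I * ((n - m : ℤ) : ℂ) * x) := by
    intro x
    unfold gn Ph
    rw [← tsum_mul_right]
    refine tsum_congr fun m => ?_
    rw [mul_assoc (aa k lam m), ← Complex.exp_add, mul_assoc (aa k lam m), ← Complex.exp_add]
    congr 2
    push_cast
    ring
  simp_rw [e1]
  have hterm : ∀ m : ℕ, ‖aa k lam m * cexp (-(m * v))‖ = ‖aa k lam m‖ * Real.exp (-(m * v)) := by
    intro m
    rw [norm_mul, Complex.norm_exp]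
    congr 2
    rw [neg_re, ← Complex.ofReal_natCast m, Complex.re_ofReal_mul, Complex.ofReal_re]
  have hnorm : ∀ (m : ℕ) (x : ℝ), ‖aa k lam m * cexp (-(m * v)) * cexp (2 * Real.pi * I * ((n - m : ℤ) : ℂ) * x)‖ =
      ‖aa k lam m‖ * Real.exp (-(m * v)) := by
    intro m x
    rw [norm_mul, hterm]
    rw [show (2 * Real.pi * I * ((n - m : ℤ) : ℂ) * x : ℂ) =
      ((2 * Real.pi * ((n - m : ℤ) : ℝ) * x : ℝ) : ℂ) * I by push_cast; ring,
      Complex.norm_exp_ofReal_mul_I, mul_one]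
  have hS := hasSum_integral_of_summable_integral_norm (μ := volume.restrict (Set.Ioc (0 : ℝ) 1))
    (F := fun (m : ℕ) (x : ℝ) => aa k lam m * cexp (-(m * v)) * cexp (2 * Real.pi * I * ((n - m : ℤ) : ℂ) * x))
    (fun m => by
      apply Continuous.integrableOn_Ioc
      fun_prop)
    (by
      simp_rw [hnorm]
      simpa using h.summ hv)
  rw [intervalIntegral.integral_of_le zero_le_one, ← hS.tsum_eq]
  have e2 : ∀ m : ℕ, ∫ x in Set.Ioc (0 : ℝ) 1, aa k lam m * cexp (-(m * v)) * cexp (2 * Real.pi * I * ((n - m : ℤ) : ℂ) * x) =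
      if m = n then aa k lam n * cexp (-(n * v)) else 0 := by
    intro m
    rw [← intervalIntegral.integral_of_le zero_le_one, intervalIntegral.integral_const_mul, int_exp]
    by_cases hmn : m = n
    · subst hmn; simp
    · have : (n : ℤ) - m ≠ 0 := by omega
      rw [if_neg this, if_neg hmn, mul_zero]
  simp_rw [e2]
  rw [tsum_ite_eq]

/-- one modulus -/
theorem Pre.one (h : Pre k N lam ch) : ∃ K : ℝ, 0 < K ∧ ∀ (p n H : ℕ) (v η : ℝ), p.Prime → ¬ p ∣ N → 1 ≤ H → 0 < v →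
    0 < η →
    ‖∑ a ∈ (Finset.range (N * p)).filter (fun a => a.Coprime (N * p)),
      ∫ β in (-(1 / 2) : ℝ)..(1 / 2), gn k lam n v (a / ((N * p : ℕ) : ℝ) + β) * (fej H β : ℂ)‖ ≤
      K * p * (Real.sqrt p * (v + η) * v ^ (-(((k : ℝ) + 1) / 2)) + v ^ (-((k : ℝ) / 2)) / (H * η)) := by
  obtain ⟨K, hK, hA⟩ := h.arc
  obtain ⟨G, hG, hgb⟩ := h.gn_bound
  have hN0 : (0 : ℝ) < N := by exact_mod_cast h.N_pos
  have hπ := Real.pi_pos
  refine ⟨K * (2 * Real.pi) + N * G * Real.pi, by positivity, fun p n H v η hp hpN hH hv hη => ?_⟩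
  have hH0 : (0 : ℝ) < H := by exact_mod_cast hH
  have hp0 : (0 : ℝ) < p := by exact_mod_cast hp.pos
  have hgc := h.gn_continuous n hv
  obtain ⟨q, hq⟩ : ∃ q, q = N * p := ⟨_, rfl⟩
  have hA' := fun β => hA p n v β hp hpN hv
  rw [← hq] at hA' ⊢
  have hint : ∀ a ∈ (Finset.range q).filter (fun a => a.Coprime q), IntervalIntegrable
      (fun β : ℝ => gn k lam n v (a / q + β) * (fej H β : ℂ)) volume (-(1 / 2)) (1 / 2) := by
    intro a _
    apply Continuous.intervalIntegrable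
    exact (hgc.comp (by fun_prop)).mul (Complex.continuous_ofReal.comp (Pool.Agent.Y809.GL.fej_continuous H))
  rw [← intervalIntegral.integral_finsetSum hint]
  have h1 : ∀ β : ℝ, ∑ a ∈ (Finset.range q).filter (fun a => a.Coprime q),
      gn k lam n v (a / q + β) * (fej H β : ℂ) =
      (∑ a ∈ (Finset.range q).filter (fun a => a.Coprime q), gn k lam n v (a / q + β)) * (fej H β : ℂ) := by
    intro β; rw [Finset.sum_mul]
  simp_rw [h1]
  refine (intervalIntegral.norm_integral_le_integral_norm (by norm_num)).trans ?_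
  obtain ⟨B1, hB1⟩ : ∃ B1 : ℝ, B1 = K * (Real.sqrt p * p * (2 * Real.pi * (v + η)) * v ^ (-(((k : ℝ) + 1) / 2))) := ⟨_, rfl⟩
  have hB10 : 0 ≤ B1 := by rw [hB1]; positivity
  obtain ⟨E, hE⟩ : ∃ E : ℝ, E = (q : ℝ) * (G * v ^ (-((k : ℝ) / 2))) := ⟨_, rfl⟩
  have hE0 : 0 ≤ E := by rw [hE]; positivity
  have hcontS : Continuous (fun β : ℝ =>
      ‖(∑ a ∈ (Finset.range q).filter (fun a => a.Coprime q), gn k lam n v (a / q + β)) * (fej H β : ℂ)‖) := by
    refine Continuous.norm (Continuous.mul ?_ (Complex.continuous_ofReal.comp (Pool.Agent.Y809.GL.fej_continuous H)))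
    exact continuous_finsetSum _ (fun a _ => hgc.comp (by fun_prop))
  have hcontR : Continuous (fun β : ℝ => B1 * fej H β + E * (1 / (2 * H)) * (1 / (β ^ 2 + η ^ 2))) := by
    refine (continuous_const.mul (Pool.Agent.Y809.GL.fej_continuous H)).add (continuous_const.mul ?_)
    refine continuous_const.div (by fun_prop) (fun β => ?_)
    positivity
  have h2 : ∫ β in (-(1 / 2) : ℝ)..(1 / 2), ‖(∑ a ∈ (Finset.range q).filter (fun a => a.Coprime q),
      gn k lam n v (a / q + β)) * (fej H β : ℂ)‖ ≤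
      ∫ β in (-(1 / 2) : ℝ)..(1 / 2), (B1 * fej H β + E * (1 / (2 * H)) * (1 / (β ^ 2 + η ^ 2))) := by
    refine intervalIntegral.integral_mono_on (by norm_num) (hcontS.intervalIntegrable _ _)
      (hcontR.intervalIntegrable _ _) ?_
    intro β hβ
    have hβ' : |β| ≤ 1 / 2 := abs_le.mpr ⟨by linarith [hβ.1], hβ.2⟩
    rw [norm_mul, Complex.norm_real, Real.norm_of_nonneg (fej_nonneg H β)]
    have hf0 := fej_nonneg H β
    have ht0 : 0 ≤ E * (1 / (2 * H)) * (1 / (β ^ 2 + η ^ 2)) := by positivity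
    rcases le_or_gt |β| η with hc | hc
    · have h3 : ‖∑ a ∈ (Finset.range q).filter (fun a => a.Coprime q), gn k lam n v (a / q + β)‖ ≤ B1 := by
        refine (hA' β).trans ?_
        rw [hB1]
        apply mul_le_mul_of_nonneg_left _ hK.le
        apply mul_le_mul_of_nonneg_right _ (by positivity)
        apply mul_le_mul_of_nonneg_left _ (by positivity)
        refine (norm_add_le _ _).trans ?_
        rw [norm_mul, norm_mul, norm_mul, norm_I, Complex.norm_real, Complex.norm_real, Complex.norm_real,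
          Real.norm_of_nonneg hv.le, Real.norm_of_nonneg hπ.le, Real.norm_eq_abs]
        simp only [Complex.norm_ofNat, mul_one]
        have h4 : (1 : ℝ) ≤ 2 * Real.pi := by linarith [Real.pi_gt_three]
        nlinarith
      have := mul_le_mul_of_nonneg_right h3 hf0
      linarith
    · have h3 : ‖∑ a ∈ (Finset.range q).filter (fun a => a.Coprime q), gn k lam n v (a / q + β)‖ ≤ E := by
        refine (norm_sum_le _ _).trans ?_
        refine (Finset.sum_le_card_nsmul _ _ (G * v ^ (-((k : ℝ) / 2))) (fun a _ => hgb n v _ hv)).trans ?_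
        rw [nsmul_eq_mul, hE]
        apply mul_le_mul_of_nonneg_right _ (by positivity)
        have h4 := (card_filter_le (Finset.range q) (fun a => a.Coprime q))
        rw [card_range] at h4
        exact_mod_cast h4
      have hβ0 : β ≠ 0 := by
        intro h; rw [h, abs_zero] at hc; linarith
      have h5 := fej_le H hH β hβ' hβ0
      have h6 : η ^ 2 ≤ β ^ 2 := by
        rw [← sq_abs β]; exact pow_le_pow_left₀ hη.le hc.le 2
      have hβ2 : 0 < β ^ 2 := by positivity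
      have h7 : 1 / (4 * H * β ^ 2) ≤ (1 / (2 * H)) * (1 / (β ^ 2 + η ^ 2)) := by
        rw [div_mul_div_comm, one_mul]
        apply one_div_le_one_div_of_le (by positivity)
        nlinarith
      have h8 := mul_le_mul h3 (h5.trans h7) hf0 hE0
      have h9 : 0 ≤ B1 * fej H β := by positivity
      linarith [h8, show E * (1 / (2 * H) * (1 / (β ^ 2 + η ^ 2))) = E * (1 / (2 * H)) * (1 / (β ^ 2 + η ^ 2)) by ring]
  refine h2.trans ?_
  rw [intervalIntegral.integral_add, intervalIntegral.integral_const_mul, intervalIntegral.integral_const_mul,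
    fej_integral H hH]
  · have h3 := mul_le_mul_of_nonneg_left (integral_inv η hη) (show 0 ≤ E * (1 / (2 * H)) by positivity)
    have h4 : E * (1 / (2 * H)) * (Real.pi / η) = p * (N * G * Real.pi / 2 * (v ^ (-((k : ℝ) / 2)) / (H * η))) := by
      rw [hE, hq]
      push_cast
      field_simp
    rw [h4] at h3
    have h5 : B1 * 1 = K * (2 * Real.pi) * p * (Real.sqrt p * (v + η) * v ^ (-(((k : ℝ) + 1) / 2))) := by
      rw [hB1]; ring
    have h6 : 0 ≤ p * (N * G * Real.pi * (v ^ (-((k : ℝ) / 2)) / (H * η))) := by positivity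
    have h7 : 0 ≤ N * G * Real.pi * p * (Real.sqrt p * (v + η) * v ^ (-(((k : ℝ) + 1) / 2))) := by positivity
    have h8 : 0 ≤ K * (2 * Real.pi) * p * (v ^ (-((k : ℝ) / 2)) / (H * η)) := by positivity
    rw [h5]
    linarith
  · exact (continuous_const.mul (Pool.Agent.Y809.GL.fej_continuous H)).intervalIntegrable _ _
  · apply Continuous.intervalIntegrable
    refine continuous_const.mul (continuous_const.div (by fun_prop) (fun β => ?_))
    positivity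


/-- **The pointwise bound.** -/
theorem Pre.ram (h : Pre k N lam ch) :
    ∃ th C : ℝ, 0 ≤ th ∧ th < 1 / 2 ∧ ∀ n : ℕ, 1 ≤ n → ‖lam n‖ ≤ C * (n : ℝ) ^ th := by
  obtain ⟨C1, P0, hC1, hP0, hJ⟩ := Pool.Agent.Y809.GL.jut
  obtain ⟨K, hK, hO⟩ := h.one
  obtain ⟨G, hG, hgb⟩ := h.gn_bound
  have hN := h.N_pos
  have hN0 : (0 : ℝ) < N := by exact_mod_cast hN
  obtain ⟨n0, hn0⟩ : ∃ n0 : ℕ, ∀ n : ℕ, n0 ≤ n → P0 ≤ (n : ℝ) ^ (2 / 3 : ℝ) ∧ (N : ℝ) ≤ (n : ℝ) ^ (2 / 3 : ℝ) ∧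
      2 ≤ (n : ℝ) ^ (1 / 6 : ℝ) := by
    have h1 : Filter.Tendsto (fun n : ℕ => (n : ℝ) ^ (2 / 3 : ℝ)) Filter.atTop Filter.atTop :=
      (tendsto_rpow_atTop (by norm_num)).comp tendsto_natCast_atTop_atTop
    have h2 : Filter.Tendsto (fun n : ℕ => (n : ℝ) ^ (1 / 6 : ℝ)) Filter.atTop Filter.atTop :=
      (tendsto_rpow_atTop (by norm_num)).comp tendsto_natCast_atTop_atTop
    obtain ⟨n0, hn0⟩ := Filter.eventually_atTop.1 ((h1.eventually_ge_atTop P0).and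
      ((h1.eventually_ge_atTop (N : ℝ)).and (h2.eventually_ge_atTop 2)))
    exact ⟨n0, hn0⟩
  obtain ⟨A, hA⟩ : ∃ A : ℝ, A = Real.exp 1 * (36 * K + 192 * C1 * N * G) := ⟨_, rfl⟩
  have hA0 : 0 < A := by rw [hA]; positivity
  have hS0 : 0 ≤ ∑ m ∈ Finset.range n0, ‖lam m‖ := Finset.sum_nonneg fun _ _ => norm_nonneg _
  refine ⟨11 / 24, A + ∑ m ∈ Finset.range n0, ‖lam m‖, by norm_num, by norm_num, fun n hn => ?_⟩
  have hx1 : (1 : ℝ) ≤ n := by exact_mod_cast hn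
  have hx0 : (0 : ℝ) < n := by linarith
  rcases Nat.lt_or_ge n n0 with hlt | hge
  · have h1 : ‖lam n‖ ≤ ∑ m ∈ Finset.range n0, ‖lam m‖ :=
      Finset.single_le_sum (f := fun m => ‖lam m‖) (fun _ _ => norm_nonneg _) (Finset.mem_range.2 hlt)
    have h2 : (1 : ℝ) ≤ (n : ℝ) ^ (11 / 24 : ℝ) := Real.one_le_rpow hx1 (by norm_num)
    nlinarith
  obtain ⟨c1, c2, c3⟩ := hn0 n hge
  obtain ⟨x, hx⟩ : ∃ x : ℝ, x = (n : ℝ) := ⟨_, rfl⟩
  rw [← hx] at c1 c2 c3 hx1 hx0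
  obtain ⟨P, hP⟩ : ∃ P : ℕ, P = ⌈x ^ (2 / 3 : ℝ)⌉₊ := ⟨_, rfl⟩
  obtain ⟨H, hH⟩ : ∃ H : ℕ, H = ⌈x ^ (7 / 6 : ℝ)⌉₊ := ⟨_, rfl⟩
  have hP1 : x ^ (2 / 3 : ℝ) ≤ P := by rw [hP]; exact Nat.le_ceil _
  have hP2 : (P : ℝ) ≤ 2 * x ^ (2 / 3 : ℝ) := by
    have h1 : (1 : ℝ) ≤ x ^ (2 / 3 : ℝ) := Real.one_le_rpow hx1 (by norm_num)
    have := (Nat.ceil_lt_add_one (by positivity : 0 ≤ x ^ (2 / 3 : ℝ))).le
    rw [← hP] at this
    linarith
  have hH1 : x ^ (7 / 6 : ℝ) ≤ H := by rw [hH]; exact Nat.le_ceil _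
  have hH2 : (H : ℝ) ≤ 2 * x ^ (7 / 6 : ℝ) := by
    have h1 : (1 : ℝ) ≤ x ^ (7 / 6 : ℝ) := Real.one_le_rpow hx1 (by norm_num)
    have := (Nat.ceil_lt_add_one (by positivity : 0 ≤ x ^ (7 / 6 : ℝ))).le
    rw [← hH] at this
    linarith
  have hP1' : (1 : ℝ) ≤ P := (Real.one_le_rpow hx1 (by norm_num)).trans hP1
  have hH1' : (1 : ℝ) ≤ H := (Real.one_le_rpow hx1 (by norm_num)).trans hH1
  have hPn : 1 ≤ P := by exact_mod_cast hP1'
  have hHn : 1 ≤ H := by exact_mod_cast hH1'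
  have hNP : N ≤ P := by exact_mod_cast c2.trans hP1
  have hHP : H ≤ P ^ 2 := by
    have h1 : (H : ℝ) ≤ (P : ℝ) ^ 2 := by
      calc (H : ℝ) ≤ 2 * x ^ (7 / 6 : ℝ) := hH2
        _ ≤ x ^ (1 / 6 : ℝ) * x ^ (7 / 6 : ℝ) := mul_le_mul_of_nonneg_right c3 (by positivity)
        _ = (x ^ (2 / 3 : ℝ)) ^ 2 := by
            rw [← Real.rpow_add hx0, ← Real.rpow_natCast, ← Real.rpow_mul hx0.le]
            norm_num
        _ ≤ (P : ℝ) ^ 2 := pow_le_pow_left₀ (by positivity) hP1 2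
    exact_mod_cast h1
  obtain ⟨v, hv⟩ : ∃ v : ℝ, v = 1 / x := ⟨_, rfl⟩
  have hv0 : 0 < v := by rw [hv]; positivity
  have hP0' : (0 : ℝ) < P := by linarith
  have hH0' : (0 : ℝ) < H := by linarith
  obtain ⟨j1, j2, j3⟩ := hJ N P H (gn k lam n v) hN (c1.trans hP1) hNP hHn hHP (h.gn_continuous n hv0)
    (gn_periodic n v)
  rw [h.coef n hv0] at j3
  -- the mean square
  have hL2 : Real.sqrt (∫ x in (0 : ℝ)..1, ‖gn k lam n v x‖ ^ 2) ≤ G * v ^ (-((k : ℝ) / 2)) := by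
    rw [Real.sqrt_le_left (by positivity)]
    calc ∫ x in (0 : ℝ)..1, ‖gn k lam n v x‖ ^ 2 ≤ ∫ x in (0 : ℝ)..1, (G * v ^ (-((k : ℝ) / 2))) ^ 2 := by
          apply intervalIntegral.integral_mono_on zero_le_one
          · exact ((h.gn_continuous n hv0).norm.pow 2).intervalIntegrable _ _
          · exact intervalIntegrable_const
          · intro y _
            exact pow_le_pow_left₀ (norm_nonneg _) (hgb n v y hv0) 2
      _ = _ := by simp
  -- powers of v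
  have hvk : v ^ (-((k : ℝ) / 2)) = x ^ ((k : ℝ) / 2) := by
    rw [hv, one_div, Real.inv_rpow hx0.le, Real.rpow_neg hx0.le, inv_inv]
  have hvk1 : v ^ (-(((k : ℝ) + 1) / 2)) = x ^ ((k : ℝ) / 2) * x ^ (1 / 2 : ℝ) := by
    rw [hv, one_div, Real.inv_rpow hx0.le, Real.rpow_neg hx0.le, inv_inv, ← Real.rpow_add hx0]
    congr 1
    ring
  rw [hvk] at hL2
  obtain ⟨B, hB⟩ : ∃ B : ℝ, B = x ^ ((k : ℝ) / 2) := ⟨_, rfl⟩
  rw [← hB] at hL2 hvk hvk1
  have hB0 : 0 < B := by rw [hB]; positivity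
  -- the main term
  have hW : ∀ q ∈ QQ N P, ‖∑ a ∈ (Finset.range q).filter (fun a => a.Coprime q),
        ∫ β in (-(1 / 2) : ℝ)..(1 / 2), gn k lam n v (a / q + β) * (fej H β : ℂ)‖ ≤
      4 * K * P * (9 * (B * x ^ (-(1 / 6) : ℝ))) := by
    intro q hq
    unfold QQ at hq
    rw [mem_image] at hq
    obtain ⟨p, hp, rfl⟩ := hq
    rw [mem_filter, mem_Ioc] at hp
    obtain ⟨⟨_, hp4⟩, hpp, hpN⟩ := hp
    have hp0 : (0 : ℝ) < p := by exact_mod_cast hpp.pos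
    have hp4' : (p : ℝ) ≤ 4 * P := by exact_mod_cast hp4
    refine (hO p n H v v hpp hpN hHn hv0 hv0).trans ?_
    rw [hvk, hvk1]
    have e1 : Real.sqrt p ≤ 4 * x ^ (1 / 3 : ℝ) := by
      rw [Real.sqrt_le_left (by positivity)]
      calc (p : ℝ) ≤ 4 * (2 * x ^ (2 / 3 : ℝ)) := hp4'.trans (by linarith)
        _ ≤ 16 * x ^ (2 / 3 : ℝ) := by
            have : 0 ≤ x ^ (2 / 3 : ℝ) := by positivity
            linarith
        _ = (4 * x ^ (1 / 3 : ℝ)) ^ 2 := by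
            rw [mul_pow, ← Real.rpow_natCast (x ^ _), ← Real.rpow_mul hx0.le]
            norm_num
    have e2 : Real.sqrt p * (v + v) * (B * x ^ (1 / 2 : ℝ)) ≤ 8 * (B * x ^ (-(1 / 6) : ℝ)) := by
      calc Real.sqrt p * (v + v) * (B * x ^ (1 / 2 : ℝ)) ≤
            (4 * x ^ (1 / 3 : ℝ)) * (v + v) * (B * x ^ (1 / 2 : ℝ)) := by gcongr
        _ = 8 * (B * (x ^ (1 / 3 : ℝ) * x ^ (1 / 2 : ℝ) * x ^ (-1 : ℝ))) := by
            rw [hv, Real.rpow_neg_one]
            ring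
        _ = _ := by
            rw [← Real.rpow_add hx0, ← Real.rpow_add hx0]
            norm_num
    have e3 : B / (H * v) ≤ B * x ^ (-(1 / 6) : ℝ) := by
      rw [hv, div_eq_mul_inv]
      apply mul_le_mul_of_nonneg_left _ hB0.le
      have e4 : (H * (1 / x))⁻¹ = x / H := by field_simp
      rw [e4, div_le_iff₀ hH0']
      calc x = x ^ (-(1 / 6) : ℝ) * x ^ (7 / 6 : ℝ) := by
            rw [← Real.rpow_add hx0]
            norm_num
        _ ≤ x ^ (-(1 / 6) : ℝ) * H := mul_le_mul_of_nonneg_left hH1 (by positivity)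
    calc K * p * (Real.sqrt p * (v + v) * (B * x ^ (1 / 2 : ℝ)) + B / (H * v)) ≤
        K * p * (9 * (B * x ^ (-(1 / 6) : ℝ))) := by
          apply mul_le_mul_of_nonneg_left _ (by positivity)
          linarith
      _ ≤ K * (4 * P) * (9 * (B * x ^ (-(1 / 6) : ℝ))) := by gcongr
      _ = _ := by ring
  have hmain : ‖((1 / (Lam N P : ℝ) : ℝ) : ℂ) *
      ∑ q ∈ QQ N P, ∑ a ∈ (Finset.range q).filter (fun a => a.Coprime q),
        ∫ β in (-(1 / 2) : ℝ)..(1 / 2), gn k lam n v (a / q + β) * (fej H β : ℂ)‖ ≤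
      36 * K * (B * x ^ (-(1 / 6) : ℝ)) := by
    rw [norm_mul, Complex.norm_real, Real.norm_of_nonneg (by positivity)]
    have e1 : ‖∑ q ∈ QQ N P, ∑ a ∈ (Finset.range q).filter (fun a => a.Coprime q),
        ∫ β in (-(1 / 2) : ℝ)..(1 / 2), gn k lam n v (a / q + β) * (fej H β : ℂ)‖ ≤
        (QQ N P).card * (4 * K * P * (9 * (B * x ^ (-(1 / 6) : ℝ)))) := by
      refine (norm_sum_le _ _).trans ((Finset.sum_le_card_nsmul _ _ _ hW).trans (le_of_eq ?_))
      rw [nsmul_eq_mul]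
    have e2 : (QQ N P).card * (4 * K * P * (9 * (B * x ^ (-(1 / 6) : ℝ)))) ≤
        Lam N P * (36 * K * (B * x ^ (-(1 / 6) : ℝ))) := by
      calc _ = ((QQ N P).card * (P : ℝ)) * (36 * K * (B * x ^ (-(1 / 6) : ℝ))) := by ring
        _ ≤ _ := mul_le_mul_of_nonneg_right j1 (by positivity)
    calc 1 / Lam N P * _ ≤ 1 / Lam N P * (Lam N P * (36 * K * (B * x ^ (-(1 / 6) : ℝ)))) :=
          mul_le_mul_of_nonneg_left (e1.trans e2) (by positivity)
      _ = _ := by field_simp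
  -- the error term
  have herr : C1 * N * Real.sqrt H * Real.log P / P * Real.sqrt (∫ x in (0 : ℝ)..1, ‖gn k lam n v x‖ ^ 2) ≤
      192 * C1 * N * G * (B * x ^ (-(5 / 72) : ℝ)) := by
    have e1 : Real.sqrt H ≤ 2 * x ^ (7 / 12 : ℝ) := by
      rw [Real.sqrt_le_left (by positivity)]
      calc (H : ℝ) ≤ 2 * x ^ (7 / 6 : ℝ) := hH2
        _ ≤ 4 * x ^ (7 / 6 : ℝ) := by
            have : 0 ≤ x ^ (7 / 6 : ℝ) := by positivity
            linarith
        _ = (2 * x ^ (7 / 12 : ℝ)) ^ 2 := by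
            rw [mul_pow, ← Real.rpow_natCast (x ^ _), ← Real.rpow_mul hx0.le]
            norm_num
    have e2 : Real.log P ≤ 96 * x ^ (1 / 72 : ℝ) := by
      have h1 := Real.log_le_rpow_div hP0'.le (by norm_num : (0 : ℝ) < 1 / 48)
      refine h1.trans ?_
      have h2 : (P : ℝ) ^ (1 / 48 : ℝ) ≤ 2 * x ^ (1 / 72 : ℝ) := by
        calc (P : ℝ) ^ (1 / 48 : ℝ) ≤ (2 * x ^ (2 / 3 : ℝ)) ^ (1 / 48 : ℝ) :=
              Real.rpow_le_rpow hP0'.le hP2 (by norm_num)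
          _ = 2 ^ (1 / 48 : ℝ) * x ^ (1 / 72 : ℝ) := by
              rw [Real.mul_rpow (by norm_num) (by positivity), ← Real.rpow_mul hx0.le]
              norm_num
          _ ≤ 2 * x ^ (1 / 72 : ℝ) := by
              apply mul_le_mul_of_nonneg_right _ (by positivity)
              calc (2 : ℝ) ^ (1 / 48 : ℝ) ≤ 2 ^ (1 : ℝ) :=
                    Real.rpow_le_rpow_of_exponent_le (by norm_num) (by norm_num)
                _ = 2 := Real.rpow_one 2
      rw [div_le_iff₀ (by norm_num)]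
      linarith
    have hlog : 0 ≤ Real.log P := Real.log_nonneg hP1'
    have e3 : (P : ℝ)⁻¹ ≤ x ^ (-(2 / 3) : ℝ) := by
      rw [Real.rpow_neg hx0.le]
      exact inv_anti₀ (by positivity) hP1
    calc C1 * N * Real.sqrt H * Real.log P / P * Real.sqrt (∫ x in (0 : ℝ)..1, ‖gn k lam n v x‖ ^ 2) =
        C1 * N * Real.sqrt H * Real.log P * (P : ℝ)⁻¹ * Real.sqrt (∫ x in (0 : ℝ)..1, ‖gn k lam n v x‖ ^ 2) := by
          rw [div_eq_mul_inv]
      _ ≤ C1 * N * (2 * x ^ (7 / 12 : ℝ)) * (96 * x ^ (1 / 72 : ℝ)) * x ^ (-(2 / 3) : ℝ) * (G * B) := by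
          gcongr
      _ = 192 * C1 * N * G * (B * (x ^ (7 / 12 : ℝ) * x ^ (1 / 72 : ℝ) * x ^ (-(2 / 3) : ℝ))) := by ring
      _ = _ := by
          rw [← Real.rpow_add hx0, ← Real.rpow_add hx0]
          norm_num
  -- together
  have e1 : ‖aa k lam n * cexp (-(n * v))‖ ≤ 36 * K * (B * x ^ (-(1 / 6) : ℝ)) +
      192 * C1 * N * G * (B * x ^ (-(5 / 72) : ℝ)) := by
    have e2 := norm_sub_norm_le (aa k lam n * cexp (-(n * v))) (((1 / (Lam N P : ℝ) : ℝ) : ℂ) *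
      ∑ q ∈ QQ N P, ∑ a ∈ (Finset.range q).filter (fun a => a.Coprime q),
        ∫ β in (-(1 / 2) : ℝ)..(1 / 2), gn k lam n v (a / q + β) * (fej H β : ℂ))
    linarith [e2.trans (j3.trans herr)]
  have e3 : ‖aa k lam n * cexp (-(n * v))‖ = ‖aa k lam n‖ * Real.exp (-1) := by
    rw [norm_mul, Complex.norm_exp]
    congr 2
    rw [neg_re, ← Complex.ofReal_natCast n, Complex.re_ofReal_mul, Complex.ofReal_re, hv, hx]
    have : (n : ℝ) ≠ 0 := by rw [← hx]; exact hx0.ne'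
    field_simp
  have e4 : x ^ (-(1 / 6) : ℝ) ≤ x ^ (-(1 / 24) : ℝ) :=
    Real.rpow_le_rpow_of_exponent_le hx1 (by norm_num)
  have e5 : x ^ (-(5 / 72) : ℝ) ≤ x ^ (-(1 / 24) : ℝ) :=
    Real.rpow_le_rpow_of_exponent_le hx1 (by norm_num)
  have e6 : ‖aa k lam n‖ ≤ A * (B * x ^ (-(1 / 24) : ℝ)) := by
    have e7 : ‖aa k lam n‖ = ‖aa k lam n * cexp (-(n * v))‖ * Real.exp 1 := by
      rw [e3, mul_assoc, ← Real.exp_add]
      simp
    rw [e7, hA]
    calc _ ≤ (36 * K * (B * x ^ (-(1 / 6) : ℝ)) + 192 * C1 * N * G * (B * x ^ (-(5 / 72) : ℝ))) * Real.exp 1 :=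
          mul_le_mul_of_nonneg_right e1 (Real.exp_pos _).le
      _ ≤ (36 * K * (B * x ^ (-(1 / 24) : ℝ)) + 192 * C1 * N * G * (B * x ^ (-(1 / 24) : ℝ))) * Real.exp 1 := by
          gcongr
      _ = _ := by ring
  have e8 : ‖aa k lam n‖ = ‖lam n‖ * x ^ (((k : ℝ) - 1) / 2) := by
    unfold aa
    rw [norm_mul, Complex.norm_real, Real.norm_of_nonneg (by positivity), hx]
  rw [e8, hB] at e6
  have e9 : x ^ ((k : ℝ) / 2) * x ^ (-(1 / 24) : ℝ) = x ^ (11 / 24 : ℝ) * x ^ (((k : ℝ) - 1) / 2) := by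
    rw [← Real.rpow_add hx0, ← Real.rpow_add hx0]
    congr 1
    ring
  rw [e9, ← mul_assoc] at e6
  have e10 := le_of_mul_le_mul_right e6 (by positivity)
  rw [← hx]
  have e11 : 0 ≤ (∑ m ∈ Finset.range n0, ‖lam m‖) * x ^ (11 / 24 : ℝ) := by positivity
  rw [add_mul]
  linarith

end Pool.Agent.Q246.NC
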